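import Pool.Agent.K6.H31.WT.DetB

/-!
# The lower bound for the energy of a `C¹` map which is onto in the direction of the sphere
-/

set_option autoImplicit false

open Set Filter Topology MeasureTheory Metric Module
open scoped ContDiff ENNReal NNReal

namespace Pool.Agent.K6.H31.WT

variable {E : Type*} [NormedAddCommGroup E] [InnerProductSpace ℝ E] [FiniteDimensional ℝ E]
  [MeasurableSpace E] [BorelSpace E] {V : Submodule ℝ E}

/-- the constant -/
noncomputable def cst (V : Submodule ℝ E) : ℝ :=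
  (finrank ℝ E).factorial * (3 ^ (finrank ℝ V - 1) * 2 ^ finrank ℝ E)

omit [MeasurableSpace E] [BorelSpace E] in
theorem det_bound {h : E → E} (hh : ContDiff ℝ 1 h) {x : E} (hx : x ∈ cTub V (1 / 8))
    (hhx : 1 / 2 < ‖V.starProjection (h x)‖) :
    ∃ A : E →L[ℝ] E, HasFDerivAt (fun x => ‖V.starProjection x‖ •
      (‖V.starProjection (h x)‖⁻¹ • V.starProjection (h x)) + (x - V.starProjection x)) A x ∧
      |A.det| ≤ cst V * ‖fderiv ℝ h x‖ ^ (finrank ℝ V - 1) := by
  set P := V.starProjection with hP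
  set Y : E → E := fun x => P (h x) with hY
  set c : E → ℝ := fun x => ‖Y x‖⁻¹ with hc
  set u : E → E := fun x => c x • Y x with hu
  have hYx : Y x ≠ 0 := by
    rw [← norm_pos_iff]
    show 0 < ‖P (h x)‖
    linarith
  have hY0 : 0 < ‖Y x‖ := norm_pos_iff.2 hYx
  have hhd : HasFDerivAt h (fderiv ℝ h x) x :=
    (hh.differentiable one_ne_zero).differentiableAt.hasFDerivAt
  have hYd : HasFDerivAt Y (P.comp (fderiv ℝ h x)) x := P.hasFDerivAt.comp x hhd
  have hYc : ContDiff ℝ 1 Y := P.contDiff.comp hh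
  have hcd : DifferentiableAt ℝ c x := by
    have h1 : DifferentiableAt ℝ (fun x => ‖Y x‖) x := hYd.differentiableAt.norm ℝ hYx
    exact h1.inv hY0.ne'
  have hud : HasFDerivAt u (c x • (P.comp (fderiv ℝ h x)) + (fderiv ℝ c x).smulRight (Y x)) x :=
    hcd.hasFDerivAt.smul hYd
  set u' := c x • (P.comp (fderiv ℝ h x)) + (fderiv ℝ c x).smulRight (Y x) with hu'
  have hcx : 0 < c x := inv_pos.2 hY0
  have hu1 : ‖u x‖ = 1 := by
    rw [hu]
    simp only
    rw [norm_smul, Real.norm_eq_abs, abs_of_pos hcx, hc]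
    exact inv_mul_cancel₀ hY0.ne'
  have hunear : ∀ᶠ y in 𝓝 x, ‖u y‖ = 1 := by
    filter_upwards [hYc.continuous.continuousAt.eventually_ne hYx] with y hy
    show ‖c y • Y y‖ = 1
    rw [norm_smul, hc]
    simp only
    rw [norm_inv, norm_norm, inv_mul_cancel₀ (norm_ne_zero_iff.2 hy)]
  have huV : ∀ v, u' v ∈ V := by
    intro v
    rw [hu']
    simp only [add_apply, smul_apply,
      ContinuousLinearMap.comp_apply, ContinuousLinearMap.smulRight_apply]
    exact V.add_mem (V.smul_mem _ (V.starProjection_apply_mem _))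
      (V.smul_mem _ (V.starProjection_apply_mem _))
  have huu : ∀ v, inner ℝ (u x) (u' v) = 0 := by
    intro v
    have h1 : HasFDerivAt (fun y => ‖u y‖ ^ 2) (2 • (innerSL ℝ (u x)).comp u') x := hud.norm_sq
    have h2 : HasFDerivAt (fun y => ‖u y‖ ^ 2) (0 : E →L[ℝ] ℝ) x := by
      have h3 : (fun y => ‖u y‖ ^ 2) =ᶠ[𝓝 x] fun _ => (1 : ℝ) := by
        filter_upwards [hunear] with y hy
        rw [hy, one_pow]
      exact (hasFDerivAt_const (1 : ℝ) x).congr_of_eventuallyEq h3
    have h3 := congrArg (fun L : E →L[ℝ] ℝ => L v) (h1.unique h2)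
    simp only [smul_apply, ContinuousLinearMap.comp_apply,
      innerSL_apply_apply, zero_apply] at h3
    rw [nsmul_eq_mul] at h3
    have h4 : ((2 : ℕ) : ℝ) ≠ 0 := by norm_num
    exact (mul_eq_zero.1 h3).resolve_left h4
  have huxV : u x ∈ V := V.smul_mem _ (V.starProjection_apply_mem _)
  -- the norm of the projection
  have hPx := norm_starProjection_le (by norm_num) hx
  rw [← hP] at hPx
  have hPx0 : P x ≠ 0 := by
    rw [← norm_pos_iff]
    linarith [hPx.1]
  have had : DifferentiableAt ℝ (fun x => ‖P x‖) x := P.differentiableAt.norm ℝ hPx0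
  set a := fderiv ℝ (fun x => ‖P x‖) x with ha
  have ha1 : ‖a‖ ≤ 1 := by
    have h1 : LipschitzWith 1 (fun x => ‖P x‖) := by
      have := LipschitzWith.comp lipschitzWith_one_norm V.lipschitzWith_starProjection
      rwa [one_mul] at this
    have := norm_fderiv_le_of_lipschitz ℝ h1 (x₀ := x)
    simpa using this
  have hav : ∀ v : E, ‖v‖ = 1 → |a v| ≤ 1 := by
    intro v hv
    have := a.le_opNorm v
    rw [hv, mul_one] at this
    exact this.trans ha1
  set A : E →L[ℝ] E := (‖P x‖ • u' + a.smulRight (u x)) + (ContinuousLinearMap.id ℝ E - P) with hA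
  have hAd : HasFDerivAt (fun x => ‖P x‖ • (‖P (h x)‖⁻¹ • P (h x)) + (x - P x)) A x :=
    (had.hasFDerivAt.smul hud).add ((hasFDerivAt_id x).sub P.hasFDerivAt)
  have hAv : ∀ v, A v = ‖P x‖ • u' v + a v • u x + (v - P v) := by
    intro v
    rw [hA]
    simp only [add_apply, smul_apply,
      ContinuousLinearMap.smulRight_apply, sub_apply,
      ContinuousLinearMap.id_apply]
  refine ⟨A, hAd, ?_⟩
  set U : Submodule ℝ E := (Submodule.span ℝ {u x})ᗮ ⊓ V with hU
  have hfin : finrank ℝ U = finrank ℝ V - 1 := by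
    have h1 : Submodule.span ℝ {u x} ≤ V := (Submodule.span_singleton_le_iff_mem _ _).2 huxV
    have h2 := Submodule.finrank_add_inf_finrank_orthogonal h1
    have h3 : finrank ℝ (Submodule.span ℝ {u x}) = 1 := by
      apply finrank_span_singleton
      rw [← norm_pos_iff, hu1]
      exact one_pos
    rw [h3] at h2
    rw [hU]
    omega
  have hmemU : ∀ w, w ∈ U ↔ inner ℝ (u x) w = 0 ∧ w ∈ V := by
    intro w
    rw [hU, Submodule.mem_inf, Submodule.mem_orthogonal_singleton_iff_inner_right]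
  have key := abs_det_le_rows U A (T := 3 * ‖fderiv ℝ h x‖) (B := 2) ?_ ?_
  · rw [hfin] at key
    refine key.trans ?_
    unfold cst
    rw [mul_pow, mul_assoc ((finrank ℝ E).factorial : ℝ)]
    apply mul_le_mul_of_nonneg_left _ (Nat.cast_nonneg _)
    have h1 : (2 : ℝ) ^ finrank ℝ Uᗮ ≤ 2 ^ finrank ℝ E :=
      pow_le_pow_right₀ (by norm_num) (Submodule.finrank_le _)
    calc 3 ^ (finrank ℝ V - 1) * ‖fderiv ℝ h x‖ ^ (finrank ℝ V - 1) * 2 ^ finrank ℝ Uᗮ
        ≤ 3 ^ (finrank ℝ V - 1) * ‖fderiv ℝ h x‖ ^ (finrank ℝ V - 1) * 2 ^ finrank ℝ E := by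
          gcongr
      _ = _ := by ring
  · intro w hw hw1 v hv1
    obtain ⟨hwu, hwV⟩ := (hmemU w).1 hw
    have hwu' : inner ℝ w (u x) = 0 := by rw [real_inner_comm]; exact hwu
    have h1 : inner ℝ w (v - P v) = 0 := by
      rw [real_inner_comm]
      exact V.starProjection_inner_eq_zero v w hwV
    have hwY : inner ℝ w (Y x) = 0 := by
      have h2 : Y x = ‖Y x‖ • u x := by
        rw [hu]
        simp only
        rw [smul_smul, hc]
        simp only
        rw [mul_inv_cancel₀ hY0.ne', one_smul]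
      rw [h2, inner_smul_right, hwu', mul_zero]
    have h2 : inner ℝ w (u' v) = c x * inner ℝ w (P (fderiv ℝ h x v)) := by
      rw [hu']
      simp only [add_apply, smul_apply,
        ContinuousLinearMap.comp_apply, ContinuousLinearMap.smulRight_apply]
      rw [inner_add_right, inner_smul_right, inner_smul_right, hwY, mul_zero, add_zero]
    rw [hAv, inner_add_right, inner_add_right, inner_smul_right, inner_smul_right, hwu', h1, h2,
      mul_zero, add_zero, add_zero, abs_mul, abs_mul, abs_of_pos hcx, abs_of_nonneg (norm_nonneg _)]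
    have h3 : |inner ℝ w (P (fderiv ℝ h x v))| ≤ ‖fderiv ℝ h x‖ := by
      refine (abs_real_inner_le_norm _ _).trans ?_
      rw [hw1, one_mul]
      refine (V.norm_starProjection_apply_le _).trans ?_
      have := (fderiv ℝ h x).le_opNorm v
      rwa [hv1, mul_one] at this
    have h4 : c x ≤ 2 := by
      rw [hc]
      simp only
      rw [inv_le_comm₀ hY0 (by norm_num)]
      have : 1 / 2 < ‖Y x‖ := hhx
      linarith
    have h5 : ‖P x‖ ≤ 3 / 2 := by linarith [hPx.2]
    calc ‖P x‖ * (c x * |inner ℝ w (P (fderiv ℝ h x v))|) ≤ 3 / 2 * (2 * ‖fderiv ℝ h x‖) := by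
          gcongr
      _ = 3 * ‖fderiv ℝ h x‖ := by ring
  · intro w hw hw1 v hv1
    have h1 : inner ℝ w (u' v) = 0 := by
      rw [real_inner_comm]
      exact hw (u' v) ((hmemU _).2 ⟨huu v, huV v⟩)
    rw [hAv, inner_add_right, inner_add_right, inner_smul_right, inner_smul_right, h1, mul_zero,
      zero_add]
    refine (abs_add_le _ _).trans ?_
    have h2 : |a v * inner ℝ w (u x)| ≤ 1 := by
      rw [abs_mul]
      have h3 : |inner ℝ w (u x)| ≤ 1 := by
        refine (abs_real_inner_le_norm _ _).trans ?_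
        rw [hw1, hu1, mul_one]
      have h4 := hav v hv1
      nlinarith [abs_nonneg (a v), abs_nonneg (inner ℝ w (u x) : ℝ)]
    have h3 : |inner ℝ w (v - P v)| ≤ 1 := by
      refine (abs_real_inner_le_norm _ _).trans ?_
      rw [hw1, one_mul]
      have h4 := Vᗮ.norm_starProjection_apply_le v
      rw [V.starProjection_orthogonal_val, hv1] at h4
      exact h4
    linarith

theorem cst_nonneg : 0 ≤ cst V := by
  unfold cst
  positivity

theorem volume_le {h : E → E} (hh : ContDiff ℝ 1 h)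
    (hP : ∀ x ∈ cTub V (1 / 8), 1 / 2 < ‖V.starProjection (h x)‖)
    (honto : ∀ (r : ℝ) (z : E), z ∈ Vᗮ → (r - 1) ^ 2 + ‖z‖ ^ 2 ≤ (1 / 8) ^ 2 → ∀ q ∈ V, ‖q‖ = 1 →
      ∃ θ ∈ V, ‖θ‖ = 1 ∧
        ‖V.starProjection (h (r • θ + z))‖⁻¹ • V.starProjection (h (r • θ + z)) = q) :
    volume (cTub V (1 / 8)) ≤ ENNReal.ofReal (cst V) *
      ∫⁻ x in cTub V (1 / 8), ‖fderiv ℝ h x‖ₑ ^ (finrank ℝ V - 1) := by
  set K := cTub V (1 / 8) with hK
  have hKm : MeasurableSet K := (isClosed_cTub _).measurableSet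
  have hex : ∀ x, ∃ A : E →L[ℝ] E, x ∈ K → HasFDerivAt (fun x => ‖V.starProjection x‖ •
      (‖V.starProjection (h x)‖⁻¹ • V.starProjection (h x)) + (x - V.starProjection x)) A x ∧
      |A.det| ≤ cst V * ‖fderiv ℝ h x‖ ^ (finrank ℝ V - 1) := by
    intro x
    by_cases hx : x ∈ K
    · obtain ⟨A, hA⟩ := det_bound hh hx (hP x hx)
      exact ⟨A, fun _ => hA⟩
    · exact ⟨0, fun h => absurd h hx⟩
  choose A hA using hex
  set Ψ : E → E := fun x => ‖V.starProjection x‖ •
      (‖V.starProjection (h x)‖⁻¹ • V.starProjection (h x)) + (x - V.starProjection x) with hΨ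
  have hsub : K ⊆ Ψ '' K := by
    intro y hy
    have hy' : (‖V.starProjection y‖ - 1) ^ 2 + ‖y - V.starProjection y‖ ^ 2 ≤ (1 / 8) ^ 2 := hy
    have hr := (norm_starProjection_le (by norm_num) hy).1
    set r := ‖V.starProjection y‖ with hrdef
    have hr0 : 0 < r := by linarith
    set z := y - V.starProjection y with hzdef
    have hz : z ∈ Vᗮ := V.sub_starProjection_mem_orthogonal y
    obtain ⟨θ, hθ, hθ1, hθq⟩ := honto r z hz hy' (r⁻¹ • V.starProjection y)
      (V.smul_mem _ (V.starProjection_apply_mem _))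
      (by rw [norm_smul, norm_inv, Real.norm_eq_abs, abs_of_pos hr0, ← hrdef, inv_mul_cancel₀ hr0.ne'])
    refine ⟨r • θ + z, point_mem_cTub hr0.le hθ hθ1 hz hy', ?_⟩
    rw [hΨ]
    simp only
    rw [hθq, starProjection_point hθ hz, norm_smul, hθ1, Real.norm_eq_abs, abs_of_pos hr0, mul_one,
      smul_inv_smul₀ hr0.ne', add_sub_cancel_left, hzdef]
    abel
  calc volume K ≤ volume (Ψ '' K) := measure_mono hsub
    _ ≤ ∫⁻ x in K, ENNReal.ofReal |(A x).det| :=
        addHaar_image_le_lintegral_abs_det_fderiv volume hKm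
          fun x hx => ((hA x hx).1).hasFDerivWithinAt
    _ ≤ ∫⁻ x in K, ENNReal.ofReal (cst V) * ‖fderiv ℝ h x‖ₑ ^ (finrank ℝ V - 1) := by
        refine setLIntegral_mono' hKm fun x hx => ?_
        refine (ENNReal.ofReal_le_ofReal (hA x hx).2).trans ?_
        rw [ENNReal.ofReal_mul cst_nonneg, ENNReal.ofReal_pow (norm_nonneg _), ofReal_norm]
    _ = _ := lintegral_const_mul' _ _ ENNReal.ofReal_ne_top

end Pool.Agent.K6.H31.WT
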