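import Pool.Agent.K6.H31.WT.Final

/-!
# The tube in coordinates; it is connected
-/

set_option autoImplicit false

open Set Filter Topology MeasureTheory Metric Module
open scoped ContDiff ENNReal NNReal RealInnerProductSpace

namespace Pool.Agent.K6.H31.WT

variable {n : ℕ}

/-- The tube of radius `1/2` about the unit sphere of `ℝ^{d+1} × {0} ⊆ ℝⁿ`. The coordinates have the
indices `0, …, n - 1`. -/
def tube (n d : ℕ) : Set (EuclideanSpace ℝ (Fin n)) :=
  {x | (√(∑ i : Fin n with i.val ≤ d, x i ^ 2) - 1) ^ 2 + ∑ i : Fin n with d < i.val, x i ^ 2 < 1 / 4}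

theorem tube_eq (n d : ℕ) : tube n d = TT n d := by
  ext x
  have h1 : ‖pj d x‖ = √(∑ i : Fin n with i.val ≤ d, x i ^ 2) := by
    rw [EuclideanSpace.norm_eq, Finset.sum_filter]
    congr 1
    refine Finset.sum_congr rfl fun i _ => ?_
    rw [pj_apply, Real.norm_eq_abs, sq_abs]
    split_ifs
    · rfl
    · norm_num
  have h2 : ‖x - pj d x‖ ^ 2 = ∑ i : Fin n with d < i.val, x i ^ 2 := by
    rw [EuclideanSpace.real_norm_sq_eq, Finset.sum_filter]
    refine Finset.sum_congr rfl fun i _ => ?_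
    rw [PiLp.sub_apply, pj_apply]
    by_cases hi : i.val ≤ d
    · rw [if_pos hi, if_neg (by omega), sub_self]
      norm_num
    · rw [if_neg hi, if_pos (by omega), sub_zero]
  show (√(∑ i : Fin n with i.val ≤ d, x i ^ 2) - 1) ^ 2 + ∑ i : Fin n with d < i.val, x i ^ 2 < 1 / 4 ↔
    (‖(VV n d).starProjection x‖ - 1) ^ 2 + ‖x - (VV n d).starProjection x‖ ^ 2 < (1 / 2) ^ 2
  rw [starProjection_VV, h1, h2]
  norm_num

theorem tube_connected {d : ℕ} (hd : 1 ≤ d) (hdn : d < n) : IsConnected (tube n d) := by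
  have hn : 0 < n := by omega
  rw [tube_eq]
  set V := VV n d with hV
  have hfr : finrank ℝ V = d + 1 := finrank_VV hdn
  have hrk : 1 < Module.rank ℝ V := by
    rw [← Module.finrank_eq_rank, hfr]
    exact_mod_cast (by omega : 1 < d + 1)
  have hS : IsConnected ((fun v : V => (v : EuclideanSpace ℝ (Fin n))) '' sphere (0 : V) 1) :=
    (isConnected_sphere hrk (0 : V) zero_le_one).image _ continuous_subtype_val.continuousOn
  set S := (fun v : V => (v : EuclideanSpace ℝ (Fin n))) '' sphere (0 : V) 1 with hSd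
  have hST : S ⊆ TT n d := by
    rintro _ ⟨v, hv, rfl⟩
    refine unit_mem_Tub (by norm_num) v.2 ?_
    rw [mem_sphere_zero_iff_norm] at hv
    exact_mod_cast hv
  have heS : e0 hn ∈ S := by
    refine ⟨⟨e0 hn, e0_mem hn d⟩, ?_, rfl⟩
    rw [mem_sphere_zero_iff_norm]
    exact_mod_cast norm_e0 hn
  refine ⟨⟨e0 hn, hST heS⟩, isPreconnected_of_forall (e0 hn) fun y hy => ?_⟩
  -- the radial path from `y` to the sphere
  set γ : ℝ → EuclideanSpace ℝ (Fin n) := fun t => Fm V (fun _ => t) id y with hγ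
  have hγc : Continuous γ := by
    show Continuous fun t : ℝ => (1 + t * (‖V.starProjection y‖ - 1)) • id (om V y) +
      t • (y - V.starProjection y)
    fun_prop
  have hP := P_ne hy
  have hγT : ∀ t ∈ Icc (0 : ℝ) 1, γ t ∈ TT n d := by
    intro t ht
    refine Fm_mem (om_mem y) (norm_om hP) ht.1 ?_
    have h1 := (ss_lt_iff (V := V) (x := y) (by norm_num)).1 hy
    have h2 := ss_nonneg (V := V) y
    nlinarith [ht.1, ht.2]
  have hγ0 : γ 0 = om V y := by
    show (1 + 0 * (‖V.starProjection y‖ - 1)) • id (om V y) + (0 : ℝ) • (y - V.starProjection y) = _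
    rw [zero_mul, add_zero, one_smul, zero_smul, add_zero]
    rfl
  have hγ1 : γ 1 = y := by
    show (1 + 1 * (‖V.starProjection y‖ - 1)) • id (om V y) + (1 : ℝ) • (y - V.starProjection y) = _
    rw [one_mul, add_sub_cancel, one_smul, id, norm_smul_om hP]
    abel
  have homS : om V y ∈ S := by
    refine ⟨⟨om V y, om_mem y⟩, ?_, rfl⟩
    rw [mem_sphere_zero_iff_norm]
    exact_mod_cast norm_om hP
  refine ⟨S ∪ γ '' Icc 0 1, union_subset hST ?_, Or.inl heS, Or.inr ⟨1, by simp, hγ1⟩, ?_⟩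
  · rintro _ ⟨t, ht, rfl⟩
    exact hγT t ht
  · refine IsPreconnected.union (om V y) homS ⟨0, by simp, hγ0⟩ hS.isPreconnected ?_
    exact isPreconnected_Icc.image _ hγc.continuousOn

end Pool.Agent.K6.H31.WT
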