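import Pool.Agent.K6.H31.WT.Maps

/-!
# Coordinates: the subspace `ℝ^{d+1}` of `ℝⁿ` and the energies of the conformal maps
-/

set_option autoImplicit false

open Set Filter Topology MeasureTheory Metric Module
open scoped ContDiff ENNReal NNReal RealInnerProductSpace

namespace Pool.Agent.K6.H31.WT

open Pool.Agent.K6.H31.WS

variable {n : ℕ}

/-- the vectors whose coordinates with index `> d` vanish -/
def VV (n d : ℕ) : Submodule ℝ (EuclideanSpace ℝ (Fin n)) where
  carrier := {x | ∀ i : Fin n, d < i.val → x i = 0}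
  add_mem' := by
    intro a b ha hb i hi
    rw [PiLp.add_apply, ha i hi, hb i hi, add_zero]
  zero_mem' := fun i _ => rfl
  smul_mem' := by
    intro c x hx i hi
    rw [PiLp.smul_apply, hx i hi, smul_zero]

theorem mem_VV {d : ℕ} {x : EuclideanSpace ℝ (Fin n)} : x ∈ VV n d ↔ ∀ i : Fin n, d < i.val → x i = 0 :=
  Iff.rfl

/-- the projection in coordinates -/
noncomputable def pj (d : ℕ) (x : EuclideanSpace ℝ (Fin n)) : EuclideanSpace ℝ (Fin n) :=
  WithLp.toLp 2 fun i => if i.val ≤ d then x i else 0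

theorem pj_apply (d : ℕ) (x : EuclideanSpace ℝ (Fin n)) (i : Fin n) :
    pj d x i = if i.val ≤ d then x i else 0 := rfl

theorem starProjection_VV (d : ℕ) (x : EuclideanSpace ℝ (Fin n)) :
    (VV n d).starProjection x = pj d x := by
  apply Submodule.eq_starProjection_of_mem_of_inner_eq_zero
  · intro i hi
    rw [pj_apply, if_neg (by omega)]
  · intro w hw
    rw [PiLp.inner_apply]
    apply Finset.sum_eq_zero
    intro i _
    rw [PiLp.sub_apply, pj_apply]
    by_cases hi : i.val ≤ d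
    · rw [if_pos hi, sub_self]
      simp
    · rw [hw i (by omega)]
      simp

theorem finrank_VV {d : ℕ} (hd : d < n) : finrank ℝ (VV n d) = d + 1 := by
  let f : (Fin (d + 1) → ℝ) ≃ₗ[ℝ] VV n d :=
    { toFun := fun y => ⟨WithLp.toLp 2 fun i : Fin n => if h : i.val < d + 1 then y ⟨i.val, h⟩ else 0, by
        intro i hi
        show (if h : i.val < d + 1 then y ⟨i.val, h⟩ else 0) = 0
        rw [dif_neg (by omega)]⟩
      map_add' := by
        intro a b
        apply Subtype.ext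
        ext i
        show (if h : i.val < d + 1 then (a + b) ⟨i.val, h⟩ else 0) =
          (if h : i.val < d + 1 then a ⟨i.val, h⟩ else 0) + (if h : i.val < d + 1 then b ⟨i.val, h⟩ else 0)
        split_ifs
        · rfl
        · rw [add_zero]
      map_smul' := by
        intro c a
        apply Subtype.ext
        ext i
        show (if h : i.val < d + 1 then (c • a) ⟨i.val, h⟩ else 0) =
          c • (if h : i.val < d + 1 then a ⟨i.val, h⟩ else 0)
        split_ifs
        · rfl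
        · rw [smul_zero]
      invFun := fun x i => x.1 ⟨i.val, by omega⟩
      left_inv := by
        intro y
        funext i
        show (if h : i.val < d + 1 then y ⟨i.val, h⟩ else 0) = y i
        rw [dif_pos i.2]
      right_inv := by
        intro x
        apply Subtype.ext
        ext i
        show (if h : i.val < d + 1 then (fun j : Fin (d + 1) => x.1 ⟨j.val, by omega⟩) ⟨i.val, h⟩ else 0) = x.1 i
        split_ifs with h
        · rfl
        · exact (x.2 i (by omega)).symm }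
  rw [← f.finrank_eq, finrank_fin_fun]

/-- the point `e = (1, 0, …, 0)` -/
noncomputable def e0 (hn : 0 < n) : EuclideanSpace ℝ (Fin n) := EuclideanSpace.single ⟨0, hn⟩ 1

theorem e0_mem (hn : 0 < n) (d : ℕ) : e0 hn ∈ VV n d := by
  intro i hi
  unfold e0
  rw [PiLp.single_apply, if_neg]
  rintro rfl
  exact absurd hi (by simp)

theorem norm_e0 (hn : 0 < n) : ‖e0 hn‖ = 1 := by
  unfold e0
  simp

theorem inner_e0 (hn : 0 < n) (w : EuclideanSpace ℝ (Fin n)) : ⟪e0 hn, w⟫ = w ⟨0, hn⟩ := by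
  unfold e0
  rw [EuclideanSpace.inner_single_left]
  simp

/-- the indices `1, …, d` -/
def idx (n d : ℕ) : Finset (Fin n) := Finset.univ.filter fun i => 1 ≤ i.val ∧ i.val ≤ d

theorem mem_idx {d : ℕ} {i : Fin n} : i ∈ idx n d ↔ 1 ≤ i.val ∧ i.val ≤ d := by
  unfold idx
  simp

theorem card_idx {d : ℕ} (hd : d < n) : (idx n d).card = d := by
  have h : (idx n d).card = (Finset.Icc 1 d).card := by
    apply Finset.card_bij (fun i _ => i.val)
    · intro i hi
      rw [mem_idx] at hi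
      exact Finset.mem_Icc.2 hi
    · intro a _ b _ hab
      exact Fin.ext hab
    · intro j hj
      rw [Finset.mem_Icc] at hj
      exact ⟨⟨j, by omega⟩, mem_idx.2 hj, rfl⟩
  rw [h, Nat.card_Icc]
  omega

theorem norm_sq_pj {d : ℕ} (hd : d < n) (x : EuclideanSpace ℝ (Fin n)) :
    ‖pj d x‖ ^ 2 = x ⟨0, by omega⟩ ^ 2 + ∑ i ∈ idx n d, x i ^ 2 := by
  rw [EuclideanSpace.real_norm_sq_eq]
  have h1 : ∀ i : Fin n, pj d x i ^ 2 = (if i = (⟨0, by omega⟩ : Fin n) then x i ^ 2 else 0) +
      if i ∈ idx n d then x i ^ 2 else 0 := by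
    intro i
    rw [pj_apply]
    by_cases h0 : i.val = 0
    · have h2 : i = (⟨0, by omega⟩ : Fin n) := Fin.ext h0
      rw [if_pos (by omega), if_pos h2, if_neg (by rw [mem_idx]; omega), add_zero]
    · have h2 : i ≠ (⟨0, by omega⟩ : Fin n) := fun h => h0 (congrArg Fin.val h)
      rw [if_neg h2, zero_add]
      by_cases h3 : i.val ≤ d
      · rw [if_pos h3, if_pos (mem_idx.2 ⟨by omega, h3⟩)]
      · rw [if_neg h3, if_neg (by rw [mem_idx]; omega)]
        norm_num
  rw [Finset.sum_congr rfl fun i _ => h1 i, Finset.sum_add_distrib]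
  congr 1
  · rw [Finset.sum_ite_eq' Finset.univ]
    simp
  · rw [Finset.sum_ite_mem, Finset.univ_inter]

/-- the pointwise bound for the conformal factor -/
theorem lmb_le_coord {d : ℕ} (hd : d < n) {τ : ℝ} (h0 : 1 / 2 ≤ τ) (h1 : τ < 1)
    {x : EuclideanSpace ℝ (Fin n)} (hx : x ∈ Tub (VV n d) (1 / 2)) {i : Fin n} (hi : i ∈ idx n d) :
    lmb (VV n d) (e0 (by omega)) τ x ≤ √(2 * (1 - τ)) / ((1 - τ) + x i ^ 2 / 9) := by
  have hn : 0 < n := by omega
  have hτ : |τ| < 1 := by rw [abs_of_nonneg (by linarith)]; exact h1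
  have hw1 := norm_om (P_ne hx)
  set w := om (VV n d) x with hw
  have hP := norm_starProjection_lt (by norm_num) hx
  set P := ‖(VV n d).starProjection x‖ with hPd
  have hP0 : 0 < P := by linarith [hP.1]
  have hwi : ∀ j : Fin n, j.val ≤ d → w j = P⁻¹ * x j := by
    intro j hj
    rw [hw]
    unfold om
    rw [PiLp.smul_apply, starProjection_VV, pj_apply, if_pos hj, smul_eq_mul, ← starProjection_VV]
  have hwV : w ∈ VV n d := om_mem x
  have hpw : pj d w = w := by
    rw [← starProjection_VV]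
    exact Submodule.starProjection_eq_self_iff.2 hwV
  have h2 := norm_sq_pj hd w
  rw [hpw, hw1] at h2
  have h3 : w i ^ 2 ≤ ∑ j ∈ idx n d, w j ^ 2 :=
    Finset.single_le_sum (f := fun j => w j ^ 2) (fun j _ => sq_nonneg _) hi
  set c := w ⟨0, hn⟩ with hc
  have hc2 : c ^ 2 + w i ^ 2 ≤ 1 := by
    have : c ^ 2 = w ⟨0, by omega⟩ ^ 2 := rfl
    linarith
  have hcabs : |c| ≤ 1 := by
    rw [← sq_le_one_iff_abs_le_one]
    nlinarith [sq_nonneg (w i)]
  have hc1 := (abs_le.1 hcabs)
  have h4 : w i ^ 2 / 2 ≤ 1 + c := by nlinarith [hc1.1, hc1.2]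
  have h5 : 4 / 9 * x i ^ 2 ≤ w i ^ 2 := by
    rw [hwi i (mem_idx.1 hi).2, mul_pow]
    apply mul_le_mul_of_nonneg_right _ (sq_nonneg _)
    have h6 : (2 / 3 : ℝ) ≤ P⁻¹ := by
      rw [le_inv_comm₀ (by norm_num) hP0]
      linarith [hP.2]
    nlinarith
  have hden : (1 - τ) + x i ^ 2 / 9 ≤ 1 + τ * ⟪e0 hn, w⟫ := by
    rw [inner_e0, ← hc]
    have h7 : 0 ≤ 1 + c := by linarith [hc1.1]
    nlinarith [sq_nonneg (x i)]
  have hden0 : 0 < (1 - τ) + x i ^ 2 / 9 := by
    have := sq_nonneg (x i)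
    linarith
  show √(1 - τ ^ 2) / (1 + τ * ⟪e0 hn, w⟫) ≤ _
  apply div_le_div₀ (Real.sqrt_nonneg _) _ hden0 hden
  apply Real.sqrt_le_sqrt
  nlinarith

/-! ### The integral of the product -/

theorem one_dim (δ : ℝ) (hδ : 0 < δ) :
    Integrable (fun t : ℝ => √(2 * δ) / (δ + t ^ 2 / 9)) ∧
      ∫ t : ℝ, √(2 * δ) / (δ + t ^ 2 / 9) = 3 * √2 * Real.pi := by
  have hs : 0 < √δ := Real.sqrt_pos.2 hδ
  have h1 : ∀ t : ℝ, √(2 * δ) / (δ + t ^ 2 / 9) = √(2 * δ) / δ * (1 + (t / (3 * √δ)) ^ 2)⁻¹ := by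
    intro t
    have h2 : δ + t ^ 2 / 9 = δ * (1 + (t / (3 * √δ)) ^ 2) := by
      rw [div_pow, mul_pow, Real.sq_sqrt hδ.le]
      field_simp
      ring
    rw [h2, div_mul_eq_div_div, div_eq_mul_inv]
  have h3 : (3 * √δ) ≠ 0 := by positivity
  constructor
  · simp only [h1]
    exact (integrable_inv_one_add_sq.comp_div h3).const_mul _
  · simp only [h1]
    rw [integral_const_mul, Measure.integral_comp_div (fun u : ℝ => (1 + u ^ 2)⁻¹) (3 * √δ),
      integral_univ_inv_one_add_sq, abs_of_pos (by positivity), smul_eq_mul, Real.sqrt_mul (by norm_num)]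
    have h4 : √δ * √δ = δ := Real.mul_self_sqrt hδ.le
    have h5 : √2 * √δ / δ * (3 * √δ * Real.pi) = 3 * √2 * Real.pi * ((√δ * √δ) / δ) := by ring
    rw [h5, h4, div_self hδ.ne', mul_one]

/-- the factors -/
noncomputable def fac (n d : ℕ) (δ : ℝ) (i : Fin n) (t : ℝ) : ℝ :=
  if i ∈ idx n d then √(2 * δ) / (δ + t ^ 2 / 9) else (Icc (-2 : ℝ) 2).indicator (fun _ => 1) t

theorem fac_nonneg (d : ℕ) {δ : ℝ} (hδ : 0 < δ) (i : Fin n) (t : ℝ) : 0 ≤ fac n d δ i t := by
  unfold fac
  split_ifs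
  · positivity
  · exact indicator_nonneg (fun _ _ => zero_le_one) _

theorem fac_integrable (d : ℕ) {δ : ℝ} (hδ : 0 < δ) (i : Fin n) : Integrable (fac n d δ i) := by
  unfold fac
  split_ifs
  · exact (one_dim δ hδ).1
  · rw [integrable_indicator_iff measurableSet_Icc]
    exact integrableOn_const (by simp)

theorem fac_integral (d : ℕ) {δ : ℝ} (hδ : 0 < δ) (i : Fin n) :
    ∫ t, fac n d δ i t = if i ∈ idx n d then 3 * √2 * Real.pi else 4 := by
  unfold fac
  split_ifs
  · exact (one_dim δ hδ).2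
  · rw [integral_indicator measurableSet_Icc]
    simp
    norm_num

/-- the uniform bound -/
noncomputable def bnd (n d : ℕ) : ℝ := ∏ i : Fin n, if i ∈ idx n d then 3 * √2 * Real.pi else 4

theorem lintegral_prod_fac (d : ℕ) {δ : ℝ} (hδ : 0 < δ) :
    ∫⁻ x : EuclideanSpace ℝ (Fin n), ENNReal.ofReal (∏ i, fac n d δ i (x i)) =
      ENNReal.ofReal (bnd n d) := by
  have h1 : MeasurePreserving (WithLp.ofLp : EuclideanSpace ℝ (Fin n) → (Fin n → ℝ)) volume volume :=
    PiLp.volume_preserving_ofLp (Fin n)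
  have h2 : Integrable (fun y : Fin n → ℝ => ∏ i, fac n d δ i (y i)) :=
    Integrable.fintype_prod fun i => fac_integrable d hδ i
  have h3 : AEMeasurable (fun y : Fin n → ℝ => ENNReal.ofReal (∏ i, fac n d δ i (y i))) volume :=
    h2.aestronglyMeasurable.aemeasurable.ennreal_ofReal
  have h4 : ∫⁻ x : EuclideanSpace ℝ (Fin n), ENNReal.ofReal (∏ i, fac n d δ i (x i)) =
      ∫⁻ y : Fin n → ℝ, ENNReal.ofReal (∏ i, fac n d δ i (y i)) := by
    rw [← h1.map_eq] at h3
    rw [← h1.map_eq, lintegral_map' h3 h1.measurable.aemeasurable]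
  rw [h4, ← ofReal_integral_eq_lintegral_ofReal h2
    (Eventually.of_forall fun y => Finset.prod_nonneg fun i _ => fac_nonneg d hδ i _)]
  congr 1
  rw [integral_fintype_prod_volume_eq_prod]
  exact Finset.prod_congr rfl fun i _ => fac_integral d hδ i

theorem abs_coord_le {d : ℕ} {x : EuclideanSpace ℝ (Fin n)} (hx : x ∈ Tub (VV n d) (1 / 2)) (i : Fin n) :
    |x i| ≤ 2 := by
  have h1 := cTub_bounded (1 / 2) (by norm_num) (Tub_subset_cTub _ hx)
  rw [mem_closedBall_zero_iff] at h1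
  have h2 : ‖x i‖ ≤ ‖x‖ := PiLp.norm_apply_le x i
  rw [Real.norm_eq_abs] at h2
  linarith

/-- the energies of the conformal factors are bounded -/
theorem lintegral_lmb_pow {d : ℕ} (hd : d < n) {τ : ℝ} (h0 : 1 / 2 ≤ τ) (h1 : τ < 1) :
    ∫⁻ x in Tub (VV n d) (1 / 2), ENNReal.ofReal (lmb (VV n d) (e0 (by omega)) τ x) ^ d ≤
      ENNReal.ofReal (bnd n d) := by
  have hτ : |τ| < 1 := by rw [abs_of_nonneg (by linarith)]; exact h1
  have hδ : 0 < 1 - τ := by linarith
  rw [← lintegral_prod_fac d hδ]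
  refine le_trans ?_ (setLIntegral_le_lintegral (Tub (VV n d) (1 / 2)) _)
  apply setLIntegral_mono_ae' (isOpen_Tub _).measurableSet
  refine Eventually.of_forall fun x hx => ?_
  have hl0 := lmb_nonneg hτ (norm_e0 (n := n) (by omega)) hx
  rw [← ENNReal.ofReal_pow hl0]
  apply ENNReal.ofReal_le_ofReal
  set l := lmb (VV n d) (e0 (by omega)) τ x with hl
  have h2 : l ^ d = ∏ i : Fin n, if i ∈ idx n d then l else 1 := by
    rw [Finset.prod_ite_mem, Finset.univ_inter, Finset.prod_const, card_idx hd]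
  rw [h2]
  apply Finset.prod_le_prod
  · intro i _
    split_ifs
    · exact hl0
    · exact zero_le_one
  · intro i _
    unfold fac
    split_ifs with hi
    · exact lmb_le_coord hd h0 h1 hx hi
    · have h3 := abs_le.1 (abs_coord_le hx i)
      rw [indicator_of_mem (mem_Icc.2 h3)]

end Pool.Agent.K6.H31.WT
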