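import Mathlib

/-!
# The integral of the Jacobian of a compactly supported perturbation of the identity
-/

set_option autoImplicit false

open Set Filter Topology MeasureTheory Metric Module
open scoped ContDiff ENNReal NNReal

namespace Pool.Agent.K6.H31.WT

variable {E : Type*} [NormedAddCommGroup E] [InnerProductSpace ℝ E] [FiniteDimensional ℝ E]
  [MeasurableSpace E] [BorelSpace E]

theorem abs_det_le (A : E →L[ℝ] E) : |A.det| ≤ ‖A‖ ^ finrank ℝ E := by
  have h1 := Measure.addHaar_image_continuousLinearMap (volume : Measure E) A (ball 0 1)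
  have h2 : A '' ball 0 1 ⊆ closedBall 0 ‖A‖ := by
    rintro _ ⟨x, hx, rfl⟩
    rw [mem_closedBall_zero_iff]
    rw [mem_ball_zero_iff] at hx
    refine (A.le_opNorm x).trans ?_
    nlinarith [norm_nonneg A]
  have h3 := measure_mono (μ := (volume : Measure E)) h2
  rw [h1, Measure.addHaar_closedBall _ _ (norm_nonneg A)] at h3
  have h4 : (volume : Measure E) (ball 0 1) ≠ 0 := (measure_ball_pos _ _ one_pos).ne'
  have h5 : (volume : Measure E) (ball 0 1) ≠ ⊤ := measure_ball_lt_top.ne
  have h6 := (ENNReal.mul_le_mul_iff_left h4 h5).1 h3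
  exact (ENNReal.ofReal_le_ofReal_iff (by positivity)).1 h6

theorem det_pos_of_norm_lt {A : E →L[ℝ] E} (hA : ‖A‖ < 1) :
    0 < (ContinuousLinearMap.id ℝ E + A).det := by
  have hne : ∀ s ∈ Icc (0 : ℝ) 1, (ContinuousLinearMap.id ℝ E + s • A).det ≠ 0 := by
    intro s hs h0
    have h1 : LinearMap.det ((ContinuousLinearMap.id ℝ E + s • A : E →L[ℝ] E) : E →ₗ[ℝ] E) = 0 := h0
    have h2 := LinearMap.bot_lt_ker_of_det_eq_zero h1
    obtain ⟨x, hx, hx0⟩ := (Submodule.ne_bot_iff _).1 h2.ne'
    have h3 : x + s • A x = 0 := hx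
    have h4 : ‖x‖ = ‖s • A x‖ := by
      have h5 : x = -(s • A x) := eq_neg_of_add_eq_zero_left h3
      exact (congrArg norm h5).trans (norm_neg _)
    have h5 : ‖s • A x‖ ≤ ‖A‖ * ‖x‖ := by
      rw [norm_smul, Real.norm_eq_abs, abs_of_nonneg hs.1]
      calc s * ‖A x‖ ≤ 1 * (‖A‖ * ‖x‖) :=
            mul_le_mul hs.2 (A.le_opNorm x) (norm_nonneg _) zero_le_one
        _ = _ := one_mul _
    have h6 : 0 < ‖x‖ := norm_pos_iff.2 hx0
    nlinarith
  have hc : Continuous fun s : ℝ => (ContinuousLinearMap.id ℝ E + s • A).det :=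
    ContinuousLinearMap.continuous_det.comp (by fun_prop)
  have h0 : (ContinuousLinearMap.id ℝ E + (0 : ℝ) • A).det = 1 := by
    rw [zero_smul, add_zero]
    exact LinearMap.det_id
  by_contra hneg
  push Not at hneg
  have h1 : (ContinuousLinearMap.id ℝ E + (1 : ℝ) • A).det ≤ 0 := by rwa [one_smul]
  have h2 : (0 : ℝ) ∈ Icc ((ContinuousLinearMap.id ℝ E + (1 : ℝ) • A).det)
      ((ContinuousLinearMap.id ℝ E + (0 : ℝ) • A).det) := ⟨h1, by rw [h0]; exact zero_le_one⟩
  obtain ⟨s, hs, hs0⟩ := intermediate_value_Icc' (zero_le_one' ℝ) hc.continuousOn h2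
  exact hne s hs hs0

omit [MeasurableSpace E] [BorelSpace E] in
/-- interpolation: `det (1 + A)` is a fixed combination of `det (1 + t_i A)` -/
theorem exists_interp {δ : ℝ} (hδ : 0 < δ) : ∃ (s : Finset ℕ) (t w : ℕ → ℝ), (∀ i ∈ s, |t i| ≤ δ) ∧
    ∑ i ∈ s, w i = 1 ∧ ∀ A : E →L[ℝ] E, (ContinuousLinearMap.id ℝ E + A).det =
      ∑ i ∈ s, w i * (ContinuousLinearMap.id ℝ E + t i • A).det := by
  classical
  set n := finrank ℝ E with hn
  set s : Finset ℕ := Finset.range (n + 1) with hs
  set t : ℕ → ℝ := fun i => δ * (i / (n + 1)) with ht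
  have hinj : Set.InjOn t s := by
    intro i _ j _ hij
    simp only [ht] at hij
    have h1 := mul_left_cancel₀ hδ.ne' hij
    have h2 : (n : ℝ) + 1 ≠ 0 := by positivity
    rw [div_left_inj' h2] at h1
    exact_mod_cast h1
  set w : ℕ → ℝ := fun i => (Lagrange.basis s t i).eval 1 with hw
  refine ⟨s, t, w, ?_, ?_, ?_⟩
  · intro i hi
    have hi' : (i : ℝ) ≤ n := by
      have := Finset.mem_range.1 hi
      exact_mod_cast Nat.lt_succ_iff.1 this
    rw [ht]
    simp only
    rw [abs_of_nonneg (by positivity)]
    have : (i : ℝ) / (n + 1) ≤ 1 := by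
      rw [div_le_one (by positivity)]
      linarith
    nlinarith
  · have h1 := Lagrange.sum_basis hinj (by simp [hs])
    have h2 := congrArg (Polynomial.eval 1) h1
    rw [Polynomial.eval_finset_sum, Polynomial.eval_one] at h2
    exact h2
  · intro A
    set b := Module.finBasis ℝ E with hb
    set M : Matrix (Fin n) (Fin n) ℝ := LinearMap.toMatrix b b (A : E →ₗ[ℝ] E) with hM
    have hdet : ∀ r : ℝ, (ContinuousLinearMap.id ℝ E + r • A).det = (1 + r • M).det := by
      intro r
      have h1 : (ContinuousLinearMap.id ℝ E + r • A).det =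
          LinearMap.det (LinearMap.id + r • (A : E →ₗ[ℝ] E)) := rfl
      rw [h1, ← LinearMap.det_toMatrix b, map_add, map_smul, LinearMap.toMatrix_id]
    set p : Polynomial ℝ := Matrix.det ((Polynomial.X : Polynomial ℝ) • M.map Polynomial.C +
      (1 : Matrix (Fin n) (Fin n) ℝ).map Polynomial.C) with hp
    have heval : ∀ r : ℝ, p.eval r = (1 + r • M).det := by
      intro r
      rw [hp, ← Polynomial.coe_evalRingHom, RingHom.map_det]
      congr 1
      ext i j
      simp [Matrix.one_apply]
      ring_nf
      split_ifs <;> simp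
    have hdeg : p.degree < s.card := by
      have h1 := Polynomial.natDegree_det_X_add_C_le M (1 : Matrix (Fin n) (Fin n) ℝ)
      rw [Fintype.card_fin] at h1
      rw [hs, Finset.card_range]
      refine lt_of_le_of_lt Polynomial.degree_le_natDegree ?_
      exact_mod_cast Nat.lt_succ_of_le h1
    have h1 := Lagrange.eq_interpolate hinj hdeg
    have h2 : p.eval 1 = ∑ i ∈ s, p.eval (t i) * (Lagrange.basis s t i).eval 1 := by
      conv_lhs => rw [h1]
      rw [Lagrange.interpolate_apply, Polynomial.eval_finset_sum]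
      refine Finset.sum_congr rfl fun i _ => ?_
      rw [Polynomial.eval_mul, Polynomial.eval_C]
    have h3 := hdet 1
    rw [one_smul] at h3
    rw [h3, ← heval, h2]
    refine Finset.sum_congr rfl fun i _ => ?_
    rw [heval, hdet, mul_comm]

/-- The integral of the Jacobian of a compactly supported perturbation of the identity. -/
theorem integral_det {g : E → E} (hg : ContDiff ℝ 1 g) {R : ℝ} (hR : 0 < R)
    (hs : ∀ x, R ≤ ‖x‖ → g x = 0) :
    ∫ x in ball (0 : E) R, (ContinuousLinearMap.id ℝ E + fderiv ℝ g x).det =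
      volume.real (ball (0 : E) R) := by
  have hc : HasCompactSupport g := by
    apply HasCompactSupport.intro (isCompact_closedBall (0 : E) R)
    intro x hx
    apply hs
    rw [mem_closedBall_zero_iff] at hx
    linarith
  obtain ⟨L, hL⟩ := ContDiff.lipschitzWith_of_hasCompactSupport hc hg one_ne_zero
  have hLd : ∀ x, ‖fderiv ℝ g x‖ ≤ L := fun x => norm_fderiv_le_of_lipschitz ℝ hL
  have hdc : Continuous (fderiv ℝ g) := hg.continuous_fderiv one_ne_zero
  -- small parameters
  have hsmall : ∀ t : ℝ, |t| ≤ 1 / (2 * (L + 1)) →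
      ∫ x in ball (0 : E) R, (ContinuousLinearMap.id ℝ E + t • fderiv ℝ g x).det =
        volume.real (ball (0 : E) R) := by
    intro t ht
    have htL : |t| * L ≤ 1 / 2 := by
      have h1 : |t| * L ≤ 1 / (2 * (L + 1)) * (L + 1) :=
        mul_le_mul ht (by linarith) L.2 (by positivity)
      refine h1.trans (le_of_eq ?_)
      field_simp
    set f : E → E := fun x => x + t • g x with hf
    have hfd : ∀ x, HasFDerivAt f (ContinuousLinearMap.id ℝ E + t • fderiv ℝ g x) x := fun x =>
      (hasFDerivAt_id x).add
        (((hg.differentiable one_ne_zero).differentiableAt.hasFDerivAt).const_smul t)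
    have hinj : Function.Injective f := by
      intro x y hxy
      have h1 : x - y = - (t • (g x - g y)) := by
        have h2 : x + t • g x = y + t • g y := hxy
        rw [smul_sub]
        have : x - y = t • g y - t • g x := by
          rw [sub_eq_sub_iff_add_eq_add]
          rw [h2]
          abel
        rw [this]
        abel
      have h2 : ‖x - y‖ ≤ 1 / 2 * ‖x - y‖ := by
        conv_lhs => rw [h1]
        rw [norm_neg, norm_smul, Real.norm_eq_abs]
        have h3 : ‖g x - g y‖ ≤ L * ‖x - y‖ := by
          rw [← dist_eq_norm, ← dist_eq_norm]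
          exact hL.dist_le_mul x y
        calc |t| * ‖g x - g y‖ ≤ |t| * (L * ‖x - y‖) := mul_le_mul_of_nonneg_left h3 (abs_nonneg _)
          _ = |t| * L * ‖x - y‖ := by ring
          _ ≤ _ := mul_le_mul_of_nonneg_right htL (norm_nonneg _)
      have h3 : ‖x - y‖ ≤ 0 := by linarith
      exact sub_eq_zero.1 (norm_le_zero_iff.1 h3)
    have hsurj : Function.Surjective f := by
      intro y
      have hcw : ContractingWith (1 / 2) (fun x => y - t • g x) := by
        refine ⟨by rw [← NNReal.coe_lt_coe]; norm_num, ?_⟩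
        apply LipschitzWith.of_dist_le_mul
        intro x z
        rw [dist_eq_norm, dist_eq_norm]
        have h1 : y - t • g x - (y - t • g z) = t • (g z - g x) := by
          rw [smul_sub]; abel
        rw [h1, norm_smul, Real.norm_eq_abs]
        have h3 : ‖g z - g x‖ ≤ L * ‖x - z‖ := by
          rw [← dist_eq_norm, norm_sub_rev, ← dist_eq_norm]
          rw [dist_comm z x] at *
          have := hL.dist_le_mul z x
          rwa [dist_comm z x] at this
        calc |t| * ‖g z - g x‖ ≤ |t| * (L * ‖x - z‖) := mul_le_mul_of_nonneg_left h3 (abs_nonneg _)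
          _ = |t| * L * ‖x - z‖ := by ring
          _ ≤ 1 / 2 * ‖x - z‖ := mul_le_mul_of_nonneg_right htL (norm_nonneg _)
          _ = _ := by norm_num
      refine ⟨ContractingWith.fixedPoint _ hcw, ?_⟩
      have h1 := hcw.fixedPoint_isFixedPt
      have h2 : y - t • g (ContractingWith.fixedPoint _ hcw) = ContractingWith.fixedPoint _ hcw := h1
      show ContractingWith.fixedPoint _ hcw + t • g (ContractingWith.fixedPoint _ hcw) = y
      nth_rewrite 1 [← h2]
      abel
    have hfix : ∀ x, R ≤ ‖x‖ → f x = x := by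
      intro x hx
      show x + t • g x = x
      rw [hs x hx, smul_zero, add_zero]
    have himg : f '' ball 0 R = ball 0 R := by
      ext y
      constructor
      · rintro ⟨x, hx, rfl⟩
        rw [mem_ball_zero_iff] at hx ⊢
        by_contra h1
        push Not at h1
        have h2 := hinj (hfix _ h1)
        rw [h2] at h1
        linarith
      · intro hy
        obtain ⟨x, hx⟩ := hsurj y
        refine ⟨x, ?_, hx⟩
        rw [mem_ball_zero_iff] at hy ⊢
        by_contra h1
        push Not at h1
        rw [hfix x h1] at hx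
        rw [hx] at h1
        linarith
    have hpos : ∀ x, 0 < (ContinuousLinearMap.id ℝ E + t • fderiv ℝ g x).det := by
      intro x
      apply det_pos_of_norm_lt
      rw [norm_smul, Real.norm_eq_abs]
      have := mul_le_mul_of_nonneg_left (hLd x) (abs_nonneg t)
      linarith
    have h1 := integral_image_eq_integral_abs_det_fderiv_smul (volume : Measure E)
      (measurableSet_ball (x := (0 : E)) (ε := R)) (fun x _ => (hfd x).hasFDerivWithinAt)
      hinj.injOn (fun _ => (1 : ℝ))
    rw [himg] at h1
    rw [setIntegral_const, smul_eq_mul, mul_one] at h1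
    rw [h1]
    refine integral_congr_ae (Eventually.of_forall fun x => ?_)
    show (ContinuousLinearMap.id ℝ E + t • fderiv ℝ g x).det =
      |(ContinuousLinearMap.id ℝ E + t • fderiv ℝ g x).det| • (1 : ℝ)
    rw [abs_of_pos (hpos x), smul_eq_mul, mul_one]
  obtain ⟨s, t, w, ht, hw, hdet⟩ := exists_interp (E := E) (δ := 1 / (2 * (L + 1))) (by positivity)
  have hint : ∀ r : ℝ, IntegrableOn
      (fun x => (ContinuousLinearMap.id ℝ E + r • fderiv ℝ g x).det) (ball (0 : E) R) := by
    intro r
    have h1 : Continuous fun x => (ContinuousLinearMap.id ℝ E + r • fderiv ℝ g x).det :=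
      ContinuousLinearMap.continuous_det.comp (continuous_const.add (hdc.const_smul r))
    exact (h1.continuousOn.integrableOn_compact (isCompact_closedBall (0 : E) R)).mono_set
      ball_subset_closedBall
  calc ∫ x in ball (0 : E) R, (ContinuousLinearMap.id ℝ E + fderiv ℝ g x).det
      = ∫ x in ball (0 : E) R, ∑ i ∈ s, w i *
          (ContinuousLinearMap.id ℝ E + t i • fderiv ℝ g x).det := by
        refine integral_congr_ae (Eventually.of_forall fun x => ?_)
        exact hdet _
    _ = ∑ i ∈ s, ∫ x in ball (0 : E) R, w i *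
          (ContinuousLinearMap.id ℝ E + t i • fderiv ℝ g x).det := by
        rw [integral_finset_sum]
        exact fun i _ => (hint (t i)).const_mul _
    _ = ∑ i ∈ s, w i * volume.real (ball (0 : E) R) := by
        refine Finset.sum_congr rfl fun i hi => ?_
        rw [integral_const_mul, hsmall (t i) (ht i hi)]
    _ = volume.real (ball (0 : E) R) := by
        rw [← Finset.sum_mul, hw, one_mul]

end Pool.Agent.K6.H31.WT
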