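import Pool.Agent.K6.H31.WT.Onto

/-!
# A bound for the determinant by the norms of the rows
-/

set_option autoImplicit false

open Set Filter Topology MeasureTheory Metric Module
open scoped ContDiff ENNReal NNReal

namespace Pool.Agent.K6.H31.WT

variable {E : Type*} [NormedAddCommGroup E] [InnerProductSpace ℝ E] [FiniteDimensional ℝ E]

theorem abs_det_le_prod {ι : Type*} [Fintype ι] [DecidableEq ι] (M : Matrix ι ι ℝ) (r : ι → ℝ)
    (hM : ∀ i j, |M i j| ≤ r i) : |M.det| ≤ (Fintype.card ι).factorial * ∏ i, r i := by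
  rw [Matrix.det_apply]
  calc |∑ σ : Equiv.Perm ι, Equiv.Perm.sign σ • ∏ i, M (σ i) i|
      ≤ ∑ σ : Equiv.Perm ι, |Equiv.Perm.sign σ • ∏ i, M (σ i) i| := Finset.abs_sum_le_sum_abs _ _
    _ ≤ ∑ _σ : Equiv.Perm ι, ∏ i, r i := by
        refine Finset.sum_le_sum fun σ _ => ?_
        have h1 : |Equiv.Perm.sign σ • ∏ i, M (σ i) i| = ∏ i, |M (σ i) i| := by
          rw [← Finset.abs_prod]
          rcases Int.units_eq_one_or (Equiv.Perm.sign σ) with h | h
          · rw [h, one_smul]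
          · rw [h, Units.neg_smul, one_smul, abs_neg]
        rw [h1]
        calc ∏ i, |M (σ i) i| ≤ ∏ i, r (σ i) :=
              Finset.prod_le_prod (fun i _ => abs_nonneg _) fun i _ => hM _ _
          _ = ∏ i, r i := Equiv.prod_comp σ r
    _ = _ := by
        rw [Finset.sum_const, Finset.card_univ, Fintype.card_perm, nsmul_eq_mul]

theorem abs_det_le_rows (U : Submodule ℝ E) (A : E →L[ℝ] E) {T B : ℝ}
    (h1 : ∀ w ∈ U, ‖w‖ = 1 → ∀ v, ‖v‖ = 1 → |inner ℝ w (A v)| ≤ T)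
    (h2 : ∀ w ∈ Uᗮ, ‖w‖ = 1 → ∀ v, ‖v‖ = 1 → |inner ℝ w (A v)| ≤ B) :
    |A.det| ≤ (finrank ℝ E).factorial * (T ^ finrank ℝ U * B ^ finrank ℝ Uᗮ) := by
  classical
  set b : OrthonormalBasis (Fin (finrank ℝ U) ⊕ Fin (finrank ℝ Uᗮ)) ℝ E :=
    ((stdOrthonormalBasis ℝ U).prod (stdOrthonormalBasis ℝ Uᗮ)).map U.orthogonalDecomposition.symm with hb
  have hbl : ∀ i, b (Sum.inl i) = stdOrthonormalBasis ℝ U i := by
    intro i
    rw [hb]
    simp
  have hbr : ∀ i, b (Sum.inr i) = stdOrthonormalBasis ℝ Uᗮ i := by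
    intro i
    rw [hb]
    simp
  have h3 : A.det = (LinearMap.toMatrix b.toBasis b.toBasis (A : E →ₗ[ℝ] E)).det := by
    rw [LinearMap.det_toMatrix]
  rw [h3]
  have hcard : Fintype.card (Fin (finrank ℝ U) ⊕ Fin (finrank ℝ Uᗮ)) = finrank ℝ E := by
    rw [Fintype.card_sum, Fintype.card_fin, Fintype.card_fin]
    exact Submodule.finrank_add_finrank_orthogonal U
  refine (abs_det_le_prod _ (Sum.elim (fun _ => T) (fun _ => B)) ?_).trans ?_
  · rintro (i | i) j
    · rw [LinearMap.toMatrix_apply, b.coe_toBasis_repr_apply, b.repr_apply_apply, b.coe_toBasis, hbl]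
      exact h1 _ (Subtype.prop _) (by rw [← hbl]; exact b.norm_eq_one _) _ (b.norm_eq_one _)
    · rw [LinearMap.toMatrix_apply, b.coe_toBasis_repr_apply, b.repr_apply_apply, b.coe_toBasis, hbr]
      exact h2 _ (Subtype.prop _) (by rw [← hbr]; exact b.norm_eq_one _) _ (b.norm_eq_one _)
  · rw [hcard, Fintype.prod_sum_type]
    simp

end Pool.Agent.K6.H31.WT
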