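import Pool.Agent.K6.H31.WT.Area
import Pool.Agent.K6.H31.WT.MollP

/-!
# The lower bound for the energy of a homeomorphism of the tube
-/

set_option autoImplicit false

open Set Filter Topology MeasureTheory Metric Module
open scoped ContDiff ENNReal NNReal

namespace Pool.Agent.K6.H31.WT

open Pool.Agent.K6.H31.WS

variable {E : Type*} [NormedAddCommGroup E] [InnerProductSpace ℝ E] [FiniteDimensional ℝ E]
  [MeasurableSpace E] [BorelSpace E] {V : Submodule ℝ E}

theorem energy_lower (hV : 2 ≤ finrank ℝ V) {g g' : E → E} {G : E → E →L[ℝ] E}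
    (hg : ContinuousOn g (Tub V (1 / 2)))
    (hgm : MapsTo g (Tub V (1 / 2)) (Tub V (1 / 2)))
    (hg' : ContinuousOn g' (Tub V (1 / 2)))
    (hgm' : MapsTo g' (Tub V (1 / 2)) (Tub V (1 / 2)))
    (hgg : ∀ x ∈ Tub V (1 / 2), g' (g x) = x)
    (hG : IntegrableOn G (Tub V (1 / 4))) (hw : HasWeakGrad (Tub V (1 / 4)) g G) :
    volume (cTub V (1 / 8)) ≤ ENNReal.ofReal (cst V) *
      ∫⁻ x in Tub V (1 / 4), ‖G x‖ₑ ^ (finrank ℝ V - 1) := by
  have hnt : Nontrivial V := Module.nontrivial_of_finrank_pos (R := ℝ) (by omega)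
  have h14 : Tub V (1 / 4) ⊆ Tub V (1 / 2) := Tub_mono (by norm_num) (by norm_num)
  have h81 : cTub V (1 / 8) ⊆ Tub V (1 / 4) := cTub_subset_Tub (by norm_num) (by norm_num)
  have hKc : IsCompact (cTub V (1 / 8)) := cTub_compact _ (by norm_num)
  have himg : IsCompact (g '' cTub V (1 / 8)) := hKc.image_of_continuousOn (hg.mono (h81.trans h14))
  have himgs : g '' cTub V (1 / 8) ⊆ Tub V (1 / 2) := by
    rintro _ ⟨x, hx, rfl⟩
    exact hgm (h14 (h81 hx))
  obtain ⟨δ, hδ, hδs⟩ := himg.exists_cthickening_subset_open (isOpen_Tub _) himgs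
  obtain ⟨h, hh, hhg, hhe⟩ := exists_mollified_pow (isOpen_Tub (1 / 4)) (hg.mono h14) hG hw hKc h81 hδ
    (d := finrank ℝ V - 1) (by omega)
  have hseg : ∀ x ∈ cTub V (1 / 8), ∀ s ∈ Icc (0 : ℝ) 1, (1 - s) • g x + s • h x ∈ Tub V (1 / 2) := by
    intro x hx s hs
    apply hδs
    apply mem_cthickening_of_dist_le _ (g x) δ _ (mem_image_of_mem g hx)
    have h1 : (1 - s) • g x + s • h x - g x = s • (h x - g x) := by
      rw [smul_sub, sub_smul, one_smul]
      abel
    rw [dist_eq_norm, h1, norm_smul, Real.norm_eq_abs, abs_of_nonneg hs.1]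
    have h2 := hhg x hx
    nlinarith [hs.1, hs.2, norm_nonneg (h x - g x)]
  refine (volume_le hh ?_ ?_).trans ?_
  · intro x hx
    have h1 := hseg x hx 1 (by simp)
    rw [sub_self, zero_smul, zero_add, one_smul] at h1
    have := (norm_starProjection_lt (by norm_num) h1).1
    linarith
  · intro r z hz hrz q hq hq1
    exact onto hg hgm hg' hgm' hgg hh.continuous hseg hz hrz hq hq1
  · gcongr

theorem volume_cTub_pos (hV : 1 ≤ finrank ℝ V) : 0 < volume (cTub V (1 / 8)) := by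
  have hnt : Nontrivial V := Module.nontrivial_of_finrank_pos (R := ℝ) (by omega)
  obtain ⟨e, he⟩ := exists_norm_eq V (zero_le_one' ℝ)
  have h1 : (e : E) ∈ Tub V (1 / 8) := unit_mem_Tub (by norm_num) e.2 (by simpa using he)
  exact ((isOpen_Tub (1 / 8)).measure_pos _ ⟨_, h1⟩).trans_le (measure_mono (Tub_subset_cTub _))

end Pool.Agent.K6.H31.WT
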