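import Pool.Agent.K6.H31.WT.Coord
import Pool.Agent.K6.H31.WT.LowerT
import Pool.Agent.K6.H31.WS.Final

/-!
# The limit map is in the weak closure but not in the strong closure
-/

set_option autoImplicit false

open Set Filter Topology MeasureTheory Metric Module
open scoped ContDiff ENNReal NNReal RealInnerProductSpace

namespace Pool.Agent.K6.H31.WT

open Pool.Agent.K6.H31.WS

variable {n : ℕ}

/-- the tube -/
abbrev TT (n d : ℕ) : Set (EuclideanSpace ℝ (Fin n)) := Tub (VV n d) (1 / 2)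

theorem TT_open (d : ℕ) : IsOpen (TT n d) := isOpen_Tub _

theorem TT_norm_le {d : ℕ} {x : EuclideanSpace ℝ (Fin n)} (hx : x ∈ TT n d) : ‖x‖ ≤ 2 := by
  have h1 := cTub_bounded (1 / 2) (by norm_num) (Tub_subset_cTub _ hx)
  rw [mem_closedBall_zero_iff] at h1
  linarith

theorem TT_bounded (d : ℕ) : Bornology.IsBounded (TT n d) :=
  isBounded_iff_forall_norm_le.2 ⟨2, fun _ hx => TT_norm_le hx⟩

theorem TT_finite (d : ℕ) : volume (TT n d) ≠ ⊤ := (TT_bounded d).measure_lt_top.ne

instance (d : ℕ) : IsFiniteMeasure ((volume : Measure (EuclideanSpace ℝ (Fin n))).restrict (TT n d)) :=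
  ⟨by rw [Measure.restrict_apply_univ]; exact (TT_finite d).lt_top⟩

/-- Lipschitz maps are in all Sobolev spaces -/
theorem inSobolev_lip {d : ℕ} {f : EuclideanSpace ℝ (Fin n) → EuclideanSpace ℝ (Fin n)} {C B : ℝ}
    (hC : 0 ≤ C) (h : ∀ x ∈ TT n d, ∀ y ∈ TT n d, ‖f x - f y‖ ≤ C * ‖x - y‖)
    (hB : ∀ x ∈ TT n d, ‖f x‖ ≤ B) (p : ℝ≥0∞) :
    InSobolev p (TT n d) f (fderiv ℝ f) ∧ ContinuousOn f (TT n d) := by
  have hl : LipschitzOnWith ⟨C, hC⟩ f (TT n d) :=
    LipschitzOnWith.of_dist_le_mul fun x hx y hy => by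
      rw [dist_eq_norm, dist_eq_norm]
      exact h x hx y hy
  have hlip : LocallyLipschitzOn (TT n d) f := fun x _ => ⟨_, TT n d, self_mem_nhdsWithin, hl⟩
  refine ⟨⟨?_, ?_, hasWeakGrad_of_locallyLipschitz (TT_open d) hlip⟩, hl.continuousOn⟩
  · refine MemLp.of_bound (hl.continuousOn.aestronglyMeasurable (TT_open d).measurableSet) B ?_
    filter_upwards [ae_restrict_mem (TT_open d).measurableSet] with x hx
    exact hB x hx
  · refine MemLp.of_bound (measurable_fderiv ℝ f).aestronglyMeasurable C ?_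
    filter_upwards [ae_restrict_mem (TT_open d).measurableSet] with x hx
    apply norm_fderiv_le_of_local hC
    filter_upwards [(TT_open d).mem_nhds hx] with y hy
    exact h y hy x hx

/-- the parameters -/
noncomputable def ek (k : ℕ) : ℝ := 1 / ((k : ℝ) + 2)

theorem ek_pos (k : ℕ) : 0 < ek k := by
  unfold ek
  positivity

theorem ek_le (k : ℕ) : ek k ≤ 1 / 2 := by
  unfold ek
  apply one_div_le_one_div_of_le (by norm_num)
  have : (0 : ℝ) ≤ k := Nat.cast_nonneg k
  linarith

theorem ek_tendsto : Tendsto ek atTop (𝓝 0) := by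
  unfold ek
  have h : Tendsto (fun k : ℕ => (k : ℝ) + 2) atTop atTop :=
    tendsto_atTop_add_const_right _ _ tendsto_natCast_atTop_atTop
  exact h.const_div_atTop 1

theorem abs_tk (k : ℕ) : |1 - ek k| < 1 := by
  rw [abs_of_nonneg (by linarith [ek_le k])]
  linarith [ek_pos k]

/-- the homeomorphisms -/
noncomputable def fk (d : ℕ) (hn : 0 < n) (k : ℕ) : EuclideanSpace ℝ (Fin n) → EuclideanSpace ℝ (Fin n) :=
  Fm (VV n d) (muP (ek k)) (mob (1 - ek k) (e0 hn))

theorem fk_homeo (d : ℕ) (hn : 0 < n) (k : ℕ) : IsHomeoOnto (TT n d) (TT n d) (fk d hn k) :=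
  ⟨homF (VV n d) (e0 hn) (e0_mem hn d) (norm_e0 hn) (1 - ek k) (ek k) (abs_tk k) (ek_pos k)
    (by linarith [ek_le k]), fun _ => rfl⟩

theorem fk_bound {d : ℕ} (hn : 0 < n) (k : ℕ) (x : EuclideanSpace ℝ (Fin n)) (hx : x ∈ TT n d) :
    ‖fk d hn k x‖ ≤ 2 := by
  obtain ⟨e, he⟩ := fk_homeo (n := n) d hn k
  rw [← he ⟨x, hx⟩]
  exact TT_norm_le (e ⟨x, hx⟩).2

theorem fk_sob (d : ℕ) (hn : 0 < n) (k : ℕ) (p : ℝ≥0∞) :
    InSobolev p (TT n d) (fk d hn k) (fderiv ℝ (fk d hn k)) ∧ ContinuousOn (fk d hn k) (TT n d) := by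
  have h2 : 0 ≤ (1 - |1 - ek k|)⁻¹ := inv_nonneg.2 (by linarith [abs_tk k])
  refine inSobolev_lip (C := 30 + 6 * (1 - |1 - ek k|)⁻¹) (B := 2) (by positivity) ?_ (fk_bound hn k) p
  intro x hx y hy
  exact F_lip (abs_tk k) (norm_e0 hn) (ek_pos k).le (by linarith [ek_le k]) hx hy

theorem flim_sob (d : ℕ) (hn : 0 < n) (p : ℝ≥0∞) :
    InSobolev p (TT n d) (Flim (VV n d) (e0 hn)) (fderiv ℝ (Flim (VV n d) (e0 hn))) ∧
      ContinuousOn (Flim (VV n d) (e0 hn)) (TT n d) := by
  refine inSobolev_lip (C := 30) (B := 2) (by norm_num) ?_ ?_ p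
  · intro x hx y hy
    exact Flim_lip (norm_e0 hn) hx hy
  · intro x hx
    exact TT_norm_le (Flim_mem (e0_mem hn d) (norm_e0 hn) hx)

/-- the gradients are bounded in `L^d` -/
theorem fk_energy {d : ℕ} (hd : 1 ≤ d) (hdn : d < n) (k : ℕ) :
    eLpNorm (fderiv ℝ (fk d (n := n) (by omega) k)) d (volume.restrict (TT n d)) ≤
      ENNReal.ofReal 30 * volume (TT n d) ^ (d : ℝ)⁻¹ + 6 * ENNReal.ofReal (bnd n d) ^ (d : ℝ)⁻¹ := by
  have hn : 0 < n := by omega
  have hd0 : (d : ℝ≥0∞) ≠ 0 := by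
    rw [Ne, Nat.cast_eq_zero]
    omega
  have hd1 : (1 : ℝ≥0∞) ≤ (d : ℝ≥0∞) := by exact_mod_cast hd
  have hdt : (d : ℝ≥0∞) ≠ ⊤ := ENNReal.natCast_ne_top d
  have hlm : AEStronglyMeasurable (lmb (VV n d) (e0 hn) (1 - ek k)) (volume.restrict (TT n d)) :=
    (lmb_continuousOn (abs_tk k) (norm_e0 hn)).aestronglyMeasurable (TT_open d).measurableSet
  calc eLpNorm (fderiv ℝ (fk d hn k)) d (volume.restrict (TT n d))
      ≤ eLpNorm ((fun _ => (30 : ℝ)) + (6 : ℝ) • lmb (VV n d) (e0 hn) (1 - ek k)) d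
          (volume.restrict (TT n d)) := by
        apply eLpNorm_mono_ae
        filter_upwards [ae_restrict_mem (TT_open d).measurableSet] with x hx
        have h1 := F_fderiv_le (ε := ek k) (abs_tk k) (norm_e0 hn) (ek_pos k).le
          (by linarith [ek_le k]) hx
        refine h1.trans ?_
        rw [Pi.add_apply, Pi.smul_apply, smul_eq_mul]
        exact le_abs_self _
    _ ≤ eLpNorm (fun _ => (30 : ℝ)) d (volume.restrict (TT n d)) +
          eLpNorm ((6 : ℝ) • lmb (VV n d) (e0 hn) (1 - ek k)) d (volume.restrict (TT n d)) :=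
        eLpNorm_add_le aestronglyMeasurable_const (hlm.const_smul _) hd1
    _ ≤ _ := by
        apply add_le_add
        · rw [eLpNorm_const' _ hd0 hdt, Measure.restrict_apply_univ, ENNReal.toReal_natCast, one_div,
            Real.enorm_eq_ofReal (by norm_num)]
        · rw [eLpNorm_const_smul]
          have h6 : ‖(6 : ℝ)‖ₑ = 6 := by
            rw [Real.enorm_eq_ofReal (by norm_num)]
            simp
          rw [h6]
          gcongr
          rw [eLpNorm_eq_lintegral_rpow_enorm_toReal hd0 hdt, ENNReal.toReal_natCast, one_div]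
          gcongr
          refine le_trans (le_of_eq ?_) (lintegral_lmb_pow hdn (τ := 1 - ek k)
            (by linarith [ek_le k]) (by linarith [ek_pos k]))
          apply setLIntegral_congr_fun (TT_open d).measurableSet
          intro x hx
          show ‖lmb (VV n d) (e0 hn) (1 - ek k) x‖ₑ ^ (d : ℝ) =
            ENNReal.ofReal (lmb (VV n d) (e0 hn) (1 - ek k) x) ^ d
          rw [ENNReal.rpow_natCast, Real.enorm_eq_ofReal (lmb_nonneg (abs_tk k) (norm_e0 hn) hx)]

theorem fk_energy' {d : ℕ} (hd : 1 ≤ d) (hdn : d < n) : ∃ C : ℝ≥0,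
    (∀ k, eLpNorm (fderiv ℝ (fk d (n := n) (by omega) k)) d (volume.restrict (TT n d)) ≤ C) ∧
    eLpNorm (fderiv ℝ (Flim (VV n d) (e0 (n := n) (by omega)))) d (volume.restrict (TT n d)) ≤ C := by
  have hn : 0 < n := by omega
  set A := ENNReal.ofReal 30 * volume (TT n d) ^ (d : ℝ)⁻¹ + 6 * ENNReal.ofReal (bnd n d) ^ (d : ℝ)⁻¹
    with hA
  have hAt : A ≠ ⊤ := by
    apply ENNReal.add_ne_top.2 ⟨ENNReal.mul_ne_top ENNReal.ofReal_ne_top ?_,
      ENNReal.mul_ne_top (by simp) ?_⟩
    · exact ENNReal.rpow_ne_top_of_nonneg (by positivity) (TT_finite d)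
    · exact ENNReal.rpow_ne_top_of_nonneg (by positivity) ENNReal.ofReal_ne_top
  have hB := (flim_sob d hn (n := n) (d : ℝ≥0∞)).1.2.1.eLpNorm_ne_top
  set B := eLpNorm (fderiv ℝ (Flim (VV n d) (e0 hn))) d (volume.restrict (TT n d)) with hBd
  refine ⟨(A + B).toNNReal, fun k => ?_, ?_⟩
  · rw [ENNReal.coe_toNNReal (ENNReal.add_ne_top.2 ⟨hAt, hB⟩)]
    exact (fk_energy hd hdn k).trans le_self_add
  · rw [ENNReal.coe_toNNReal (ENNReal.add_ne_top.2 ⟨hAt, hB⟩)]
    exact le_add_self

theorem flim_weak' {d : ℕ} (hd : 2 ≤ d) (hdn : d < n) :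
    Flim (VV n d) (e0 (n := n) (by omega)) ∈ weakClosure (d : ℝ≥0∞) (TT n d) (TT n d) := by
  have hn : 0 < n := by omega
  have hlimae : ∀ᵐ x ∂(volume.restrict (TT n d)),
      Tendsto (fun k => fk d hn k x) atTop (𝓝 (Flim (VV n d) (e0 hn) x)) := by
    filter_upwards [ae_inner_ne (V := VV n d) (e := e0 hn) (by rw [finrank_VV hdn]; omega) (e0_mem hn d)
      (norm_e0 hn)] with x hx
    refine F_tendsto (τ := fun k => 1 - ek k) ?_ ek_tendsto hx
    have := ek_tendsto.const_sub 1
    rwa [sub_zero] at this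
  refine ⟨fderiv ℝ (Flim (VV n d) (e0 hn)), (flim_sob d hn _).1, ?_, fk d hn,
    fun k => fderiv ℝ (fk d hn k), fun k => ⟨(fk_sob d hn k _).1, fk_homeo d hn k⟩, ?_⟩
  · filter_upwards [ae_restrict_mem (TT_open d).measurableSet] with x hx
    exact subset_closure (Flim_mem (e0_mem hn d) (norm_e0 hn) hx)
  · intro q hq h hh
    have hq1 : 1 ≤ q := by
      by_contra hlt
      push Not at hlt
      have h1 : 1 < q⁻¹ := by
        rw [← inv_one]
        exact ENNReal.inv_lt_inv.2 hlt
      have h2 : q⁻¹ ≤ 1 := by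
        rw [← hq]
        exact le_add_self
      exact absurd h1 (not_lt.2 h2)
    have hqt : q ≠ ⊤ := by
      rintro rfl
      rw [ENNReal.inv_top, add_zero, ENNReal.inv_eq_one] at hq
      have : d = 1 := by exact_mod_cast hq
      omega
    have hhol : ENNReal.HolderTriple q (d : ℝ≥0∞) 1 := ⟨by rw [add_comm, hq, inv_one]⟩
    have hhi : IntegrableOn h (TT n d) := hh.integrable hq1
    refine ⟨?_, fun v => ?_⟩
    · refine tendsto_integral_of_dominated_convergence (fun x => ‖h x‖ * 2) ?_ ?_ ?_ ?_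
      · intro k
        exact hhi.aestronglyMeasurable.smul
          ((fk_sob d hn k 1).2.aestronglyMeasurable (TT_open d).measurableSet)
      · exact hhi.norm.mul_const _
      · intro k
        filter_upwards [ae_restrict_mem (TT_open d).measurableSet] with x hx
        rw [norm_smul]
        exact mul_le_mul_of_nonneg_left (fk_bound hn k x hx) (norm_nonneg _)
      · filter_upwards [hlimae] with x hx
        exact hx.const_smul _
    · obtain ⟨C, hC1, hC2⟩ := fk_energy' (n := n) (d := d) (by omega) hdn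
      exact tendsto_grad_pow (TT_open d) (TT_finite d) (p := d) (q := q) hq1 hqt
        (flim_sob d hn 1).1.2.2 (fun k => (fk_sob d hn k 1).1.2.2)
        (fun k => (fk_sob d hn k 1).2.aestronglyMeasurable (TT_open d).measurableSet)
        (flim_sob d hn _).1.2.1 (fun k => (fk_sob d hn k _).1.2.1) (fk_bound hn) hC2 hC1 hlimae hh v

theorem flim_not_strong' {d : ℕ} (hd : 2 ≤ d) (hdn : d < n) :
    Flim (VV n d) (e0 (n := n) (by omega)) ∉ strongClosure (d : ℝ≥0∞) (TT n d) (TT n d) := by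
  have hn : 0 < n := by omega
  rintro ⟨G, ⟨-, hGp, hGw⟩, -, gk, Gk, hk, -, hlim⟩
  have hd1 : (1 : ℝ≥0∞) ≤ (d : ℝ≥0∞) := by exact_mod_cast (by omega : 1 ≤ d)
  have hd0 : (d : ℝ≥0∞) ≠ 0 := by
    rw [Ne, Nat.cast_eq_zero]
    omega
  have hdt : (d : ℝ≥0∞) ≠ ⊤ := ENNReal.natCast_ne_top d
  have hsub : Tub (VV n d) (1 / 4) ⊆ TT n d := Tub_mono (by norm_num) (by norm_num)
  have hGi : IntegrableOn G (TT n d) := hGp.integrable hd1
  -- the gradient of the limit vanishes on the small tube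
  have hzero : ∀ᵐ x, x ∈ Tub (VV n d) (1 / 4) → G x = 0 := by
    obtain ⟨-, h1, h2⟩ := (flim_sob (n := n) d hn 1).1
    have h3 := weakGrad_unique (TT_open d) hGi (h1.integrable le_rfl) hGw h2
    filter_upwards [h3] with x hx hxD
    have h4 := hx (hsub hxD)
    have h5 : fderiv ℝ (Flim (VV n d) (e0 hn)) x = 0 := by
      have h6 : Flim (VV n d) (e0 hn) =ᶠ[𝓝 x] fun _ => e0 hn := by
        filter_upwards [(isOpen_Tub (V := VV n d) (1 / 4)).mem_nhds hxD] with y hy
        exact Flim_eq hy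
      rw [h6.fderiv_eq]
      simp
    rwa [h5, sub_zero] at h4
  -- the lower bound
  have hlow : ∀ k, volume (cTub (VV n d) (1 / 8)) ≤ ENNReal.ofReal (cst (VV n d)) *
      ∫⁻ x in Tub (VV n d) (1 / 4), ‖Gk k x‖ₑ ^ d := by
    intro k
    obtain ⟨⟨-, hGkp, hGkw⟩, e, he⟩ := hk k
    have hGki : IntegrableOn (Gk k) (TT n d) := hGkp.integrable hd1
    have hgc : ContinuousOn (gk k) (TT n d) := by
      rw [continuousOn_iff_continuous_domRestrict]
      have : (TT n d).domRestrict (gk k) = fun x => (e x : EuclideanSpace ℝ (Fin n)) := by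
        funext x
        exact (he x).symm
      rw [this]
      exact continuous_subtype_val.comp e.continuous
    classical
    let g' : EuclideanSpace ℝ (Fin n) → EuclideanSpace ℝ (Fin n) :=
      fun y => if h : y ∈ TT n d then (e.symm ⟨y, h⟩).1 else 0
    have hg'v : ∀ y (h : y ∈ TT n d), g' y = (e.symm ⟨y, h⟩).1 := by
      intro y h
      show (if h : y ∈ TT n d then (e.symm ⟨y, h⟩).1 else 0) = _
      rw [dif_pos h]
    have hg'c : ContinuousOn g' (TT n d) := by
      rw [continuousOn_iff_continuous_domRestrict]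
      have : (TT n d).domRestrict g' = fun y => (e.symm y : EuclideanSpace ℝ (Fin n)) := by
        funext y
        exact hg'v y.1 y.2
      rw [this]
      exact continuous_subtype_val.comp e.symm.continuous
    have hw : HasWeakGrad (Tub (VV n d) (1 / 4)) (gk k) (Gk k) := by
      intro φ hφ hc hs v
      have h1 := hGkw φ hφ hc (hs.trans hsub) v
      have h2 : ∀ x, x ∉ Tub (VV n d) (1 / 4) → fderiv ℝ φ x v = 0 := by
        intro x hx
        have : fderiv ℝ φ x = 0 := by
          by_contra h4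
          exact hx (hs (support_fderiv_subset ℝ (f := φ) h4))
        rw [this]
        rfl
      have h3 : ∀ x, x ∉ Tub (VV n d) (1 / 4) → φ x = 0 := fun x hx =>
        image_eq_zero_of_notMem_tsupport fun h => hx (hs h)
      have e1 : ∫ x in TT n d, (fderiv ℝ φ x v) • gk k x =
          ∫ x in Tub (VV n d) (1 / 4), (fderiv ℝ φ x v) • gk k x := by
        apply setIntegral_eq_of_subset_of_forall_sdiff_eq_zero (TT_open d).measurableSet hsub
        intro x hx
        rw [h2 x hx.2, zero_smul]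
      have e2 : ∫ x in TT n d, φ x • Gk k x v = ∫ x in Tub (VV n d) (1 / 4), φ x • Gk k x v := by
        apply setIntegral_eq_of_subset_of_forall_sdiff_eq_zero (TT_open d).measurableSet hsub
        intro x hx
        rw [h3 x hx.2, zero_smul]
      rw [e1, e2] at h1
      exact h1
    have hfr : finrank ℝ (VV n d) = d + 1 := finrank_VV hdn
    have hmain := energy_lower (V := VV n d) (by rw [hfr]; omega) (g := gk k) (g' := g') (G := Gk k)
      hgc ?_ hg'c ?_ ?_ (hGki.mono_set hsub) hw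
    · rw [hfr, Nat.add_sub_cancel] at hmain
      exact hmain
    · intro x hx
      rw [← he ⟨x, hx⟩]
      exact (e ⟨x, hx⟩).2
    · intro y hy
      rw [hg'v y hy]
      exact (e.symm ⟨y, hy⟩).2
    · intro x hx
      have h1 : gk k x = (e ⟨x, hx⟩ : EuclideanSpace ℝ (Fin n)) := (he ⟨x, hx⟩).symm
      rw [h1, hg'v _ (e ⟨x, hx⟩).2]
      simp
  -- the energies on the small tube tend to zero
  have hup : ∀ k, ∫⁻ x in Tub (VV n d) (1 / 4), ‖Gk k x‖ₑ ^ d ≤
      eLpNorm (fun x => Gk k x - G x) d (volume.restrict (TT n d)) ^ d := by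
    intro k
    calc ∫⁻ x in Tub (VV n d) (1 / 4), ‖Gk k x‖ₑ ^ d
        = ∫⁻ x in Tub (VV n d) (1 / 4), ‖Gk k x - G x‖ₑ ^ d := by
          apply lintegral_congr_ae
          have h1 : ∀ᵐ x ∂(volume.restrict (Tub (VV n d) (1 / 4))), G x = 0 := by
            rw [ae_restrict_iff' (isOpen_Tub _).measurableSet]
            exact hzero
          filter_upwards [h1] with x hx
          rw [hx, sub_zero]
      _ ≤ ∫⁻ x in TT n d, ‖Gk k x - G x‖ₑ ^ d := lintegral_mono_set hsub
      _ = eLpNorm (fun x => Gk k x - G x) d (volume.restrict (TT n d)) ^ d := by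
          rw [eLpNorm_eq_lintegral_rpow_enorm_toReal hd0 hdt, ENNReal.toReal_natCast, one_div,
            ← ENNReal.rpow_natCast, ← ENNReal.rpow_mul, inv_mul_cancel₀ (by
              rw [Nat.cast_ne_zero]; omega), ENNReal.rpow_one]
          simp only [ENNReal.rpow_natCast]
  have hT : Tendsto (fun k => ENNReal.ofReal (cst (VV n d)) *
      eLpNorm (fun x => Gk k x - G x) d (volume.restrict (TT n d)) ^ d) atTop (𝓝 0) := by
    have h1 := ENNReal.Tendsto.pow (n := d) hlim
    have h2 := ENNReal.Tendsto.const_mul (a := ENNReal.ofReal (cst (VV n d))) h1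
      (Or.inr ENNReal.ofReal_ne_top)
    rw [zero_pow (by omega), mul_zero] at h2
    exact h2
  have hge : volume (cTub (VV n d) (1 / 8)) ≤ 0 := by
    refine ge_of_tendsto hT (Eventually.of_forall fun k => ?_)
    refine (hlow k).trans ?_
    gcongr
    exact hup k
  exact absurd hge (not_le.2 (volume_cTub_pos (by rw [finrank_VV hdn]; omega)))

end Pool.Agent.K6.H31.WT
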