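import Pool.Agent.K6.H31.WT.Triv

/-!
# A homeomorphism of the tube and the maps near it are onto in the direction of the sphere
-/

set_option autoImplicit false

open Set Filter Topology MeasureTheory Metric Module
open scoped ContDiff ENNReal NNReal

namespace Pool.Agent.K6.H31.WT

variable {E : Type*} [NormedAddCommGroup E] [InnerProductSpace ℝ E] [FiniteDimensional ℝ E]

/-- the square of the distance to the unit sphere of `V` -/
noncomputable def qq (V : Submodule ℝ E) (x : E) : ℝ :=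
  (‖V.starProjection x‖ - 1) ^ 2 + ‖x - V.starProjection x‖ ^ 2

/-- the open tube about the unit sphere of `V` -/
def Tub (V : Submodule ℝ E) (r : ℝ) : Set E := {x | qq V x < r ^ 2}

/-- the closed tube about the unit sphere of `V` -/
def cTub (V : Submodule ℝ E) (r : ℝ) : Set E := {x | qq V x ≤ r ^ 2}

variable {V : Submodule ℝ E}

theorem qq_continuous : Continuous (qq V) := by
  unfold qq
  fun_prop

theorem isOpen_Tub (r : ℝ) : IsOpen (Tub V r) := isOpen_lt qq_continuous continuous_const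

theorem isClosed_cTub (r : ℝ) : IsClosed (cTub V r) := isClosed_le qq_continuous continuous_const

theorem norm_starProjection_lt {r : ℝ} (hr : 0 ≤ r) {x : E} (hx : x ∈ Tub V r) :
    1 - r < ‖V.starProjection x‖ ∧ ‖V.starProjection x‖ < 1 + r := by
  have h1 : (‖V.starProjection x‖ - 1) ^ 2 < r ^ 2 := by
    have : qq V x < r ^ 2 := hx
    unfold qq at this
    nlinarith [sq_nonneg ‖x - V.starProjection x‖]
  have h2 := abs_lt_of_sq_lt_sq h1 hr
  rw [abs_lt] at h2
  constructor <;> linarith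

theorem norm_starProjection_le {r : ℝ} (hr : 0 ≤ r) {x : E} (hx : x ∈ cTub V r) :
    1 - r ≤ ‖V.starProjection x‖ ∧ ‖V.starProjection x‖ ≤ 1 + r := by
  have h1 : (‖V.starProjection x‖ - 1) ^ 2 ≤ r ^ 2 := by
    have : qq V x ≤ r ^ 2 := hx
    unfold qq at this
    nlinarith [sq_nonneg ‖x - V.starProjection x‖]
  have h2 := abs_le_of_sq_le_sq h1 hr
  rw [abs_le] at h2
  constructor <;> linarith

theorem norm_sub_starProjection_le {r : ℝ} (hr : 0 ≤ r) {x : E} (hx : x ∈ cTub V r) :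
    ‖x - V.starProjection x‖ ≤ r := by
  have h1 : ‖x - V.starProjection x‖ ^ 2 ≤ r ^ 2 := by
    have : qq V x ≤ r ^ 2 := hx
    unfold qq at this
    nlinarith [sq_nonneg (‖V.starProjection x‖ - 1)]
  exact le_of_sq_le_sq h1 hr

theorem Tub_subset_cTub (r : ℝ) : Tub V r ⊆ cTub V r := fun x hx =>
  le_of_lt (show qq V x < r ^ 2 from hx)

theorem cTub_subset_Tub {r s : ℝ} (hr : 0 ≤ r) (h : r < s) : cTub V r ⊆ Tub V s := by
  intro x hx
  have : qq V x ≤ r ^ 2 := hx
  show qq V x < s ^ 2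
  nlinarith

theorem Tub_mono {r s : ℝ} (hr : 0 ≤ r) (h : r ≤ s) : Tub V r ⊆ Tub V s := by
  intro x hx
  have : qq V x < r ^ 2 := hx
  show qq V x < s ^ 2
  nlinarith

theorem cTub_bounded (r : ℝ) (hr : 0 ≤ r) : cTub V r ⊆ closedBall (0 : E) (1 + 2 * r) := by
  intro x hx
  rw [mem_closedBall_zero_iff]
  have h1 := norm_starProjection_le hr hx
  have h2 := norm_sub_starProjection_le hr hx
  calc ‖x‖ = ‖V.starProjection x + (x - V.starProjection x)‖ := by rw [add_sub_cancel]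
    _ ≤ ‖V.starProjection x‖ + ‖x - V.starProjection x‖ := norm_add_le _ _
    _ ≤ 1 + 2 * r := by linarith [h1.2]

theorem cTub_compact (r : ℝ) (hr : 0 ≤ r) : IsCompact (cTub V r) :=
  (isCompact_closedBall (0 : E) (1 + 2 * r)).of_isClosed_subset (isClosed_cTub r) (cTub_bounded r hr)

/-- the projection of the combination with the nearest point of the sphere -/
theorem retract_mem {r : ℝ} {x : E} (hx : x ∈ Tub V r) (hP : V.starProjection x ≠ 0)
    {s : ℝ} (hs : s ∈ Icc (0 : ℝ) 1) :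
    (1 - s) • x + s • (‖V.starProjection x‖⁻¹ • V.starProjection x) ∈ Tub V r := by
  set p := V.starProjection x with hp
  have hp0 : 0 < ‖p‖ := norm_pos_iff.2 hP
  have hpV : p ∈ V := V.starProjection_apply_mem x
  have hpp : V.starProjection p = p := V.starProjection_eq_self_iff.2 hpV
  have h1 : V.starProjection ((1 - s) • x + s • (‖p‖⁻¹ • p)) = (1 - s + s * ‖p‖⁻¹) • p := by
    rw [map_add, map_smul, map_smul, map_smul, hpp, ← hp, smul_smul, ← add_smul]
  have h2 : ‖(1 - s + s * ‖p‖⁻¹) • p‖ = (1 - s) * ‖p‖ + s := by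
    rw [norm_smul, Real.norm_eq_abs, abs_of_nonneg]
    · field_simp
    · have := hs.1
      have := hs.2
      have h3 : 0 < ‖p‖⁻¹ := inv_pos.2 hp0
      nlinarith
  have h3 : (1 - s) • x + s • (‖p‖⁻¹ • p) - (1 - s + s * ‖p‖⁻¹) • p = (1 - s) • (x - p) := by
    rw [smul_smul, smul_sub, add_smul]
    abel
  have hx' : (‖p‖ - 1) ^ 2 + ‖x - p‖ ^ 2 < r ^ 2 := hx
  show qq V _ < r ^ 2
  unfold qq
  rw [h1, h2, h3, norm_smul, Real.norm_eq_abs, abs_of_nonneg (by linarith [hs.2])]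
  have h4 : ((1 - s) * ‖p‖ + s - 1) ^ 2 + ((1 - s) * ‖x - p‖) ^ 2 =
      (1 - s) ^ 2 * ((‖p‖ - 1) ^ 2 + ‖x - p‖ ^ 2) := by ring
  rw [h4]
  have h5 : (1 - s) ^ 2 ≤ 1 := by nlinarith [hs.1, hs.2]
  have h6 : 0 ≤ (‖p‖ - 1) ^ 2 + ‖x - p‖ ^ 2 := by positivity
  nlinarith

theorem unit_mem_Tub {r : ℝ} (hr : 0 < r) {e : E} (he : e ∈ V) (h1 : ‖e‖ = 1) : e ∈ Tub V r := by
  show qq V e < r ^ 2
  unfold qq
  rw [V.starProjection_eq_self_iff.2 he, h1]
  simp
  positivity

theorem starProjection_point {θ z : E} (hθ : θ ∈ V) (hz : z ∈ Vᗮ) (r : ℝ) :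
    V.starProjection (r • θ + z) = r • θ := by
  rw [map_add, map_smul, V.starProjection_eq_self_iff.2 hθ,
    V.starProjection_apply_eq_zero_iff.2 hz, add_zero]

theorem point_mem_cTub {r ρ : ℝ} (hr : 0 ≤ r) {θ z : E} (hθ : θ ∈ V) (h1 : ‖θ‖ = 1) (hz : z ∈ Vᗮ)
    (h : (r - 1) ^ 2 + ‖z‖ ^ 2 ≤ ρ ^ 2) : r • θ + z ∈ cTub V ρ := by
  show qq V _ ≤ ρ ^ 2
  unfold qq
  rw [starProjection_point hθ hz, add_sub_cancel_left, norm_smul, h1, Real.norm_eq_abs,
    abs_of_nonneg hr, mul_one]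
  exact h

/-- maps near a homeomorphism of the tube are onto in the direction of the sphere -/
theorem onto [Nontrivial V] {g g' h : E → E} (hg : ContinuousOn g (Tub V (1 / 2)))
    (hgm : MapsTo g (Tub V (1 / 2)) (Tub V (1 / 2)))
    (hg' : ContinuousOn g' (Tub V (1 / 2)))
    (hgm' : MapsTo g' (Tub V (1 / 2)) (Tub V (1 / 2)))
    (hgg : ∀ x ∈ Tub V (1 / 2), g' (g x) = x) (hh : Continuous h)
    (hseg : ∀ x ∈ cTub V (1 / 8), ∀ s ∈ Icc (0 : ℝ) 1, (1 - s) • g x + s • h x ∈ Tub V (1 / 2))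
    {r : ℝ} {z : E} (hz : z ∈ Vᗮ) (hrz : (r - 1) ^ 2 + ‖z‖ ^ 2 ≤ (1 / 8) ^ 2)
    {q : E} (hq : q ∈ V) (hq1 : ‖q‖ = 1) :
    ∃ θ ∈ V, ‖θ‖ = 1 ∧ ‖V.starProjection (h (r • θ + z))‖⁻¹ • V.starProjection (h (r • θ + z)) = q := by
  by_contra hcon
  push Not at hcon
  let _ : MeasurableSpace V := borel V
  have _ : BorelSpace V := ⟨rfl⟩
  have hr : 1 / 2 < r := by
    have h1 : (r - 1) ^ 2 ≤ (1 / 8) ^ 2 := by nlinarith [sq_nonneg ‖z‖]
    have := (abs_le.1 (abs_le_of_sq_le_sq h1 (by norm_num))).1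
    linarith
  set Ω := Tub V (1 / 2) with hΩ
  have hPΩ : ∀ x ∈ Ω, V.starProjection x ≠ 0 := by
    intro x hx
    have := (norm_starProjection_lt (by norm_num) hx).1
    rw [← norm_pos_iff]
    linarith
  set F : E → V := fun y => V.orthogonalProjectionOnto (g' y) with hF
  have hFc : ContinuousOn F Ω := V.orthogonalProjectionOnto.continuous.comp_continuousOn hg'
  have hF0 : ∀ y ∈ Ω, F y ≠ 0 := by
    intro y hy h0
    apply hPΩ (g' y) (hgm' hy)
    rw [V.starProjection_apply]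
    rw [hF] at h0
    simp only at h0
    rw [h0]
    rfl
  -- the sphere
  set pt : V → E := fun θ => r • (θ : E) + z with hpt
  have hptc : Continuous pt := by fun_prop
  have hptm : ∀ θ ∈ sphere (0 : V) 1, pt θ ∈ cTub V (1 / 8) := by
    intro θ hθ
    rw [mem_sphere_zero_iff_norm] at hθ
    exact point_mem_cTub (by linarith) θ.2 hθ hz hrz
  have hptΩ : ∀ θ ∈ sphere (0 : V) 1, pt θ ∈ Ω := fun θ hθ =>
    cTub_subset_Tub (by norm_num) (by norm_num) (hptm θ hθ)
  -- the direction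
  have hhΩ : ∀ θ ∈ sphere (0 : V) 1, h (pt θ) ∈ Ω := by
    intro θ hθ
    have := hseg (pt θ) (hptm θ hθ) 1 (by simp)
    simpa using this
  set u : V → E := fun θ => ‖V.starProjection (h (pt θ))‖⁻¹ • V.starProjection (h (pt θ)) with hu
  have huc : ContinuousOn u (sphere (0 : V) 1) := by
    have h1 : Continuous fun θ : V => V.starProjection (h (pt θ)) :=
      V.starProjection.continuous.comp (hh.comp hptc)
    refine ContinuousOn.smul (ContinuousOn.inv₀ h1.norm.continuousOn ?_) h1.continuousOn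
    intro θ hθ
    exact norm_ne_zero_iff.2 (hPΩ _ (hhΩ θ hθ))
  have huV : ∀ θ, u θ ∈ V := fun θ => V.smul_mem _ (V.starProjection_apply_mem _)
  have hu1 : ∀ θ ∈ sphere (0 : V) 1, ‖u θ‖ = 1 := by
    intro θ hθ
    have h1 : ‖V.starProjection (h (pt θ))‖ ≠ 0 := norm_ne_zero_iff.2 (hPΩ _ (hhΩ θ hθ))
    rw [hu]
    simp only
    rw [norm_smul, norm_inv, norm_norm, inv_mul_cancel₀ h1]
  have huq : ∀ θ ∈ sphere (0 : V) 1, u θ ≠ q := by
    intro θ hθ
    rw [mem_sphere_zero_iff_norm] at hθ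
    exact hcon θ θ.2 hθ
  -- step 3
  have hnq : -q ∈ Ω := unit_mem_Tub (by norm_num) (V.neg_mem hq) (by rw [norm_neg, hq1])
  have T3 : Triv fun _ : V => F (-q) := triv_const (hF0 _ hnq)
  -- step 2
  set w : ℝ × V → E := fun p => (1 - p.1) • u p.2 - p.1 • q with hw
  have hwV : ∀ p, w p ∈ V := fun p => V.sub_mem (V.smul_mem _ (huV _)) (V.smul_mem _ hq)
  have hw0 : ∀ p ∈ Icc (0 : ℝ) 1 ×ˢ sphere (0 : V) 1, w p ≠ 0 := by
    rintro ⟨s, θ⟩ ⟨hs, hθ⟩ h0
    rw [hw] at h0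
    simp only at h0
    rw [sub_eq_zero] at h0
    have h1 := congrArg norm h0
    have hs1 : s ≤ 1 := hs.2
    have hs0 : 0 ≤ s := hs.1
    rw [norm_smul (1 - s) (u θ), norm_smul s q, hu1 θ hθ, hq1, Real.norm_eq_abs, Real.norm_eq_abs,
      abs_of_nonneg (by linarith), abs_of_nonneg hs0] at h1
    have h2 : s = 1 / 2 := by linarith
    rw [h2] at h0
    have h3 : u θ = q := by
      have : (1 - 1 / 2 : ℝ) = 1 / 2 := by norm_num
      rw [this] at h0
      exact smul_right_injective E (by norm_num : (1 / 2 : ℝ) ≠ 0) h0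
    exact huq θ hθ h3
  have hwc : ContinuousOn w (Icc (0 : ℝ) 1 ×ˢ sphere (0 : V) 1) := by
    have h1 : ContinuousOn (fun p : ℝ × V => u p.2) (Icc (0 : ℝ) 1 ×ˢ sphere (0 : V) 1) :=
      huc.comp continuousOn_snd fun p hp => hp.2
    exact ((continuousOn_const.sub continuousOn_fst).smul h1).sub
      (continuousOn_fst.smul continuousOn_const)
  have hwn : ∀ p ∈ Icc (0 : ℝ) 1 ×ˢ sphere (0 : V) 1, ‖w p‖⁻¹ • w p ∈ Ω := by
    intro p hp
    refine unit_mem_Tub (by norm_num) (V.smul_mem _ (hwV p)) ?_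
    rw [norm_smul, norm_inv, norm_norm, inv_mul_cancel₀ (norm_ne_zero_iff.2 (hw0 p hp))]
  have T2 : Triv fun θ : V => F (u θ) := by
    have h1 := Triv.of_homotopy (H := fun p : ℝ × V => F (‖w p‖⁻¹ • w p)) ?_ ?_ ?_
    · refine h1.congr fun θ hθ => ?_
      have h2 : w (0, θ) = u θ := by simp [hw]
      show F (‖w (0, θ)‖⁻¹ • w (0, θ)) = F (u θ)
      rw [h2, hu1 θ hθ, inv_one, one_smul]
    · refine hFc.comp ?_ hwn
      exact (hwc.norm.inv₀ fun p hp => norm_ne_zero_iff.2 (hw0 p hp)).smul hwc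
    · intro s hs θ hθ
      exact hF0 _ (hwn (s, θ) ⟨hs, hθ⟩)
    · refine T3.congr fun θ hθ => ?_
      have h2 : w (1, θ) = -q := by simp [hw]
      show F (-q) = F (‖w (1, θ)‖⁻¹ • w (1, θ))
      rw [h2, norm_neg, hq1, inv_one, one_smul]
  -- step 1
  have T1 : Triv fun θ : V => F (h (pt θ)) := by
    have h1 := Triv.of_homotopy (H := fun p : ℝ × V => F ((1 - p.1) • h (pt p.2) + p.1 • u p.2)) ?_ ?_ ?_
    · refine h1.congr fun θ hθ => ?_
      simp
    · refine hFc.comp ?_ ?_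
      · refine ((continuousOn_const.sub continuousOn_fst).smul ?_).add
          (continuousOn_fst.smul (huc.comp continuousOn_snd fun p hp => hp.2))
        exact (hh.comp (hptc.comp continuous_snd)).continuousOn
      · rintro ⟨s, θ⟩ ⟨hs, hθ⟩
        exact retract_mem (hhΩ θ hθ) (hPΩ _ (hhΩ θ hθ)) hs
    · intro s hs θ hθ
      exact hF0 _ (retract_mem (hhΩ θ hθ) (hPΩ _ (hhΩ θ hθ)) hs)
    · refine T2.congr fun θ hθ => ?_
      show F (u θ) = F ((1 - 1 : ℝ) • h (pt θ) + (1 : ℝ) • u θ)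
      rw [sub_self, zero_smul, zero_add, one_smul]
  -- step 0
  have T0 : Triv fun θ : V => F (g (pt θ)) := by
    have h1 := Triv.of_homotopy
      (H := fun p : ℝ × V => F ((1 - p.1) • g (pt p.2) + p.1 • h (pt p.2))) ?_ ?_ ?_
    · refine h1.congr fun θ hθ => ?_
      simp
    · refine hFc.comp ?_ ?_
      · refine ((continuousOn_const.sub continuousOn_fst).smul ?_).add
          (continuousOn_fst.smul (hh.comp (hptc.comp continuous_snd)).continuousOn)
        exact hg.comp (hptc.comp continuous_snd).continuousOn fun p hp => hptΩ _ hp.2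
      · rintro ⟨s, θ⟩ ⟨hs, hθ⟩
        exact hseg _ (hptm θ hθ) s hs
    · intro s hs θ hθ
      exact hF0 _ (hseg _ (hptm θ hθ) s hs)
    · refine T1.congr fun θ hθ => ?_
      show F (h (pt θ)) = F ((1 - 1 : ℝ) • g (pt θ) + (1 : ℝ) • h (pt θ))
      rw [sub_self, zero_smul, zero_add, one_smul]
  -- contradiction
  refine not_triv_smul (W := V) (r := r) (by linarith) (T0.congr fun θ hθ => ?_)
  rw [hF]
  simp only
  rw [hgg _ (hptΩ θ hθ)]
  apply Subtype.ext
  rw [V.coe_orthogonalProjectionOnto_apply]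
  exact starProjection_point θ.2 hz r

end Pool.Agent.K6.H31.WT
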