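import Pool.Agent.K6.H31.WT.Mob
import Pool.Agent.K6.H31.WT.Onto

/-!
# Homeomorphisms of the tube
-/

set_option autoImplicit false

open Set Filter Topology MeasureTheory Metric Module
open scoped ContDiff ENNReal NNReal RealInnerProductSpace

namespace Pool.Agent.K6.H31.WT

variable {E : Type*} [NormedAddCommGroup E] [InnerProductSpace ℝ E] [FiniteDimensional ℝ E]

/-- the nearest point of the unit sphere of `V` -/
noncomputable def om (V : Submodule ℝ E) (x : E) : E := ‖V.starProjection x‖⁻¹ • V.starProjection x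

/-- the distance to the unit sphere of `V` -/
noncomputable def ss (V : Submodule ℝ E) (x : E) : ℝ := √(qq V x)

/-- a map which acts on the sphere by `φ` and on the normal discs by the radial profile `m` -/
noncomputable def Fm (V : Submodule ℝ E) (m : ℝ → ℝ) (φ : E → E) (x : E) : E :=
  (1 + m (ss V x) * (‖V.starProjection x‖ - 1)) • φ (om V x) + m (ss V x) • (x - V.starProjection x)

variable {V : Submodule ℝ E}

theorem qq_nonneg (x : E) : 0 ≤ qq V x := by
  unfold qq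
  positivity

theorem ss_nonneg (x : E) : 0 ≤ ss V x := Real.sqrt_nonneg _

theorem ss_sq (x : E) : ss V x ^ 2 = qq V x := Real.sq_sqrt (qq_nonneg x)

theorem ss_lt_iff {x : E} {r : ℝ} (hr : 0 < r) : x ∈ Tub V r ↔ ss V x < r := by
  show qq V x < r ^ 2 ↔ √(qq V x) < r
  rw [Real.sqrt_lt' hr]

theorem ss_continuous : Continuous (ss V) := qq_continuous.sqrt

theorem om_mem (x : E) : om V x ∈ V := V.smul_mem _ (V.starProjection_apply_mem _)

theorem norm_om {x : E} (hx : V.starProjection x ≠ 0) : ‖om V x‖ = 1 := by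
  unfold om
  rw [norm_smul, norm_inv, norm_norm, inv_mul_cancel₀ (norm_ne_zero_iff.2 hx)]

theorem P_ne {x : E} (hx : x ∈ Tub V (1 / 2)) : V.starProjection x ≠ 0 := by
  rw [← norm_pos_iff]
  linarith [(norm_starProjection_lt (by norm_num) hx).1]

theorem norm_smul_om {x : E} (hx : V.starProjection x ≠ 0) :
    ‖V.starProjection x‖ • om V x = V.starProjection x := by
  unfold om
  rw [smul_smul, mul_inv_cancel₀ (norm_ne_zero_iff.2 hx), one_smul]

theorem abs_norm_sub_le_ss (x : E) : |‖V.starProjection x‖ - 1| ≤ ss V x := by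
  apply Real.abs_le_sqrt
  unfold qq
  nlinarith [sq_nonneg ‖x - V.starProjection x‖]

theorem norm_sub_le_ss (x : E) : ‖x - V.starProjection x‖ ≤ ss V x := by
  apply Real.le_sqrt_of_sq_le
  unfold qq
  nlinarith [sq_nonneg (‖V.starProjection x‖ - 1)]

/-- the map in coordinates -/
theorem starProjection_comb {θ z : E} (hθ : θ ∈ V) (hz : z ∈ Vᗮ) (a b : ℝ) :
    V.starProjection (a • θ + b • z) = a • θ := by
  have h := starProjection_point (V := V) (V.smul_mem a hθ) (Vᗮ.smul_mem b hz) 1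
  simpa using h

theorem sub_mem_orth (x : E) : x - V.starProjection x ∈ Vᗮ := V.sub_starProjection_mem_orthogonal x

section

variable {m : ℝ → ℝ} {φ : E → E} {x : E}

theorem P_Fm (hφ : φ (om V x) ∈ V) :
    V.starProjection (Fm V m φ x) = (1 + m (ss V x) * (‖V.starProjection x‖ - 1)) • φ (om V x) :=
  starProjection_comb hφ (sub_mem_orth x) _ _

theorem abs_m_le (h0 : 0 ≤ m (ss V x)) (h : m (ss V x) * ss V x < 1 / 2) :
    |m (ss V x) * (‖V.starProjection x‖ - 1)| < 1 / 2 := by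
  rw [abs_mul, abs_of_nonneg h0]
  exact (mul_le_mul_of_nonneg_left (abs_norm_sub_le_ss x) h0).trans_lt h

theorem norm_P_Fm (hφ : φ (om V x) ∈ V) (hφ1 : ‖φ (om V x)‖ = 1) (h0 : 0 ≤ m (ss V x))
    (h : m (ss V x) * ss V x < 1 / 2) :
    ‖V.starProjection (Fm V m φ x)‖ = 1 + m (ss V x) * (‖V.starProjection x‖ - 1) := by
  rw [P_Fm hφ, norm_smul, hφ1, mul_one, Real.norm_eq_abs, abs_of_nonneg]
  have := (abs_lt.1 (abs_m_le h0 h)).1
  linarith

theorem sub_P_Fm (hφ : φ (om V x) ∈ V) :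
    Fm V m φ x - V.starProjection (Fm V m φ x) = m (ss V x) • (x - V.starProjection x) := by
  rw [P_Fm hφ]
  unfold Fm
  abel

theorem ss_Fm (hφ : φ (om V x) ∈ V) (hφ1 : ‖φ (om V x)‖ = 1) (h0 : 0 ≤ m (ss V x))
    (h : m (ss V x) * ss V x < 1 / 2) : ss V (Fm V m φ x) = m (ss V x) * ss V x := by
  have h1 : qq V (Fm V m φ x) = (m (ss V x) * ss V x) ^ 2 := by
    rw [mul_pow, ss_sq]
    unfold qq
    rw [norm_P_Fm hφ hφ1 h0 h, sub_P_Fm hφ, norm_smul, Real.norm_eq_abs, mul_pow, sq_abs]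
    ring
  show √(qq V (Fm V m φ x)) = _
  rw [h1, Real.sqrt_sq (mul_nonneg h0 (ss_nonneg _))]

theorem om_Fm (hφ : φ (om V x) ∈ V) (hφ1 : ‖φ (om V x)‖ = 1) (h0 : 0 ≤ m (ss V x))
    (h : m (ss V x) * ss V x < 1 / 2) : om V (Fm V m φ x) = φ (om V x) := by
  have h2 : 0 < 1 + m (ss V x) * (‖V.starProjection x‖ - 1) := by
    have := (abs_lt.1 (abs_m_le h0 h)).1
    linarith
  conv_lhs => unfold om
  rw [norm_P_Fm hφ hφ1 h0 h, P_Fm hφ, smul_smul, inv_mul_cancel₀ h2.ne', one_smul]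

theorem Fm_Fm {m' : ℝ → ℝ} {φ' : E → E} (hx : V.starProjection x ≠ 0)
    (hφ : φ (om V x) ∈ V) (hφ1 : ‖φ (om V x)‖ = 1)
    (h0 : 0 ≤ m (ss V x)) (h : m (ss V x) * ss V x < 1 / 2)
    (hm : m' (m (ss V x) * ss V x) * m (ss V x) = 1) (hφφ : φ' (φ (om V x)) = om V x) :
    Fm V m' φ' (Fm V m φ x) = x := by
  have h1 : Fm V m' φ' (Fm V m φ x) = (1 + m' (ss V (Fm V m φ x)) *
      (‖V.starProjection (Fm V m φ x)‖ - 1)) • φ' (om V (Fm V m φ x)) +
      m' (ss V (Fm V m φ x)) • (Fm V m φ x - V.starProjection (Fm V m φ x)) := rfl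
  rw [h1, sub_P_Fm hφ, norm_P_Fm hφ hφ1 h0 h, om_Fm hφ hφ1 h0 h, ss_Fm hφ hφ1 h0 h, hφφ, smul_smul,
    hm, one_smul, add_sub_cancel_left, ← mul_assoc, hm, one_mul, add_sub_cancel, norm_smul_om hx]
  abel

theorem Fm_mem (hφ : φ (om V x) ∈ V) (hφ1 : ‖φ (om V x)‖ = 1) (h0 : 0 ≤ m (ss V x))
    (h : m (ss V x) * ss V x < 1 / 2) : Fm V m φ x ∈ Tub V (1 / 2) := by
  rw [ss_lt_iff (by norm_num), ss_Fm hφ hφ1 h0 h]
  exact h

end

/-! ### Lipschitz estimates -/

theorem norm_P_le (x : E) : ‖V.starProjection x‖ ≤ ‖x‖ := V.norm_starProjection_apply_le x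

theorem norm_sub_P_le (x : E) : ‖x - V.starProjection x‖ ≤ 2 * ‖x‖ := by
  have := norm_sub_le x (V.starProjection x)
  linarith [norm_P_le (V := V) x]

theorem abs_norm_P_sub (x y : E) : |‖V.starProjection x‖ - ‖V.starProjection y‖| ≤ ‖x - y‖ := by
  refine (abs_norm_sub_norm_le _ _).trans ?_
  rw [← map_sub]
  exact norm_P_le _

theorem norm_sub_P_sub (x y : E) :
    ‖(x - V.starProjection x) - (y - V.starProjection y)‖ ≤ 2 * ‖x - y‖ := by
  have h : (x - V.starProjection x) - (y - V.starProjection y) =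
      (x - y) - V.starProjection (x - y) := by
    rw [map_sub]
    abel
  rw [h]
  exact norm_sub_P_le _

theorem ss_eq (x : E) :
    ss V x = ‖((‖V.starProjection x‖ - 1 : ℝ) : ℂ) + (‖x - V.starProjection x‖ : ℝ) * Complex.I‖ := by
  rw [Complex.norm_add_mul_I]
  rfl

theorem abs_ss_sub (x y : E) : |ss V x - ss V y| ≤ 3 * ‖x - y‖ := by
  rw [ss_eq, ss_eq]
  refine (abs_norm_sub_norm_le _ _).trans ?_
  have h : (((‖V.starProjection x‖ - 1 : ℝ) : ℂ) + (‖x - V.starProjection x‖ : ℝ) * Complex.I) -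
      (((‖V.starProjection y‖ - 1 : ℝ) : ℂ) + (‖y - V.starProjection y‖ : ℝ) * Complex.I) =
      ((‖V.starProjection x‖ - ‖V.starProjection y‖ : ℝ) : ℂ) +
        ((‖x - V.starProjection x‖ - ‖y - V.starProjection y‖ : ℝ) : ℂ) * Complex.I := by
    push_cast
    ring
  rw [h]
  refine (norm_add_le _ _).trans ?_
  rw [norm_mul, Complex.norm_I, mul_one, Complex.norm_real, Complex.norm_real, Real.norm_eq_abs,
    Real.norm_eq_abs]
  have h1 := abs_norm_P_sub (V := V) x y
  have h2 := (abs_norm_sub_norm_le (x - V.starProjection x) (y - V.starProjection y)).trans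
    (norm_sub_P_sub x y)
  linarith

theorem norm_om_sub {x y : E} (hx : 1 / 2 < ‖V.starProjection x‖) (hy : 1 / 2 < ‖V.starProjection y‖) :
    ‖om V x - om V y‖ ≤ 4 * ‖x - y‖ := by
  have hx0 : (0 : ℝ) < ‖V.starProjection x‖ := by linarith
  have hy0 : (0 : ℝ) < ‖V.starProjection y‖ := by linarith
  have h1 : om V x - om V y = ‖V.starProjection x‖⁻¹ • ((V.starProjection x - V.starProjection y) +
      (‖V.starProjection y‖ - ‖V.starProjection x‖) • om V y) := by
    have h2 : V.starProjection y = ‖V.starProjection y‖ • om V y :=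
      (norm_smul_om (norm_pos_iff.1 hy0)).symm
    have h3 : (V.starProjection x - V.starProjection y) +
      (‖V.starProjection y‖ - ‖V.starProjection x‖) • om V y =
        V.starProjection x - ‖V.starProjection x‖ • om V y := by
      conv_lhs => rw [show V.starProjection x - V.starProjection y = V.starProjection x - ‖V.starProjection y‖ • om V y by rw [← h2]]
      rw [sub_smul]
      abel
    rw [h3, smul_sub, smul_smul, inv_mul_cancel₀ hx0.ne', one_smul]
    rfl
  rw [h1, norm_smul, norm_inv, norm_norm]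
  have h4 : ‖(V.starProjection x - V.starProjection y) +
      (‖V.starProjection y‖ - ‖V.starProjection x‖) • om V y‖ ≤ 2 * ‖x - y‖ := by
    refine (norm_add_le _ _).trans ?_
    rw [norm_smul, norm_om (norm_pos_iff.1 hy0), mul_one, Real.norm_eq_abs, abs_sub_comm, ← map_sub]
    have h5 := abs_norm_P_sub (V := V) x y
    have h6 := norm_P_le (V := V) (x - y)
    linarith
  have h7 : ‖V.starProjection x‖⁻¹ ≤ 2 := by
    rw [inv_le_comm₀ hx0 (by norm_num)]
    linarith
  have h8 : 0 ≤ ‖V.starProjection x‖⁻¹ := inv_nonneg.2 hx0.le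
  nlinarith [norm_nonneg (x - y), norm_nonneg ((V.starProjection x - V.starProjection y) +
      (‖V.starProjection y‖ - ‖V.starProjection x‖) • om V y)]

theorem norm_Fm_sub {m : ℝ → ℝ} {φ : E → E} {L M Λ : ℝ} (hL0 : 0 ≤ L) (hL : ∀ a b, |m a - m b| ≤ L * |a - b|)
    (hm0 : ∀ s, 0 ≤ m s) (hM : ∀ s, m s ≤ M) (hms : ∀ s, 0 ≤ s → s < 1 / 2 → m s * s < 1 / 2)
    {x y : E} (hx : x ∈ Tub V (1 / 2)) (hy : y ∈ Tub V (1 / 2))
    (hφx : ‖φ (om V x)‖ = 1)
    (hΛ0 : 0 ≤ Λ) (hΛ : ‖φ (om V x) - φ (om V y)‖ ≤ Λ * ‖om V x - om V y‖) :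
    ‖Fm V m φ x - Fm V m φ y‖ ≤ (3 * L + 3 * M + 6 * Λ) * ‖x - y‖ := by
  have hsx : ss V x < 1 / 2 := (ss_lt_iff (by norm_num)).1 hx
  have hsy : ss V y < 1 / 2 := (ss_lt_iff (by norm_num)).1 hy
  have hd : 0 ≤ ‖x - y‖ := norm_nonneg _
  set a := m (ss V x) with ha
  set b := m (ss V y) with hb
  set p := ‖V.starProjection x‖ with hp
  set q := ‖V.starProjection y‖ with hq
  have hab : |a - b| ≤ L * (3 * ‖x - y‖) :=
    (hL _ _).trans (mul_le_mul_of_nonneg_left (abs_ss_sub x y) hL0)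
  have h1 : Fm V m φ x - Fm V m φ y = ((a - b) * (p - 1) + b * (p - q)) • φ (om V x) +
      (1 + b * (q - 1)) • (φ (om V x) - φ (om V y)) + (a - b) • (x - V.starProjection x) +
      b • ((x - V.starProjection x) - (y - V.starProjection y)) := by
    unfold Fm
    rw [← ha, ← hb, ← hp, ← hq]
    module
  have e1 : ‖((a - b) * (p - 1) + b * (p - q)) • φ (om V x)‖ ≤ L * (3 * ‖x - y‖) * (1 / 2) + M * ‖x - y‖ := by
    rw [norm_smul, hφx, mul_one, Real.norm_eq_abs]
    refine (abs_add_le _ _).trans (add_le_add ?_ ?_)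
    · rw [abs_mul]
      exact mul_le_mul hab ((abs_norm_sub_le_ss x).trans hsx.le) (abs_nonneg _) (by positivity)
    · rw [abs_mul, abs_of_nonneg (hm0 _)]
      exact mul_le_mul (hM _) (abs_norm_P_sub x y) (abs_nonneg _) ((hm0 0).trans (hM 0))
  have e2 : ‖(1 + b * (q - 1)) • (φ (om V x) - φ (om V y))‖ ≤ 6 * Λ * ‖x - y‖ := by
    rw [norm_smul, Real.norm_eq_abs]
    have h2 : |1 + b * (q - 1)| ≤ 3 / 2 := by
      have := abs_lt.1 (abs_m_le (V := V) (x := y) (hm0 _) (hms _ (ss_nonneg _) hsy))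
      rw [abs_le]
      constructor <;> linarith [this.1, this.2]
    have h3 : ‖om V x - om V y‖ ≤ 4 * ‖x - y‖ :=
      norm_om_sub (by linarith [(norm_starProjection_lt (by norm_num) hx).1])
        (by linarith [(norm_starProjection_lt (by norm_num) hy).1])
    calc |1 + b * (q - 1)| * ‖φ (om V x) - φ (om V y)‖ ≤ 3 / 2 * (Λ * (4 * ‖x - y‖)) :=
          mul_le_mul h2 (hΛ.trans (mul_le_mul_of_nonneg_left h3 hΛ0)) (norm_nonneg _) (by norm_num)
      _ = 6 * Λ * ‖x - y‖ := by ring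
  have e3 : ‖(a - b) • (x - V.starProjection x)‖ ≤ L * (3 * ‖x - y‖) * (1 / 2) := by
    rw [norm_smul, Real.norm_eq_abs]
    exact mul_le_mul hab ((norm_sub_le_ss x).trans hsx.le) (norm_nonneg _) (by positivity)
  have e4 : ‖b • ((x - V.starProjection x) - (y - V.starProjection y))‖ ≤ M * (2 * ‖x - y‖) := by
    rw [norm_smul, Real.norm_eq_abs, abs_of_nonneg (hm0 _)]
    exact mul_le_mul (hM _) (norm_sub_P_sub x y) (norm_nonneg _) ((hm0 0).trans (hM 0))
  rw [h1]
  refine (norm_add_le _ _).trans ?_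
  refine (add_le_add (norm_add_le _ _) le_rfl).trans ?_
  refine (add_le_add (add_le_add (norm_add_le _ _) le_rfl) le_rfl).trans ?_
  nlinarith

/-! ### The profiles -/

/-- the radial profile -/
noncomputable def muP (ε s : ℝ) : ℝ := (2 - ε) - (1 - ε) / (2 * max s (1 / 4))

/-- the profile of the inverse -/
noncomputable def nuP (ε s : ℝ) : ℝ := (2 - ε)⁻¹ * (1 + (1 - ε) / (2 * max s (ε / 4)))

variable {ε s : ℝ}

theorem muP_small (hs : s ≤ 1 / 4) : muP ε s = ε := by
  unfold muP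
  rw [max_eq_right hs]
  ring

theorem muP_nonneg (h0 : 0 ≤ ε) (h1 : ε ≤ 1) (s : ℝ) : 0 ≤ muP ε s := by
  unfold muP
  have h2 : 1 / 4 ≤ max s (1 / 4) := le_max_right _ _
  have h3 : (1 - ε) / (2 * max s (1 / 4)) ≤ (1 - ε) / (2 * (1 / 4)) := by
    apply div_le_div_of_nonneg_left (by linarith) (by norm_num)
    linarith
  have h4 : (1 - ε) / (2 * (1 / 4 : ℝ)) = 2 * (1 - ε) := by ring
  linarith

theorem muP_le (h0 : 0 ≤ ε) (h1 : ε ≤ 1) (s : ℝ) : muP ε s ≤ 2 := by
  unfold muP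
  have h2 : 1 / 4 ≤ max s (1 / 4) := le_max_right _ _
  have h3 : 0 ≤ (1 - ε) / (2 * max s (1 / 4)) := div_nonneg (by linarith) (by linarith)
  linarith

theorem muP_mul_lt (h0 : 0 ≤ ε) (h1 : ε ≤ 1) (hs : s < 1 / 2) : muP ε s * s < 1 / 2 := by
  rcases le_or_gt s (1 / 4) with h | h
  · rw [muP_small h]
    nlinarith
  · unfold muP
    rw [max_eq_left h.le]
    have h2 : ((2 - ε) - (1 - ε) / (2 * s)) * s = (2 - ε) * s - (1 - ε) / 2 := by
      field_simp
    rw [h2]
    nlinarith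

theorem muP_lip (h0 : 0 ≤ ε) (h1 : ε ≤ 1) (a b : ℝ) : |muP ε a - muP ε b| ≤ 8 * |a - b| := by
  unfold muP
  set A := max a (1 / 4) with hA
  set B := max b (1 / 4) with hB
  have hA4 : 1 / 4 ≤ A := le_max_right _ _
  have hB4 : 1 / 4 ≤ B := le_max_right _ _
  have hAB : |A - B| ≤ |a - b| := abs_max_sub_max_le_abs _ _ _
  have h2 : (2 - ε) - (1 - ε) / (2 * A) - ((2 - ε) - (1 - ε) / (2 * B)) =
      ((1 - ε) / (2 * (A * B))) * (A - B) := by
    have hA0 : A ≠ 0 := by linarith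
    have hB0 : B ≠ 0 := by linarith
    field_simp
    ring
  rw [h2, abs_mul]
  have h3 : |(1 - ε) / (2 * (A * B))| ≤ 8 := by
    have hAB' : 1 / 16 ≤ A * B := by nlinarith
    rw [abs_of_nonneg (div_nonneg (by linarith) (by positivity)), div_le_iff₀ (by positivity)]
    linarith
  exact mul_le_mul h3 hAB (abs_nonneg _) (by norm_num)

theorem muP_continuous (ε : ℝ) : Continuous (muP ε) := by
  unfold muP
  refine continuous_const.sub (continuous_const.div (by fun_prop) fun s => ?_)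
  have : (1 : ℝ) / 4 ≤ max s (1 / 4) := le_max_right _ _
  linarith

theorem nuP_continuous (h0 : 0 < ε) : Continuous (nuP ε) := by
  unfold nuP
  refine continuous_const.mul (continuous_const.add (continuous_const.div (by fun_prop) fun s => ?_))
  have : ε / 4 ≤ max s (ε / 4) := le_max_right _ _
  linarith

theorem nuP_nonneg (h0 : 0 < ε) (h1 : ε < 1) (s : ℝ) : 0 ≤ nuP ε s := by
  unfold nuP
  have : ε / 4 ≤ max s (ε / 4) := le_max_right _ _
  have h2 : 0 ≤ (1 - ε) / (2 * max s (ε / 4)) := div_nonneg (by linarith) (by linarith)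
  have h3 : 0 < (2 - ε)⁻¹ := inv_pos.2 (by linarith)
  positivity

theorem nuP_small (h0 : 0 < ε) (h1 : ε < 1) (hs : s ≤ ε / 4) : nuP ε s = ε⁻¹ := by
  unfold nuP
  rw [max_eq_right hs]
  have : (2 - ε) ≠ 0 := by linarith
  field_simp
  ring

theorem nuP_mul (h0 : 0 < ε) (hs : ε / 4 < s) :
    nuP ε s * s = (2 - ε)⁻¹ * (s + (1 - ε) / 2) := by
  unfold nuP
  rw [max_eq_left hs.le]
  have hs0 : s ≠ 0 := by linarith
  field_simp

theorem muP_mul (hs : 1 / 4 < s) : muP ε s * s = (2 - ε) * s - (1 - ε) / 2 := by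
  unfold muP
  rw [max_eq_left hs.le]
  have hs0 : s ≠ 0 := by linarith
  field_simp

theorem nuP_mul_lt (h0 : 0 < ε) (h1 : ε < 1) (hs : s < 1 / 2) : nuP ε s * s < 1 / 2 := by
  rcases le_or_gt s (ε / 4) with h | h
  · rw [nuP_small h0 h1 h]
    have : ε⁻¹ * s ≤ ε⁻¹ * (ε / 4) := mul_le_mul_of_nonneg_left h (by positivity)
    have h2 : ε⁻¹ * (ε / 4) = 1 / 4 := by field_simp
    linarith
  · rw [nuP_mul h0 h, inv_mul_lt_iff₀ (by linarith)]
    linarith

theorem nuP_muP (h0 : 0 < ε) (h1 : ε < 1) : nuP ε (muP ε s * s) * muP ε s = 1 := by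
  rcases le_or_gt s (1 / 4) with h | h
  · rw [muP_small h, nuP_small h0 h1 (by nlinarith)]
    exact inv_mul_cancel₀ h0.ne'
  · have h2 := muP_mul (ε := ε) h
    have h3 : ε / 4 < muP ε s * s := by
      rw [h2]
      nlinarith
    have h4 := nuP_mul h0 h3
    have hs0 : s ≠ 0 := by linarith
    have h5 : nuP ε (muP ε s * s) * muP ε s * s = s := by
      rw [mul_assoc, h4, h2]
      have : (2 - ε) ≠ 0 := by linarith
      field_simp
      ring
    have h6 := mul_right_cancel₀ hs0 (h5.trans (one_mul s).symm)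
    exact h6

theorem muP_nuP (h0 : 0 < ε) (h1 : ε < 1) : muP ε (nuP ε s * s) * nuP ε s = 1 := by
  rcases le_or_gt s (ε / 4) with h | h
  · have h2 : ε⁻¹ * s ≤ ε⁻¹ * (ε / 4) := mul_le_mul_of_nonneg_left h (by positivity)
    have h3 : ε⁻¹ * (ε / 4) = 1 / 4 := by field_simp
    rw [nuP_small h0 h1 h, muP_small (by linarith)]
    exact mul_inv_cancel₀ h0.ne'
  · have h2 := nuP_mul h0 h
    have h3 : 1 / 4 < nuP ε s * s := by
      rw [h2, lt_inv_mul_iff₀ (by linarith)]
      linarith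
    have h4 := muP_mul (ε := ε) h3
    have hs0 : s ≠ 0 := by linarith
    have h5 : muP ε (nuP ε s * s) * nuP ε s * s = s := by
      rw [mul_assoc, h4, h2]
      have : (2 - ε) ≠ 0 := by linarith
      field_simp
      ring
    exact mul_right_cancel₀ hs0 (h5.trans (one_mul s).symm)

end Pool.Agent.K6.H31.WT
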