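import Pool.Agent.K6.H31.WS.Sob

/-!
# Weak convergence of gradients bounded in `L^p`
-/

set_option autoImplicit false

open Set Filter Topology MeasureTheory
open scoped ContDiff ENNReal NNReal

namespace Pool.Agent.K6.H31.WT

open Pool.Agent.K6.H31.WS

variable {E : Type*} [NormedAddCommGroup E] [InnerProductSpace ℝ E] [FiniteDimensional ℝ E]
  [MeasurableSpace E] [BorelSpace E]

/-- test functions are dense in `L^q(Ω)` -/
theorem exists_test_approx_pow {Ω : Set E} (hΩ : IsOpen Ω) (hvol : volume Ω ≠ ⊤) {q : ℝ≥0∞}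
    (hq1 : 1 ≤ q) (hq : q ≠ ⊤) {h : E → ℝ}
    (hh : MemLp h q (volume.restrict Ω)) {ε : ℝ} (hε : 0 < ε) :
    ∃ φ : E → ℝ, ContDiff ℝ ∞ φ ∧ HasCompactSupport φ ∧ tsupport φ ⊆ Ω ∧
      eLpNorm (fun x => h x - φ x) q (volume.restrict Ω) ≤ ENNReal.ofReal ε := by
  have hΩm := hΩ.measurableSet
  have hqr : 1 ≤ q.toReal := by
    have := ENNReal.toReal_mono hq hq1
    rwa [ENNReal.toReal_one] at this
  have hqr0 : 0 < q.toReal := by linarith
  -- a smooth function
  have h1 : MemLp (Ω.indicator h) q (volume : Measure E) := (memLp_indicator_iff_restrict hΩm).2 hh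
  obtain ⟨g, hgc, hg, hge⟩ := MemLp.exist_eLpNorm_sub_le hq hq1 h1 (half_pos hε)
  obtain ⟨M, hM⟩ : ∃ M, ∀ x, ‖g x‖ ≤ M := hgc.exists_bound_of_continuous hg.continuous
  have hM0 : 0 ≤ M := (norm_nonneg _).trans (hM 0)
  set η : ℝ := (ε / (2 * (M + 1))) ^ q.toReal with hηd
  have hη : ENNReal.ofReal η ≠ 0 := by
    have : 0 < η := by positivity
    simpa using this
  obtain ⟨K, hKΩ, hK, hKv⟩ := hΩm.exists_isCompact_sdiff_lt hvol hη
  obtain ⟨K', hK', hKK', hK'Ω⟩ := exists_compact_between hK hΩ hKΩ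
  obtain ⟨χ, hχ1, hχ0, hχ⟩ := exists_contMDiffMap_one_nhds_of_subset_interior
    (n := ⊤) (modelWithCornersSelf ℝ E) hK.isClosed hKK'
  have hχs : ContDiff ℝ ∞ χ := χ.contMDiff.contDiff
  have hts : tsupport (fun x => χ x * g x) ⊆ K' := by
    apply closure_minimal _ hK'.isClosed
    intro x hx
    by_contra h2
    apply hx
    show χ x * g x = 0
    rw [hχ0 x h2, zero_mul]
  refine ⟨fun x => χ x * g x, hχs.mul hg, ?_, hts.trans hK'Ω, ?_⟩
  · exact hK'.of_isClosed_subset (isClosed_tsupport _) hts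
  · have h2 : eLpNorm (fun x => h x - g x) q (volume.restrict Ω) ≤ ENNReal.ofReal (ε / 2) := by
      refine le_trans ?_ hge
      refine le_trans (le_of_eq ?_) (eLpNorm_mono_measure (Ω.indicator h - g)
        (Measure.restrict_le_self (s := Ω)))
      apply eLpNorm_congr_ae
      filter_upwards [ae_restrict_mem hΩm] with x hx
      rw [Pi.sub_apply, indicator_of_mem hx]
    have h3 : eLpNorm (fun x => g x - χ x * g x) q (volume.restrict Ω) ≤ ENNReal.ofReal (ε / 2) := by
      calc eLpNorm (fun x => g x - χ x * g x) q (volume.restrict Ω)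
          ≤ eLpNorm ((Ω \ K).indicator (fun _ => M)) q (volume.restrict Ω) := by
            apply eLpNorm_mono_ae
            filter_upwards [ae_restrict_mem hΩm] with x hx
            by_cases hxK : x ∈ K
            · have : χ x = 1 := hχ1.self_of_nhdsSet x hxK
              rw [this, one_mul, sub_self, norm_zero]
              exact norm_nonneg _
            · have hxm : x ∈ Ω \ K := ⟨hx, hxK⟩
              rw [indicator_of_mem hxm, Real.norm_eq_abs M, abs_of_nonneg hM0]
              have h4 : g x - χ x * g x = (1 - χ x) * g x := by ring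
              rw [h4, norm_mul, Real.norm_eq_abs, abs_of_nonneg (by linarith [(hχ x).2])]
              have h5 := hM x
              have h6 := (hχ x).1
              nlinarith [norm_nonneg (g x)]
        _ = ‖M‖ₑ * (volume.restrict Ω) (Ω \ K) ^ (1 / q.toReal) :=
            eLpNorm_indicator_const (hΩm.diff hK.measurableSet) (by
              intro h0; rw [h0] at hq1; simp at hq1) hq
        _ ≤ ENNReal.ofReal M * ENNReal.ofReal (ε / (2 * (M + 1))) := by
            gcongr
            · rw [Real.enorm_eq_ofReal hM0]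
            · calc (volume.restrict Ω) (Ω \ K) ^ (1 / q.toReal)
                  ≤ (ENNReal.ofReal η) ^ (1 / q.toReal) := by
                    gcongr
                    exact (Measure.restrict_apply_le _ _).trans hKv.le
                _ = ENNReal.ofReal (ε / (2 * (M + 1))) := by
                    rw [hηd, ENNReal.ofReal_rpow_of_pos (by positivity), ← Real.rpow_mul (by positivity),
                      mul_one_div_cancel hqr0.ne', Real.rpow_one]
        _ = ENNReal.ofReal (M * (ε / (2 * (M + 1)))) := (ENNReal.ofReal_mul hM0).symm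
        _ ≤ ENNReal.ofReal (ε / 2) := by
            apply ENNReal.ofReal_le_ofReal
            rw [mul_div_assoc', div_le_div_iff₀ (by positivity) (by positivity)]
            nlinarith
    have hgm : AEStronglyMeasurable g (volume.restrict Ω) := hg.continuous.aestronglyMeasurable
    have hcm : AEStronglyMeasurable (fun x => χ x * g x) (volume.restrict Ω) :=
      (hχs.mul hg).continuous.aestronglyMeasurable
    have h4 : (fun x => h x - χ x * g x) = (fun x => h x - g x) + (fun x => g x - χ x * g x) := by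
      funext x
      simp only [Pi.add_apply]
      ring
    rw [h4]
    refine (eLpNorm_add_le (hh.aestronglyMeasurable.sub hgm) (hgm.sub hcm) hq1).trans ?_
    refine (add_le_add h2 h3).trans ?_
    rw [← ENNReal.ofReal_add (by positivity) (by positivity), add_halves]

omit [FiniteDimensional ℝ E] [BorelSpace E] in
theorem enorm_integral_smul_le {μ : Measure E} {p q : ℝ≥0∞} [ENNReal.HolderTriple q p 1] {ψ : E → ℝ}
    {H : E → E →L[ℝ] E} (hψ : AEStronglyMeasurable ψ μ) (hH : AEStronglyMeasurable H μ) (v : E) :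
    ‖∫ x, ψ x • H x v ∂μ‖ₑ ≤ ‖v‖ₑ * (eLpNorm ψ q μ * eLpNorm H p μ) := by
  refine (enorm_integral_le_lintegral_enorm _).trans ?_
  calc ∫⁻ x, ‖ψ x • H x v‖ₑ ∂μ ≤ ∫⁻ x, ‖v‖ₑ * ‖(ψ • H) x‖ₑ ∂μ := by
        apply lintegral_mono
        intro x
        show ‖ψ x • H x v‖ₑ ≤ ‖v‖ₑ * ‖ψ x • H x‖ₑ
        rw [mul_comm]
        exact (ψ x • H x).le_opENorm v
    _ = ‖v‖ₑ * eLpNorm (ψ • H) 1 μ := by
        rw [lintegral_const_mul' _ _ enorm_ne_top, eLpNorm_one_eq_lintegral_enorm]
    _ ≤ _ := by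
        gcongr
        exact eLpNorm_smul_le_mul_eLpNorm hH hψ

omit [FiniteDimensional ℝ E] [BorelSpace E] in
theorem integrable_smul_apply {μ : Measure E} {p q : ℝ≥0∞} [ENNReal.HolderTriple q p 1] {ψ : E → ℝ}
    {H : E → E →L[ℝ] E} (hψ : MemLp ψ q μ) (hH : MemLp H p μ) (v : E) :
    Integrable (fun x => ψ x • H x v) μ := by
  have h1 : MemLp (ψ • H) 1 μ := hH.smul hψ
  exact (ContinuousLinearMap.apply ℝ E v).integrable_comp (memLp_one_iff_integrable.1 h1)

/-- Weak convergence of gradients which are bounded in `L^p`, `p > 1`. -/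
theorem tendsto_grad_pow {Ω : Set E} (hΩ : IsOpen Ω) (hvol : volume Ω ≠ ⊤) {p q : ℝ≥0∞}
    [ENNReal.HolderTriple q p 1] (hq1 : 1 ≤ q) (hq : q ≠ ⊤) {f : E → E}
    {fk : ℕ → E → E} {G : E → E →L[ℝ] E} {Gk : ℕ → E → E →L[ℝ] E} {B : ℝ} {C : ℝ≥0}
    (hf : HasWeakGrad Ω f G) (hfk : ∀ k, HasWeakGrad Ω (fk k) (Gk k))
    (hm : ∀ k, AEStronglyMeasurable (fk k) (volume.restrict Ω))
    (hG : MemLp G p (volume.restrict Ω)) (hGk : ∀ k, MemLp (Gk k) p (volume.restrict Ω))
    (hb : ∀ k, ∀ x ∈ Ω, ‖fk k x‖ ≤ B)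
    (hGb : eLpNorm G p (volume.restrict Ω) ≤ C) (hGkb : ∀ k, eLpNorm (Gk k) p (volume.restrict Ω) ≤ C)
    (hlim : ∀ᵐ x ∂(volume.restrict Ω), Tendsto (fun k => fk k x) atTop (𝓝 (f x))) {h : E → ℝ}
    (hh : MemLp h q (volume.restrict Ω)) (v : E) :
    Tendsto (fun k => ∫ x in Ω, h x • Gk k x v) atTop (𝓝 (∫ x in Ω, h x • G x v)) := by
  have hΩm := hΩ.measurableSet
  rw [Metric.tendsto_atTop]
  intro ε hε
  set δ : ℝ := ε / (4 * (C * ‖v‖ + 1)) with hδ
  have hCv : 0 ≤ C * ‖v‖ := mul_nonneg C.2 (norm_nonneg _)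
  have hδ0 : 0 < δ := by positivity
  obtain ⟨φ, hφ, hφc, hφs, hφh⟩ := exists_test_approx_pow hΩ hvol hq1 hq hh hδ0
  have hφq : MemLp φ q (volume.restrict Ω) := (hφ.continuous.memLp_of_hasCompactSupport hφc).restrict Ω
  -- convergence for the test function
  have htest : Tendsto (fun k => ∫ x in Ω, φ x • Gk k x v) atTop (𝓝 (∫ x in Ω, φ x • G x v)) := by
    have h1 : ∀ k, ∫ x in Ω, φ x • Gk k x v = - ∫ x in Ω, (fderiv ℝ φ x v) • fk k x := by
      intro k
      rw [hfk k φ hφ hφc hφs v, neg_neg]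
    have h2 : ∫ x in Ω, φ x • G x v = - ∫ x in Ω, (fderiv ℝ φ x v) • f x := by
      rw [hf φ hφ hφc hφs v, neg_neg]
    simp only [h1]
    rw [h2]
    apply Tendsto.neg
    have hdφ : Continuous fun x => fderiv ℝ φ x v :=
      (hφ.continuous_fderiv (by simp)).clm_apply continuous_const
    have hdφc : HasCompactSupport fun x => fderiv ℝ φ x v := (hφc.fderiv ℝ).comp_left (g := fun L : E →L[ℝ] ℝ => L v) rfl
    have hdi : Integrable fun x => fderiv ℝ φ x v := hdφ.integrable_of_hasCompactSupport hdφc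
    refine tendsto_integral_of_dominated_convergence (fun x => B * ‖fderiv ℝ φ x v‖) ?_ ?_ ?_ ?_
    · exact fun k => hdφ.aestronglyMeasurable.smul (hm k)
    · exact (hdi.norm.const_mul _).integrableOn
    · intro k
      filter_upwards [ae_restrict_mem hΩm] with x hx
      rw [norm_smul, mul_comm]
      exact mul_le_mul_of_nonneg_right (hb k x hx) (norm_nonneg _)
    · filter_upwards [hlim] with x hx
      exact hx.const_smul _
  rw [Metric.tendsto_atTop] at htest
  obtain ⟨k₀, hk₀⟩ := htest (ε / 4) (by positivity)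
  refine ⟨k₀, fun k hk => ?_⟩
  have herr : ∀ (H : E → E →L[ℝ] E), MemLp H p (volume.restrict Ω) →
      eLpNorm H p (volume.restrict Ω) ≤ C → ‖(∫ x in Ω, h x • H x v) - ∫ x in Ω, φ x • H x v‖ ≤ ε / 4 := by
    intro H hH hHb
    rw [← integral_sub (integrable_smul_apply hh hH v) (integrable_smul_apply hφq hH v)]
    have h1 : ∫ x in Ω, (h x • H x v - φ x • H x v) = ∫ x in Ω, (h x - φ x) • H x v := by
      congr 1
      funext x
      rw [sub_smul]
    rw [h1]
    have h2 := enorm_integral_smul_le (p := p) (q := q) (μ := volume.restrict Ω) (ψ := fun x => h x - φ x)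
      (hh.aestronglyMeasurable.sub hφq.aestronglyMeasurable) hH.aestronglyMeasurable v
    have h3 : ‖∫ x in Ω, (h x - φ x) • H x v‖ₑ ≤ ENNReal.ofReal (ε / 4) := by
      refine h2.trans ?_
      calc ‖v‖ₑ * (eLpNorm (fun x => h x - φ x) q (volume.restrict Ω) * eLpNorm H p (volume.restrict Ω))
          ≤ ENNReal.ofReal ‖v‖ * (ENNReal.ofReal δ * ENNReal.ofReal C) := by
            gcongr
            · rw [ofReal_norm]
            · rw [ENNReal.ofReal_coe_nnreal]
              exact hHb
        _ = ENNReal.ofReal (‖v‖ * (δ * C)) := by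
            rw [ENNReal.ofReal_mul (norm_nonneg _), ENNReal.ofReal_mul hδ0.le]
        _ ≤ ENNReal.ofReal (ε / 4) := by
            apply ENNReal.ofReal_le_ofReal
            have h5 : ‖v‖ * (δ * C) = C * ‖v‖ * δ := by ring
            rw [h5, hδ, mul_div_assoc', div_le_div_iff₀ (by positivity) (by positivity)]
            nlinarith
    have h4 := ENNReal.toReal_mono ENNReal.ofReal_ne_top h3
    rwa [toReal_enorm, ENNReal.toReal_ofReal (by positivity)] at h4
  have h1 := herr (Gk k) (hGk k) (hGkb k)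
  have h2 := herr G hG hGb
  have h3 := hk₀ k hk
  rw [dist_eq_norm] at h3 ⊢
  set a := ∫ x in Ω, h x • Gk k x v with ha
  set b := ∫ x in Ω, φ x • Gk k x v with hb'
  set c := ∫ x in Ω, h x • G x v with hc'
  set d := ∫ x in Ω, φ x • G x v with hd'
  have h4 : a - c = (a - b) + (b - d) - (c - d) := by abel
  rw [h4]
  calc _ ≤ ‖(a - b) + (b - d)‖ + ‖c - d‖ := norm_sub_le _ _
    _ ≤ ‖a - b‖ + ‖b - d‖ + ‖c - d‖ := by
        gcongr
        exact norm_add_le _ _
    _ < ε := by linarith

end Pool.Agent.K6.H31.WT
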