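import Pool.Agent.K6.H31.WT.MapF
import Pool.Agent.K6.H31.WT.Sob2

/-!
# The homeomorphisms `F τ ε` of the tube and their limit
-/

set_option autoImplicit false

open Set Filter Topology MeasureTheory Metric Module
open scoped ContDiff ENNReal NNReal RealInnerProductSpace

namespace Pool.Agent.K6.H31.WT

open Pool.Agent.K6.H31.WS

variable {E : Type*} [NormedAddCommGroup E] [InnerProductSpace ℝ E] [FiniteDimensional ℝ E]
  {V : Submodule ℝ E} {e : E} {τ ε : ℝ}

omit [FiniteDimensional ℝ E] in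
theorem mob_mem {w : E} (he : e ∈ V) (hw : w ∈ V) : mob τ e w ∈ V := by
  unfold mob
  exact V.smul_mem _ (V.add_mem (V.smul_mem _ (V.sub_mem hw (V.smul_mem _ he))) (V.smul_mem _ he))

theorem om_continuousOn : ContinuousOn (om V) (Tub V (1 / 2)) := by
  unfold om
  apply ContinuousOn.smul
  · apply ContinuousOn.inv₀
    · exact (V.starProjection.continuous.norm).continuousOn
    · intro x hx
      exact norm_ne_zero_iff.2 (P_ne hx)
  · exact V.starProjection.continuous.continuousOn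

omit [FiniteDimensional ℝ E] in
theorem mob_continuousOn (hτ : |τ| < 1) (he1 : ‖e‖ = 1) : ContinuousOn (mob τ e) {w | ‖w‖ = 1} := by
  unfold mob
  apply ContinuousOn.smul
  · apply ContinuousOn.inv₀
    · exact (by fun_prop : Continuous fun w : E => 1 + τ * ⟪e, w⟫).continuousOn
    · intro w hw
      exact (den_pos hτ he1 hw).ne'
  · exact (by fun_prop : Continuous fun w : E =>
      √(1 - τ ^ 2) • (w - ⟪e, w⟫ • e) + (⟪e, w⟫ + τ) • e).continuousOn

theorem Fm_continuousOn {m : ℝ → ℝ} (hm : Continuous m) {φ : E → E}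
    (hφ : ContinuousOn φ {w | ‖w‖ = 1}) : ContinuousOn (Fm V m φ) (Tub V (1 / 2)) := by
  unfold Fm
  have h1 : Continuous fun x : E => m (ss V x) := hm.comp ss_continuous
  have h2 : Continuous fun x : E => V.starProjection x := V.starProjection.continuous
  apply ContinuousOn.add
  · apply ContinuousOn.smul
    · exact (continuous_const.add (h1.mul (h2.norm.sub continuous_const))).continuousOn
    · exact hφ.comp om_continuousOn fun x hx => norm_om (P_ne hx)
  · exact (h1.smul (continuous_id.sub h2)).continuousOn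

/-- The homeomorphism of the tube. -/
noncomputable def homF (V : Submodule ℝ E) (e : E) (he : e ∈ V) (he1 : ‖e‖ = 1) (τ ε : ℝ)
    (hτ : |τ| < 1) (h0 : 0 < ε) (h1 : ε < 1) : Tub V (1 / 2) ≃ₜ Tub V (1 / 2) where
  toFun x := ⟨Fm V (muP ε) (mob τ e) x.1,
    Fm_mem (mob_mem he (om_mem _)) (norm_mob hτ he1 (norm_om (P_ne x.2))) (muP_nonneg h0.le h1.le _)
      (muP_mul_lt h0.le h1.le ((ss_lt_iff (by norm_num)).1 x.2))⟩
  invFun x := ⟨Fm V (nuP ε) (mob (-τ) e) x.1,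
    Fm_mem (mob_mem he (om_mem _)) (norm_mob (by rwa [abs_neg]) he1 (norm_om (P_ne x.2)))
      (nuP_nonneg h0 h1 _) (nuP_mul_lt h0 h1 ((ss_lt_iff (by norm_num)).1 x.2))⟩
  left_inv x := by
    apply Subtype.ext
    exact Fm_Fm (P_ne x.2) (mob_mem he (om_mem _)) (norm_mob hτ he1 (norm_om (P_ne x.2)))
      (muP_nonneg h0.le h1.le _) (muP_mul_lt h0.le h1.le ((ss_lt_iff (by norm_num)).1 x.2))
      (nuP_muP h0 h1) (mob_neg_mob hτ he1 (norm_om (P_ne x.2)))
  right_inv x := by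
    apply Subtype.ext
    refine Fm_Fm (P_ne x.2) (mob_mem he (om_mem _))
      (norm_mob (by rwa [abs_neg]) he1 (norm_om (P_ne x.2)))
      (nuP_nonneg h0 h1 _) (nuP_mul_lt h0 h1 ((ss_lt_iff (by norm_num)).1 x.2))
      (muP_nuP h0 h1) ?_
    have := mob_neg_mob (τ := -τ) (e := e) (w := om V (x : E)) (by rwa [abs_neg]) he1
      (norm_om (P_ne x.2))
    rwa [neg_neg] at this
  continuous_toFun := by
    apply Continuous.subtype_mk
    exact continuousOn_iff_continuous_domRestrict.1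
      (Fm_continuousOn (muP_continuous ε) (mob_continuousOn hτ he1))
  continuous_invFun := by
    apply Continuous.subtype_mk
    exact continuousOn_iff_continuous_domRestrict.1
      (Fm_continuousOn (nuP_continuous h0) (mob_continuousOn (by rwa [abs_neg]) he1))

/-- the conformal factor as a function on the tube -/
noncomputable def lmb (V : Submodule ℝ E) (e : E) (τ : ℝ) (x : E) : ℝ := lamb τ e (om V x)

theorem lmb_nonneg (hτ : |τ| < 1) (he1 : ‖e‖ = 1) {x : E} (hx : x ∈ Tub V (1 / 2)) :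
    0 ≤ lmb V e τ x := lamb_nonneg hτ he1 (norm_om (P_ne hx))

theorem lmb_le (hτ : |τ| < 1) (he1 : ‖e‖ = 1) {x : E} (hx : x ∈ Tub V (1 / 2)) :
    lmb V e τ x ≤ (1 - |τ|)⁻¹ := lamb_le hτ he1 (norm_om (P_ne hx))

theorem lmb_continuousOn (hτ : |τ| < 1) (he1 : ‖e‖ = 1) : ContinuousOn (lmb V e τ) (Tub V (1 / 2)) := by
  unfold lmb lamb
  apply ContinuousOn.div
  · exact continuousOn_const
  · have h1 : ContinuousOn (fun x => ⟪e, om V x⟫) (Tub V (1 / 2)) :=
      ContinuousOn.inner continuousOn_const om_continuousOn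
    exact continuousOn_const.add (continuousOn_const.mul h1)
  · intro x hx
    exact (den_pos hτ he1 (norm_om (P_ne hx))).ne'

theorem F_sub_le (hτ : |τ| < 1) (he1 : ‖e‖ = 1) (h0 : 0 ≤ ε) (h1 : ε ≤ 1)
    {x y : E} (hx : x ∈ Tub V (1 / 2)) (hy : y ∈ Tub V (1 / 2)) :
    ‖Fm V (muP ε) (mob τ e) x - Fm V (muP ε) (mob τ e) y‖ ≤
      (30 + 6 * √(lmb V e τ x * lmb V e τ y)) * ‖x - y‖ := by
  have h := norm_Fm_sub (V := V) (m := muP ε) (φ := mob τ e) (L := 8) (M := 2)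
    (Λ := √(lmb V e τ x * lmb V e τ y)) (by norm_num) (muP_lip h0 h1) (muP_nonneg h0 h1)
    (muP_le h0 h1) (fun s _ hs => muP_mul_lt h0 h1 hs) hx hy
    (norm_mob hτ he1 (norm_om (P_ne hx))) (Real.sqrt_nonneg _)
    (norm_mob_sub hτ he1 (norm_om (P_ne hx)) (norm_om (P_ne hy))).le
  refine h.trans (le_of_eq ?_)
  ring

theorem F_lip (hτ : |τ| < 1) (he1 : ‖e‖ = 1) (h0 : 0 ≤ ε) (h1 : ε ≤ 1)
    {x y : E} (hx : x ∈ Tub V (1 / 2)) (hy : y ∈ Tub V (1 / 2)) :
    ‖Fm V (muP ε) (mob τ e) x - Fm V (muP ε) (mob τ e) y‖ ≤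
      (30 + 6 * (1 - |τ|)⁻¹) * ‖x - y‖ := by
  refine (F_sub_le hτ he1 h0 h1 hx hy).trans ?_
  apply mul_le_mul_of_nonneg_right _ (norm_nonneg _)
  have h2 : 0 ≤ (1 - |τ|)⁻¹ := inv_nonneg.2 (by linarith)
  have h3 : √(lmb V e τ x * lmb V e τ y) ≤ (1 - |τ|)⁻¹ := by
    rw [Real.sqrt_le_left h2, sq]
    exact mul_le_mul (lmb_le hτ he1 hx) (lmb_le hτ he1 hy) (lmb_nonneg hτ he1 hy) h2
  linarith

theorem F_fderiv_le (hτ : |τ| < 1) (he1 : ‖e‖ = 1) (h0 : 0 ≤ ε) (h1 : ε ≤ 1)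
    {x : E} (hx : x ∈ Tub V (1 / 2)) :
    ‖fderiv ℝ (Fm V (muP ε) (mob τ e)) x‖ ≤ 30 + 6 * lmb V e τ x := by
  have hl0 := lmb_nonneg hτ he1 hx
  apply le_of_forall_gt_imp_ge_of_dense
  intro c hc
  apply norm_fderiv_le_of_local (by linarith)
  have h2 : Tendsto (fun y => 30 + 6 * √(lmb V e τ y * lmb V e τ x)) (𝓝 x)
      (𝓝 (30 + 6 * √(lmb V e τ x * lmb V e τ x))) := by
    have h3 : Tendsto (lmb V e τ) (𝓝 x) (𝓝 (lmb V e τ x)) :=
      ((lmb_continuousOn hτ he1).continuousAt ((isOpen_Tub _).mem_nhds hx)).tendsto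
    exact tendsto_const_nhds.add (((h3.mul_const _).sqrt).const_mul _)
  rw [Real.sqrt_mul_self hl0] at h2
  filter_upwards [h2.eventually_lt_const hc, (isOpen_Tub _).mem_nhds hx] with y hy hyT
  refine (F_sub_le hτ he1 h0 h1 hyT hx).trans ?_
  exact mul_le_mul_of_nonneg_right hy.le (norm_nonneg _)

/-- the limit map -/
noncomputable def Flim (V : Submodule ℝ E) (e : E) : E → E := Fm V (muP 0) (fun _ => e)

theorem Flim_lip (he1 : ‖e‖ = 1) {x y : E} (hx : x ∈ Tub V (1 / 2)) (hy : y ∈ Tub V (1 / 2)) :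
    ‖Flim V e x - Flim V e y‖ ≤ 30 * ‖x - y‖ := by
  have h := norm_Fm_sub (V := V) (m := muP 0) (φ := fun _ => e) (L := 8) (M := 2)
    (Λ := 0) (by norm_num) (muP_lip le_rfl zero_le_one) (muP_nonneg le_rfl zero_le_one)
    (muP_le le_rfl zero_le_one) (fun s _ hs => muP_mul_lt le_rfl zero_le_one hs) hx hy
    he1 le_rfl (by simp)
  refine h.trans (le_of_eq ?_)
  ring

theorem Flim_mem (he : e ∈ V) (he1 : ‖e‖ = 1) {x : E} (hx : x ∈ Tub V (1 / 2)) :
    Flim V e x ∈ Tub V (1 / 2) :=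
  Fm_mem he he1 (muP_nonneg le_rfl zero_le_one _)
    (muP_mul_lt le_rfl zero_le_one ((ss_lt_iff (by norm_num)).1 hx))

theorem Flim_eq {x : E} (hx : x ∈ Tub V (1 / 4)) : Flim V e x = e := by
  unfold Flim Fm
  rw [muP_small ((ss_lt_iff (by norm_num)).1 hx).le]
  simp

omit [FiniteDimensional ℝ E] in
theorem mob_tendsto {τ : ℕ → ℝ} (hτ : Tendsto τ atTop (𝓝 1)) {w : E} (hw : 1 + ⟪e, w⟫ ≠ 0) :
    Tendsto (fun k => mob (τ k) e w) atTop (𝓝 e) := by
  unfold mob
  have h1 : Tendsto (fun k => (1 + τ k * ⟪e, w⟫)⁻¹) atTop (𝓝 (1 + 1 * ⟪e, w⟫)⁻¹) :=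
    (tendsto_const_nhds.add (hτ.mul_const _)).inv₀ (by rwa [one_mul])
  have h2 : Tendsto (fun k => √(1 - τ k ^ 2) • (w - ⟪e, w⟫ • e) + (⟪e, w⟫ + τ k) • e) atTop
      (𝓝 (√(1 - 1 ^ 2) • (w - ⟪e, w⟫ • e) + (⟪e, w⟫ + 1) • e)) :=
    (((tendsto_const_nhds.sub (hτ.pow 2)).sqrt).smul_const _).add
      ((tendsto_const_nhds.add hτ).smul_const _)
  have h3 := h1.smul h2
  have h4 : (1 + 1 * ⟪e, w⟫)⁻¹ • (√(1 - 1 ^ 2) • (w - ⟪e, w⟫ • e) + (⟪e, w⟫ + 1) • e) = e := by
    rw [one_pow, sub_self, Real.sqrt_zero, zero_smul, zero_add, one_mul, smul_smul, add_comm ⟪e, w⟫ 1,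
      inv_mul_cancel₀ hw, one_smul]
  rw [h4] at h3
  exact h3

theorem muP_tendsto {ε : ℕ → ℝ} (hε : Tendsto ε atTop (𝓝 0)) (s : ℝ) :
    Tendsto (fun k => muP (ε k) s) atTop (𝓝 (muP 0 s)) := by
  unfold muP
  exact (tendsto_const_nhds.sub hε).sub ((tendsto_const_nhds.sub hε).div_const _)

theorem F_tendsto {τ ε : ℕ → ℝ} (hτ : Tendsto τ atTop (𝓝 1)) (hε : Tendsto ε atTop (𝓝 0)) {x : E}
    (hx : 1 + ⟪e, om V x⟫ ≠ 0) :
    Tendsto (fun k => Fm V (muP (ε k)) (mob (τ k) e) x) atTop (𝓝 (Flim V e x)) := by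
  have h1 := muP_tendsto hε (ss V x)
  have h2 := mob_tendsto (e := e) hτ hx
  unfold Flim Fm
  exact ((tendsto_const_nhds.add (h1.mul_const _)).smul h2).add (h1.smul_const _)

/-- the exceptional set is a null set -/
theorem ae_inner_ne [MeasurableSpace E] [BorelSpace E] (hV : 2 ≤ finrank ℝ V) (he : e ∈ V)
    (he1 : ‖e‖ = 1) : ∀ᵐ x ∂(volume.restrict (Tub V (1 / 2))), 1 + ⟪e, om V x⟫ ≠ 0 := by
  set W : Submodule ℝ E := (Submodule.span ℝ {e}).comap V.starProjection.toLinearMap with hW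
  have hWt : W ≠ ⊤ := by
    intro h
    have h1 : V ≤ Submodule.span ℝ {e} := by
      intro v hv
      have h2 : v ∈ W := by rw [h]; trivial
      have h3 : V.starProjection v ∈ Submodule.span ℝ {e} := h2
      rwa [Submodule.starProjection_eq_self_iff.2 hv] at h3
    have h2 := Submodule.finrank_mono h1
    have h3 : finrank ℝ (Submodule.span ℝ {e}) = 1 :=
      finrank_span_singleton (by rintro rfl; simp at he1)
    omega
  have h0 := Measure.addHaar_submodule (volume : Measure E) W hWt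
  have h1 : ∀ᵐ x ∂(volume : Measure E), x ∉ (W : Set E) := by
    rw [ae_iff]
    simpa using h0
  filter_upwards [ae_restrict_of_ae h1, ae_restrict_mem (isOpen_Tub _).measurableSet] with x hx hxT h
  apply hx
  show V.starProjection x ∈ Submodule.span ℝ {e}
  have hw := norm_om (P_ne hxT)
  have h3 : ‖om V x + e‖ ^ 2 = 0 := by
    rw [norm_add_sq_real, hw, he1, real_inner_comm]
    linarith
  have h4 : om V x + e = 0 := by
    rwa [sq_eq_zero_iff, norm_eq_zero] at h3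
  have h5 : om V x = -e := eq_neg_of_add_eq_zero_left h4
  rw [← norm_smul_om (P_ne hxT), h5]
  exact Submodule.smul_mem _ _ (Submodule.neg_mem _ (Submodule.mem_span_singleton_self e))

end Pool.Agent.K6.H31.WT
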