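import Mathlib

/-!
# Conformal maps of the sphere
-/

set_option autoImplicit false

open Set Filter Topology MeasureTheory Metric Module
open scoped ContDiff ENNReal NNReal RealInnerProductSpace

namespace Pool.Agent.K6.H31.WT

variable {E : Type*} [NormedAddCommGroup E] [InnerProductSpace ℝ E]

/-- the conformal map of the unit sphere with the fixed points `± e` -/
noncomputable def mob (τ : ℝ) (e w : E) : E :=
  (1 + τ * ⟪e, w⟫)⁻¹ • (√(1 - τ ^ 2) • (w - ⟪e, w⟫ • e) + (⟪e, w⟫ + τ) • e)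

/-- the conformal factor -/
noncomputable def lamb (τ : ℝ) (e w : E) : ℝ := √(1 - τ ^ 2) / (1 + τ * ⟪e, w⟫)

variable {τ : ℝ} {e w : E}

theorem abs_inner_le_one (he : ‖e‖ = 1) (hw : ‖w‖ = 1) : |⟪e, w⟫| ≤ 1 := by
  have := abs_real_inner_le_norm e w
  rwa [he, hw, mul_one] at this

theorem den_pos (hτ : |τ| < 1) (he : ‖e‖ = 1) (hw : ‖w‖ = 1) : 0 < 1 + τ * ⟪e, w⟫ := by
  have h1 := abs_inner_le_one he hw
  have h2 : |τ * ⟪e, w⟫| ≤ |τ| := by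
    rw [abs_mul]
    exact mul_le_of_le_one_right (abs_nonneg _) h1
  have := (abs_le.1 h2).1
  linarith

theorem den_ge (he : ‖e‖ = 1) (hw : ‖w‖ = 1) : 1 - |τ| ≤ 1 + τ * ⟪e, w⟫ := by
  have h1 := abs_inner_le_one he hw
  have h2 : |τ * ⟪e, w⟫| ≤ |τ| := by
    rw [abs_mul]
    exact mul_le_of_le_one_right (abs_nonneg _) h1
  have := (abs_le.1 h2).1
  linarith

theorem one_sub_sq_pos (hτ : |τ| < 1) : 0 < 1 - τ ^ 2 := by
  have := (sq_lt_one_iff_abs_lt_one τ).2 hτ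
  linarith

theorem lamb_nonneg (hτ : |τ| < 1) (he : ‖e‖ = 1) (hw : ‖w‖ = 1) : 0 ≤ lamb τ e w :=
  div_nonneg (Real.sqrt_nonneg _) (den_pos hτ he hw).le

theorem lamb_le (hτ : |τ| < 1) (he : ‖e‖ = 1) (hw : ‖w‖ = 1) : lamb τ e w ≤ (1 - |τ|)⁻¹ := by
  unfold lamb
  rw [div_eq_mul_inv]
  have h1 : √(1 - τ ^ 2) ≤ 1 := by
    rw [Real.sqrt_le_one]
    nlinarith [sq_nonneg τ]
  have h2 : (1 + τ * ⟪e, w⟫)⁻¹ ≤ (1 - |τ|)⁻¹ :=
    inv_anti₀ (by linarith) (den_ge he hw)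
  have h3 : 0 ≤ (1 + τ * ⟪e, w⟫)⁻¹ := inv_nonneg.2 (den_pos hτ he hw).le
  nlinarith [Real.sqrt_nonneg (1 - τ ^ 2)]

theorem inner_mob (he : ‖e‖ = 1) : ⟪e, mob τ e w⟫ = (⟪e, w⟫ + τ) / (1 + τ * ⟪e, w⟫) := by
  unfold mob
  rw [inner_smul_right, inner_add_right, inner_smul_right, inner_smul_right, inner_sub_right,
    inner_smul_right, real_inner_self_eq_norm_sq, he]
  ring

theorem inner_mob_mob (hτ : |τ| < 1) (he : ‖e‖ = 1) {w' : E} :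
    ⟪mob τ e w, mob τ e w'⟫ = ((1 - τ ^ 2) * (⟪w, w'⟫ - ⟪e, w⟫ * ⟪e, w'⟫) +
      (⟪e, w⟫ + τ) * (⟪e, w'⟫ + τ)) / ((1 + τ * ⟪e, w⟫) * (1 + τ * ⟪e, w'⟫)) := by
  have h1 : √(1 - τ ^ 2) * √(1 - τ ^ 2) = 1 - τ ^ 2 := Real.mul_self_sqrt (one_sub_sq_pos hτ).le
  have h2 : ⟪e, e⟫ = (1 : ℝ) := by rw [real_inner_self_eq_norm_sq, he]; norm_num
  unfold mob
  simp only [inner_smul_left, inner_smul_right, inner_add_left, inner_add_right, inner_sub_left,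
    inner_sub_right, RCLike.conj_to_real, h2, real_inner_comm e w]
  rw [div_eq_mul_inv, mul_inv]
  linear_combination (⟪w, w'⟫ - ⟪e, w⟫ * ⟪e, w'⟫) * ((1 + τ * ⟪e, w⟫)⁻¹ * (1 + τ * ⟪e, w'⟫)⁻¹) * h1

theorem norm_mob (hτ : |τ| < 1) (he : ‖e‖ = 1) (hw : ‖w‖ = 1) : ‖mob τ e w‖ = 1 := by
  have h1 := inner_mob_mob (w := w) (w' := w) hτ he
  have h2 := den_pos hτ he hw
  rw [real_inner_self_eq_norm_sq, real_inner_self_eq_norm_sq, hw] at h1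
  have h3 : ‖mob τ e w‖ ^ 2 = 1 := by
    rw [h1, div_eq_one_iff_eq (by positivity)]
    ring
  have h4 : ‖mob τ e w‖ ^ 2 = 1 ^ 2 := by rw [h3]; norm_num
  exact (sq_eq_sq₀ (norm_nonneg _) zero_le_one).1 h4

theorem norm_mob_sub_sq (hτ : |τ| < 1) (he : ‖e‖ = 1) {w' : E} (hw : ‖w‖ = 1) (hw' : ‖w'‖ = 1) :
    ‖mob τ e w - mob τ e w'‖ ^ 2 = lamb τ e w * lamb τ e w' * ‖w - w'‖ ^ 2 := by
  have h1 := inner_mob_mob (w := w) (w' := w') hτ he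
  have h2 := den_pos hτ he hw
  have h2' := den_pos hτ he hw'
  have h3 : √(1 - τ ^ 2) * √(1 - τ ^ 2) = 1 - τ ^ 2 := Real.mul_self_sqrt (one_sub_sq_pos hτ).le
  rw [norm_sub_sq_real, norm_sub_sq_real, norm_mob hτ he hw, norm_mob hτ he hw', h1, hw, hw']
  unfold lamb
  rw [div_mul_div_comm, h3]
  field_simp
  ring

theorem norm_mob_sub (hτ : |τ| < 1) (he : ‖e‖ = 1) {w' : E} (hw : ‖w‖ = 1) (hw' : ‖w'‖ = 1) :
    ‖mob τ e w - mob τ e w'‖ = √(lamb τ e w * lamb τ e w') * ‖w - w'‖ := by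
  have h1 := norm_mob_sub_sq hτ he hw hw'
  have h2 : 0 ≤ lamb τ e w * lamb τ e w' := mul_nonneg (lamb_nonneg hτ he hw) (lamb_nonneg hτ he hw')
  rw [← Real.sqrt_sq (norm_nonneg (mob τ e w - mob τ e w')), h1, Real.sqrt_mul h2,
    Real.sqrt_sq (norm_nonneg _)]

theorem mob_neg_mob (hτ : |τ| < 1) (he : ‖e‖ = 1) (hw : ‖w‖ = 1) :
    mob (-τ) e (mob τ e w) = w := by
  have h1 := inner_mob (w := w) (τ := τ) he
  have h2 := den_pos hτ he hw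
  have h3 : √(1 - τ ^ 2) * √(1 - τ ^ 2) = 1 - τ ^ 2 := Real.mul_self_sqrt (one_sub_sq_pos hτ).le
  have h4 := one_sub_sq_pos hτ
  set t := ⟪e, w⟫ with ht
  have h5 : mob τ e w = (1 + τ * t)⁻¹ • (√(1 - τ ^ 2) • (w - t • e) + (t + τ) • e) := rfl
  have h6 : mob τ e w - ((t + τ) / (1 + τ * t)) • e =
      (√(1 - τ ^ 2) / (1 + τ * t)) • (w - t • e) := by
    rw [h5, smul_add, smul_smul, smul_smul, div_eq_inv_mul, div_eq_inv_mul]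
    abel
  have h7 : mob (-τ) e (mob τ e w) = (1 + -τ * ((t + τ) / (1 + τ * t)))⁻¹ •
      (√(1 - (-τ) ^ 2) • (mob τ e w - ((t + τ) / (1 + τ * t)) • e) +
        ((t + τ) / (1 + τ * t) + -τ) • e) := by
    conv_lhs => unfold mob
    rw [show ⟪e, (1 + τ * ⟪e, w⟫)⁻¹ • (√(1 - τ ^ 2) • (w - ⟪e, w⟫ • e) + (⟪e, w⟫ + τ) • e)⟫ =
      (t + τ) / (1 + τ * t) from h1]
    rfl
  have h8 : 1 + -τ * ((t + τ) / (1 + τ * t)) = (1 - τ ^ 2) / (1 + τ * t) := by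
    field_simp
    ring
  have h9 : (t + τ) / (1 + τ * t) + -τ = t * ((1 - τ ^ 2) / (1 + τ * t)) := by
    rw [div_add' _ _ _ h2.ne', ← mul_div_assoc]
    congr 1
    ring
  rw [h7, h6, h8, h9, neg_sq, smul_smul, smul_add, smul_smul, smul_smul]
  have h10 : ((1 - τ ^ 2) / (1 + τ * t))⁻¹ * (√(1 - τ ^ 2) * (√(1 - τ ^ 2) / (1 + τ * t))) = 1 := by
    rw [← mul_div_assoc, h3]
    field_simp
  have h11 : ((1 - τ ^ 2) / (1 + τ * t))⁻¹ * (t * ((1 - τ ^ 2) / (1 + τ * t))) = t := by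
    field_simp
  rw [h10, h11, one_smul, sub_add_cancel]

end Pool.Agent.K6.H31.WT
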