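import Pool.Agent.K6.H31.WT.Det

/-!
# The identity of the sphere does not extend to a non-vanishing map of the ball
-/

set_option autoImplicit false

open Set Filter Topology MeasureTheory Metric Module
open scoped ContDiff ENNReal NNReal

namespace Pool.Agent.K6.H31.WT

/-- the derivative of the profile -/
noncomputable def clampf (t : ℝ) : ℝ := max 0 (min 1 t)

theorem clampf_continuous : Continuous clampf := by
  unfold clampf
  fun_prop

theorem clampf_abs_le (t : ℝ) : |clampf t| ≤ 1 := by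
  unfold clampf
  rw [abs_of_nonneg (le_max_left _ _)]
  exact max_le zero_le_one (min_le_left _ _)

/-- the profile: `1/2` for `x ≤ 0` and `x` for `x ≥ 1` -/
noncomputable def vth (x : ℝ) : ℝ := 1 / 2 + ∫ t in (0 : ℝ)..x, clampf t

theorem vth_hasDerivAt (x : ℝ) : HasDerivAt vth (clampf x) x :=
  (intervalIntegral.integral_hasDerivAt_right (clampf_continuous.intervalIntegrable _ _)
    (clampf_continuous.stronglyMeasurableAtFilter _ _) clampf_continuous.continuousAt).const_add _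

theorem vth_contDiff : ContDiff ℝ 1 vth := by
  rw [contDiff_one_iff_deriv]
  refine ⟨fun x => (vth_hasDerivAt x).differentiableAt, ?_⟩
  have : deriv vth = clampf := funext fun x => (vth_hasDerivAt x).deriv
  rw [this]
  exact clampf_continuous

theorem vth_of_nonpos {x : ℝ} (hx : x ≤ 0) : vth x = 1 / 2 := by
  unfold vth
  have h1 : ∫ t in (0 : ℝ)..x, clampf t = ∫ t in (0 : ℝ)..x, (0 : ℝ) := by
    apply intervalIntegral.integral_congr
    intro t ht
    rw [uIcc_of_ge hx] at ht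
    show max 0 (min 1 t) = (0 : ℝ)
    rw [min_eq_right (ht.2.trans zero_le_one), max_eq_left ht.2]
  rw [h1]
  simp

theorem vth_of_one_le {x : ℝ} (hx : 1 ≤ x) : vth x = x := by
  unfold vth
  have hi : ∀ a b, IntervalIntegrable clampf volume a b := fun a b =>
    clampf_continuous.intervalIntegrable a b
  rw [← intervalIntegral.integral_add_adjacent_intervals (hi 0 1) (hi 1 x)]
  have h1 : ∫ t in (0 : ℝ)..1, clampf t = ∫ t in (0 : ℝ)..1, t := by
    apply intervalIntegral.integral_congr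
    intro t ht
    rw [uIcc_of_le zero_le_one] at ht
    show max 0 (min 1 t) = t
    rw [min_eq_right ht.2, max_eq_right ht.1]
  have h2 : ∫ t in (1 : ℝ)..x, clampf t = ∫ t in (1 : ℝ)..x, (1 : ℝ) := by
    apply intervalIntegral.integral_congr
    intro t ht
    rw [uIcc_of_le hx] at ht
    show max 0 (min 1 t) = (1 : ℝ)
    rw [min_eq_left ht.1, max_eq_right zero_le_one]
  rw [h1, h2, integral_id, intervalIntegral.integral_const]
  simp
  ring

theorem vth_lip (x y : ℝ) : |vth x - vth y| ≤ |x - y| := by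
  have h : LipschitzWith 1 vth := by
    apply lipschitzWith_of_nnnorm_deriv_le (fun x => (vth_hasDerivAt x).differentiableAt)
    intro x
    rw [(vth_hasDerivAt x).deriv, ← NNReal.coe_le_coe, coe_nnnorm, Real.norm_eq_abs]
    exact clampf_abs_le x
  have h1 := h.dist_le_mul x y
  rwa [Real.dist_eq, Real.dist_eq, NNReal.coe_one, one_mul] at h1

theorem vth_mono : Monotone vth := by
  apply monotone_of_deriv_nonneg (fun x => (vth_hasDerivAt x).differentiableAt)
  intro x
  rw [(vth_hasDerivAt x).deriv]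
  exact le_max_left _ _

/-- the radial profile -/
noncomputable def lam (R₁ η s : ℝ) : ℝ := R₁ + η * vth ((s - R₁) / η)

theorem lam_of_le {R₁ η s : ℝ} (hη : 0 < η) (hs : s ≤ R₁) : lam R₁ η s = R₁ + η / 2 := by
  unfold lam
  rw [vth_of_nonpos (div_nonpos_of_nonpos_of_nonneg (by linarith) hη.le)]
  ring

theorem lam_of_ge {R₁ η s : ℝ} (hη : 0 < η) (hs : R₁ + η ≤ s) : lam R₁ η s = s := by
  unfold lam
  rw [vth_of_one_le ((one_le_div hη).2 (by linarith))]
  field_simp
  ring

theorem lam_lip {R₁ η : ℝ} (hη : 0 < η) (s t : ℝ) : |lam R₁ η s - lam R₁ η t| ≤ |s - t| := by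
  unfold lam
  have h1 : R₁ + η * vth ((s - R₁) / η) - (R₁ + η * vth ((t - R₁) / η)) =
      η * (vth ((s - R₁) / η) - vth ((t - R₁) / η)) := by ring
  rw [h1, abs_mul, abs_of_pos hη]
  have h2 := vth_lip ((s - R₁) / η) ((t - R₁) / η)
  have h3 : (s - R₁) / η - (t - R₁) / η = (s - t) / η := by ring
  rw [h3, abs_div, abs_of_pos hη] at h2
  calc η * |vth ((s - R₁) / η) - vth ((t - R₁) / η)| ≤ η * (|s - t| / η) :=
        mul_le_mul_of_nonneg_left h2 hη.le
    _ = |s - t| := by field_simp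

theorem lam_mono {R₁ η : ℝ} (hη : 0 < η) {s t : ℝ} (h : s ≤ t) : lam R₁ η s ≤ lam R₁ η t := by
  unfold lam
  have h1 : (s - R₁) / η ≤ (t - R₁) / η := div_le_div_of_nonneg_right (by linarith) hη.le
  nlinarith [vth_mono h1]

theorem lam_contDiff {R₁ η : ℝ} : ContDiff ℝ 1 (lam R₁ η) := by
  unfold lam
  exact contDiff_const.add (contDiff_const.mul
    (vth_contDiff.comp ((contDiff_id.sub contDiff_const).div_const _)))

theorem lam_pos {R₁ η : ℝ} (hR : 0 < R₁) (hη : 0 < η) (s : ℝ) : 0 < lam R₁ η s := by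
  by_cases h : s ≤ R₁
  · rw [lam_of_le hη h]
    positivity
  · push Not at h
    have h1 := lam_lip (R₁ := R₁) hη s (R₁ + η + s)
    rw [lam_of_ge hη (s := R₁ + η + s) (by linarith)] at h1
    have h2 := (abs_le.1 h1).1
    have h3 : |s - (R₁ + η + s)| = R₁ + η := by
      rw [show s - (R₁ + η + s) = -(R₁ + η) by ring, abs_neg, abs_of_pos (by linarith)]
    rw [h3] at h2
    linarith

variable {E : Type*} [NormedAddCommGroup E] [InnerProductSpace ℝ E] [FiniteDimensional ℝ E]
  [MeasurableSpace E] [BorelSpace E]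

/-- radial map -/
noncomputable def PP (R₁ η : ℝ) (z : E) : E := (lam R₁ η ‖z‖ / ‖z‖) • z

omit [FiniteDimensional ℝ E] [MeasurableSpace E] [BorelSpace E] in
theorem norm_PP {R₁ η : ℝ} (hR : 0 < R₁) (hη : 0 < η) {z : E} (hz : z ≠ 0) :
    ‖PP R₁ η z‖ = lam R₁ η ‖z‖ := by
  have h1 : 0 < ‖z‖ := norm_pos_iff.2 hz
  unfold PP
  rw [norm_smul, Real.norm_eq_abs, abs_div, abs_of_pos (lam_pos hR hη _), abs_of_pos h1]
  field_simp

omit [FiniteDimensional ℝ E] [MeasurableSpace E] [BorelSpace E] in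
theorem PP_of_ge {R₁ η : ℝ} (hR : 0 < R₁) (hη : 0 < η) {z : E} (hz : R₁ + η ≤ ‖z‖) :
    PP R₁ η z = z := by
  unfold PP
  rw [lam_of_ge hη hz, div_self (by linarith), one_smul]

omit [FiniteDimensional ℝ E] [MeasurableSpace E] [BorelSpace E] in
theorem PP_lip {R₁ η : ℝ} (hR : 2 ≤ R₁) (hη : 0 < η) (hη1 : η ≤ 1) {y z : E}
    (hy : R₁ - 1 / 2 ≤ ‖y‖) (hz : R₁ - 1 / 2 ≤ ‖z‖) :
    ‖PP R₁ η y - PP R₁ η z‖ ≤ 5 * ‖y - z‖ := by
  have hy0 : 0 < ‖y‖ := by linarith
  have hz0 : 0 < ‖z‖ := by linarith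
  have h1 : PP R₁ η y - PP R₁ η z = (lam R₁ η ‖y‖ / ‖y‖) • (y - z) +
      ((lam R₁ η ‖y‖ / ‖y‖) - (lam R₁ η ‖z‖ / ‖z‖)) • z := by
    unfold PP
    rw [smul_sub, sub_smul]
    abel
  have hlam : lam R₁ η ‖y‖ ≤ 2 * ‖y‖ := by
    by_cases h3 : ‖y‖ ≤ R₁ + η
    · have h4 := lam_mono (R₁ := R₁) hη h3
      rw [lam_of_ge hη (s := R₁ + η) le_rfl] at h4
      linarith
    · push Not at h3
      rw [lam_of_ge hη h3.le]
      linarith
  have hlam0 : 0 < lam R₁ η ‖y‖ := lam_pos (by linarith) hη _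
  have h2 : |(lam R₁ η ‖y‖ / ‖y‖) - (lam R₁ η ‖z‖ / ‖z‖)| * ‖z‖ ≤ 3 * ‖y - z‖ := by
    have h3 : ((lam R₁ η ‖y‖ / ‖y‖) - (lam R₁ η ‖z‖ / ‖z‖)) * ‖z‖ =
        (lam R₁ η ‖y‖ / ‖y‖) * (‖z‖ - ‖y‖) + (lam R₁ η ‖y‖ - lam R₁ η ‖z‖) := by
      field_simp
      ring
    rw [← abs_of_pos hz0, ← abs_mul, abs_of_pos hz0, h3]
    refine (abs_add_le _ _).trans ?_
    rw [abs_mul, abs_of_pos (div_pos hlam0 hy0)]
    have h4 : lam R₁ η ‖y‖ / ‖y‖ ≤ 2 := by
      rw [div_le_iff₀ hy0]
      exact hlam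
    have h5 : |‖z‖ - ‖y‖| ≤ ‖y - z‖ := by
      rw [abs_sub_comm]
      exact abs_norm_sub_norm_le y z
    have h6 : |lam R₁ η ‖y‖ - lam R₁ η ‖z‖| ≤ ‖y - z‖ :=
      (lam_lip hη _ _).trans (abs_norm_sub_norm_le y z)
    nlinarith [abs_nonneg (‖z‖ - ‖y‖)]
  rw [h1]
  refine (norm_add_le _ _).trans ?_
  rw [norm_smul, norm_smul, Real.norm_eq_abs, Real.norm_eq_abs, abs_of_pos (div_pos hlam0 hy0)]
  have h4 : lam R₁ η ‖y‖ / ‖y‖ ≤ 2 := by
    rw [div_le_iff₀ hy0]
    exact hlam
  nlinarith [norm_nonneg (y - z)]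

omit [FiniteDimensional ℝ E] [MeasurableSpace E] [BorelSpace E] in
theorem PP_contDiffAt {R₁ η : ℝ} {z : E} (hz : z ≠ 0) : ContDiffAt ℝ 1 (PP R₁ η) z := by
  unfold PP
  have h1 : ContDiffAt ℝ 1 (fun z : E => ‖z‖) z := contDiffAt_norm ℝ hz
  exact ((lam_contDiff.contDiffAt.comp z h1).div h1 (norm_ne_zero_iff.2 hz)).smul contDiffAt_id

omit [MeasurableSpace E] [BorelSpace E] in
theorem det_eq_zero_of_norm_const {v : E → E} {x : E} {v' : E →L[ℝ] E} {c : ℝ} (hc : 0 < c)
    (hv : HasFDerivAt v v' x) (h : ∀ᶠ y in 𝓝 x, ‖v y‖ = c) : v'.det = 0 := by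
  have h1 : HasFDerivAt (fun y => ‖v y‖ ^ 2) (2 • (innerSL ℝ (v x)).comp v') x := hv.norm_sq
  have h2 : HasFDerivAt (fun y => ‖v y‖ ^ 2) (0 : E →L[ℝ] ℝ) x := by
    have h3 : (fun y => ‖v y‖ ^ 2) =ᶠ[𝓝 x] fun _ => c ^ 2 := by
      filter_upwards [h] with y hy
      rw [hy]
    exact (hasFDerivAt_const (c ^ 2) x).congr_of_eventuallyEq h3
  have h3 := h1.unique h2
  by_contra hne
  have h4 : IsUnit (LinearMap.det (v' : E →ₗ[ℝ] E)) := isUnit_iff_ne_zero.2 hne
  have h5 : Function.Surjective v' := by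
    have h6 := LinearMap.equivOfDetNeZero (v' : E →ₗ[ℝ] E) hne
    have h7 := (LinearMap.isUnit_iff_range_eq_top (v' : E →ₗ[ℝ] E)).1
      (LinearMap.isUnit_iff_isUnit_det _ |>.2 h4)
    exact LinearMap.range_eq_top.1 h7
  obtain ⟨w, hw⟩ := h5 (v x)
  have h6 := congrArg (fun A : E →L[ℝ] ℝ => A w) h3
  simp only [ContinuousLinearMap.smul_apply, ContinuousLinearMap.comp_apply, innerSL_apply_apply,
    ContinuousLinearMap.zero_apply] at h6
  rw [hw, real_inner_self_eq_norm_sq, h.self_of_nhds] at h6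
  have : (0 : ℝ) < 2 • c ^ 2 := by positivity
  linarith

/-- There is no continuous non-vanishing map on the closed unit ball which is the identity on the unit
sphere. -/
theorem no_ext [Nontrivial E] {Φ : E → E} (hΦ : ContinuousOn Φ (closedBall 0 1))
    (h0 : ∀ x ∈ closedBall (0 : E) 1, Φ x ≠ 0) (hid : ∀ x ∈ sphere (0 : E) 1, Φ x = x) : False := by
  classical
  -- extension to the whole space
  set Φ₁ : E → E := fun x => if ‖x‖ ≤ 1 then Φ x else x with hΦ₁
  have hΦ₁c : Continuous Φ₁ := by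
    apply continuous_if_le continuous_norm continuous_const
    · have : {x : E | ‖x‖ ≤ 1} = closedBall 0 1 := by ext; simp
      rw [this]
      exact hΦ
    · exact continuousOn_id
    · intro x hx
      exact hid x (by simpa using hx)
  have hΦ₁0 : ∀ x, Φ₁ x ≠ 0 := by
    intro x
    rw [hΦ₁]
    simp only
    split_ifs with hx
    · exact h0 x (by simpa using hx)
    · intro h
      rw [h] at hx
      simp at hx
  have hΦ₁id : ∀ x, 1 ≤ ‖x‖ → Φ₁ x = x := by
    intro x hx
    rw [hΦ₁]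
    simp only
    split_ifs with h
    · exact hid x (by simpa using le_antisymm h hx)
    · rfl
  obtain ⟨ε, hε, hεΦ⟩ : ∃ ε > 0, ∀ x, ε ≤ ‖Φ₁ x‖ := by
    obtain ⟨x₀, -, hx₀⟩ := (isCompact_closedBall (0 : E) 1).exists_isMinOn ⟨0, by simp⟩
      hΦ₁c.norm.continuousOn
    refine ⟨min ‖Φ₁ x₀‖ 1, lt_min (norm_pos_iff.2 (hΦ₁0 x₀)) one_pos, fun x => ?_⟩
    by_cases hx : ‖x‖ ≤ 1
    · exact (min_le_left _ _).trans (hx₀ (by simpa using hx))
    · push Not at hx
      rw [hΦ₁id x hx.le]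
      exact (min_le_right _ _).trans hx.le
  set g₀ : E → E := fun x => Φ₁ x - x with hg₀
  have hg₀c : Continuous g₀ := hΦ₁c.sub continuous_id
  have hg₀s : ∀ x, 1 ≤ ‖x‖ → g₀ x = 0 := by
    intro x hx
    rw [hg₀]
    simp only
    rw [hΦ₁id x hx, sub_self]
  obtain ⟨g, hg, hgg, hgs⟩ := hg₀c.exists_contDiff_approx 1 (ε := fun _ => ε / 2)
    continuous_const (fun _ => half_pos hε)
  set u : E → E := fun x => x + g x with hu
  have hgz : ∀ x, 1 ≤ ‖x‖ → g x = 0 := by
    intro x hx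
    by_contra h
    exact (hgs h) (hg₀s x hx)
  have huid : ∀ x, 1 ≤ ‖x‖ → u x = x := by
    intro x hx
    rw [hu]
    simp only
    rw [hgz x hx, add_zero]
  have hu0 : ∀ x, u x ≠ 0 := by
    intro x h
    have h1 := hgg x
    rw [dist_eq_norm] at h1
    have h2 : g x - g₀ x = u x - Φ₁ x := by
      rw [hu, hg₀]
      simp only
      abel
    rw [h2, h, zero_sub, norm_neg] at h1
    linarith [hεΦ x]
  have huc : ContDiff ℝ 1 u := contDiff_id.add hg
  obtain ⟨M, hM⟩ : ∃ M, ∀ x ∈ closedBall (0 : E) 1, ‖u x‖ ≤ M :=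
    (isCompact_closedBall (0 : E) 1).exists_bound_of_continuousOn huc.continuous.continuousOn
  set R₁ := max M 1 + 1 with hR₁
  have hR₁2 : 2 ≤ R₁ := by
    have := le_max_right M 1
    linarith
  have huR : ∀ x, ‖x‖ < R₁ → ‖u x‖ < R₁ := by
    intro x hx
    by_cases h : ‖x‖ ≤ 1
    · have h1 := hM x (by simpa using h)
      have := le_max_left M 1
      linarith
    · push Not at h
      rwa [huid x h.le]
  set n := finrank ℝ E with hn
  have hn0 : 0 < n := finrank_pos
  -- the inequality for all small η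
  have key : ∀ η : ℝ, 0 < η → η ≤ 1 → (R₁ + η) ^ n ≤ 5 ^ n * ((R₁ + η) ^ n - R₁ ^ n) := by
    intro η hη hη1
    set v : E → E := fun x => PP R₁ η (u x) with hv
    have hvc : ContDiff ℝ 1 v := by
      rw [contDiff_iff_contDiffAt]
      intro x
      exact (PP_contDiffAt (hu0 x)).comp x huc.contDiffAt
    set g₂ : E → E := fun x => v x - x with hg₂
    have hg₂c : ContDiff ℝ 1 g₂ := hvc.sub contDiff_id
    have hg₂s : ∀ x, R₁ + η ≤ ‖x‖ → g₂ x = 0 := by
      intro x hx
      rw [hg₂, hv]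
      simp only
      rw [huid x (by linarith), PP_of_ge (by linarith) hη hx, sub_self]
    have h1 := integral_det hg₂c (R := R₁ + η) (by linarith) hg₂s
    have hder : ∀ x, ContinuousLinearMap.id ℝ E + fderiv ℝ g₂ x = fderiv ℝ v x := by
      intro x
      have h2 : HasFDerivAt g₂ (fderiv ℝ v x - ContinuousLinearMap.id ℝ E) x :=
        ((hvc.differentiable one_ne_zero).differentiableAt.hasFDerivAt).sub (hasFDerivAt_id x)
      rw [h2.fderiv]
      abel
    simp only [hder] at h1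
    have hzero : ∀ x ∈ ball (0 : E) R₁, (fderiv ℝ v x).det = 0 := by
      intro x hx
      apply det_eq_zero_of_norm_const (c := R₁ + η / 2) (by linarith)
        ((hvc.differentiable one_ne_zero).differentiableAt.hasFDerivAt)
      filter_upwards [isOpen_ball.mem_nhds hx] with y hy
      rw [mem_ball_zero_iff] at hy
      rw [hv]
      simp only
      rw [norm_PP (by linarith) hη (hu0 y), lam_of_le hη (huR y hy).le]
    have hbound : ∀ x, x ∉ ball (0 : E) R₁ → |(fderiv ℝ v x).det| ≤ 5 ^ n := by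
      intro x hx
      rw [mem_ball_zero_iff] at hx
      push Not at hx
      refine (abs_det_le _).trans ?_
      apply pow_le_pow_left₀ (norm_nonneg _)
      have h2 : v =ᶠ[𝓝 x] PP R₁ η := by
        have : ∀ᶠ y in 𝓝 x, 1 < ‖y‖ := by
          have h3 : Tendsto (fun y : E => ‖y‖) (𝓝 x) (𝓝 ‖x‖) := continuous_norm.continuousAt
          exact h3.eventually (lt_mem_nhds (by linarith))
        filter_upwards [this] with y hy
        rw [hv]
        simp only
        rw [huid y hy.le]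
      rw [h2.fderiv_eq]
      have hx0 : x ≠ 0 := by
        rw [← norm_pos_iff]
        linarith
      apply ((PP_contDiffAt hx0).differentiableAt one_ne_zero).hasFDerivAt.le_of_lip' (by norm_num)
      have h3 : ∀ᶠ y in 𝓝 x, R₁ - 1 / 2 < ‖y‖ := by
        have h3 : Tendsto (fun y : E => ‖y‖) (𝓝 x) (𝓝 ‖x‖) := continuous_norm.continuousAt
        exact h3.eventually (lt_mem_nhds (by linarith))
      filter_upwards [h3] with y hy
      exact PP_lip hR₁2 hη hη1 hy.le (by linarith)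
    have hcont : Continuous fun x => (fderiv ℝ v x).det :=
      ContinuousLinearMap.continuous_det.comp (hvc.continuous_fderiv one_ne_zero)
    have hint : ∀ r : ℝ, IntegrableOn (fun x => (fderiv ℝ v x).det) (ball (0 : E) r) := fun r =>
      (hcont.continuousOn.integrableOn_compact (isCompact_closedBall (0 : E) r)).mono_set
        ball_subset_closedBall
    have hsub : ball (0 : E) R₁ ⊆ ball 0 (R₁ + η) := ball_subset_ball (by linarith)
    have hsplit : ∫ x in ball (0 : E) (R₁ + η), (fderiv ℝ v x).det =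
        ∫ x in ball (0 : E) (R₁ + η) \ ball 0 R₁, (fderiv ℝ v x).det := by
      have h2 := setIntegral_sdiff (μ := (volume : Measure E)) (f := fun x => (fderiv ℝ v x).det)
        measurableSet_ball (hint (R₁ + η)) hsub
      have h3 : ∫ x in ball (0 : E) R₁, (fderiv ℝ v x).det = 0 := by
        rw [setIntegral_congr_fun measurableSet_ball (g := fun _ => (0 : ℝ))
          (fun x hx => hzero x hx)]
        simp
      rw [h3, sub_zero] at h2
      exact h2.symm
    have hle : ∫ x in ball (0 : E) (R₁ + η) \ ball 0 R₁, (fderiv ℝ v x).det ≤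
        5 ^ n * volume.real (ball (0 : E) (R₁ + η) \ ball 0 R₁) := by
      have hfin : volume (ball (0 : E) (R₁ + η) \ ball 0 R₁) ≠ ⊤ :=
        ((measure_mono sdiff_subset).trans_lt measure_ball_lt_top).ne
      calc ∫ x in ball (0 : E) (R₁ + η) \ ball 0 R₁, (fderiv ℝ v x).det
          ≤ ∫ x in ball (0 : E) (R₁ + η) \ ball 0 R₁, (5 : ℝ) ^ n := by
            apply setIntegral_mono_on ((hint (R₁ + η)).mono_set sdiff_subset)
              (integrableOn_const hfin) (measurableSet_ball.diff measurableSet_ball)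
            intro x hx
            exact (le_abs_self _).trans (hbound x hx.2)
        _ = _ := by rw [setIntegral_const, smul_eq_mul, mul_comm]
    have hvol : ∀ r : ℝ, 0 ≤ r → volume.real (ball (0 : E) r) = r ^ n * volume.real (ball (0 : E) 1) := by
      intro r hr
      rw [Measure.real, Measure.addHaar_ball _ _ hr, ENNReal.toReal_mul,
        ENNReal.toReal_ofReal (by positivity)]
      rfl
    have hdiff : volume.real (ball (0 : E) (R₁ + η) \ ball 0 R₁) =
        ((R₁ + η) ^ n - R₁ ^ n) * volume.real (ball (0 : E) 1) := by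
      rw [measureReal_sdiff hsub measurableSet_ball measure_ball_lt_top.ne,
        hvol (R₁ + η) (by linarith), hvol R₁ (by linarith)]
      ring
    rw [hsplit] at h1
    rw [h1, hdiff, hvol (R₁ + η) (by linarith)] at hle
    have hpos : 0 < volume.real (ball (0 : E) 1) :=
      ENNReal.toReal_pos (measure_ball_pos _ _ one_pos).ne' measure_ball_lt_top.ne
    have h5 : (R₁ + η) ^ n * volume.real (ball (0 : E) 1) ≤
        (5 ^ n * ((R₁ + η) ^ n - R₁ ^ n)) * volume.real (ball (0 : E) 1) := by linarith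
    exact le_of_mul_le_mul_right h5 hpos
  -- let η → 0
  have hlim : Tendsto (fun η : ℝ => 5 ^ n * ((R₁ + η) ^ n - R₁ ^ n) - (R₁ + η) ^ n) (𝓝[>] 0)
      (𝓝 (5 ^ n * ((R₁ + 0) ^ n - R₁ ^ n) - (R₁ + 0) ^ n)) := by
    apply tendsto_nhdsWithin_of_tendsto_nhds
    apply Continuous.tendsto
    fun_prop
  have h1 : 0 ≤ 5 ^ n * ((R₁ + 0) ^ n - R₁ ^ n) - (R₁ + 0) ^ n := by
    refine ge_of_tendsto hlim ?_
    filter_upwards [Ioc_mem_nhdsGT (zero_lt_one' ℝ)] with η hη
    linarith [key η hη.1 hη.2]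
  rw [add_zero, sub_self, mul_zero, zero_sub] at h1
  have h2 : 0 < R₁ ^ n := by positivity
  linarith

end Pool.Agent.K6.H31.WT
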