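import Pool.Agent.K6.H31.WT.NoRet

/-!
# Maps of the sphere which extend to non-vanishing maps of the ball
-/

set_option autoImplicit false

open Set Filter Topology MeasureTheory Metric Module
open scoped ContDiff ENNReal NNReal

namespace Pool.Agent.K6.H31.WT

variable {W : Type*} [NormedAddCommGroup W] [InnerProductSpace ℝ W]

/-- the map of the unit sphere extends to a continuous non-vanishing map of the ball -/
def Triv (α : W → W) : Prop :=
  ∃ Φ : W → W, ContinuousOn Φ (closedBall 0 1) ∧ (∀ x ∈ closedBall (0 : W) 1, Φ x ≠ 0) ∧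
    ∀ θ ∈ sphere (0 : W) 1, Φ θ = α θ

theorem triv_const {c : W} (hc : c ≠ 0) : Triv (fun _ => c) :=
  ⟨fun _ => c, continuousOn_const, fun _ _ => hc, fun _ _ => rfl⟩

theorem Triv.congr {α β : W → W} (h : Triv α) (he : ∀ θ ∈ sphere (0 : W) 1, α θ = β θ) : Triv β := by
  obtain ⟨Φ, h1, h2, h3⟩ := h
  exact ⟨Φ, h1, h2, fun θ hθ => (h3 θ hθ).trans (he θ hθ)⟩

theorem not_triv_smul [FiniteDimensional ℝ W] [MeasurableSpace W] [BorelSpace W] [Nontrivial W]
    {r : ℝ} (hr : 0 < r) : ¬ Triv (fun θ : W => r • θ) := by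
  rintro ⟨Φ, h1, h2, h3⟩
  refine no_ext (Φ := fun x => r⁻¹ • Φ x) (h1.const_smul _) (fun x hx => ?_) (fun x hx => ?_)
  · exact smul_ne_zero (inv_ne_zero hr.ne') (h2 x hx)
  · show r⁻¹ • Φ x = x
    rw [h3 x hx]
    exact inv_smul_smul₀ hr.ne' x

theorem Triv.of_homotopy {H : ℝ × W → W}
    (hH : ContinuousOn H (Icc (0 : ℝ) 1 ×ˢ sphere (0 : W) 1))
    (h0 : ∀ s ∈ Icc (0 : ℝ) 1, ∀ θ ∈ sphere (0 : W) 1, H (s, θ) ≠ 0)
    (h1 : Triv fun θ => H (1, θ)) : Triv fun θ => H (0, θ) := by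
  classical
  obtain ⟨Φ, hΦ, hΦ0, hΦ1⟩ := h1
  set A : Set W := closedBall 0 (1 / 2) with hA
  set B : Set W := {x | 1 / 2 ≤ ‖x‖ ∧ ‖x‖ ≤ 1} with hB
  have hAB : closedBall (0 : W) 1 = A ∪ B := by
    ext x
    rw [mem_union, mem_closedBall_zero_iff, mem_closedBall_zero_iff]
    constructor
    · intro h
      rcases le_total ‖x‖ (1 / 2) with h' | h'
      · exact Or.inl h'
      · exact Or.inr ⟨h', h⟩
    · rintro (h | h)
      · linarith
      · exact h.2
  have hAc : IsClosed A := isClosed_closedBall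
  have hBc : IsClosed B :=
    (isClosed_le continuous_const continuous_norm).inter (isClosed_le continuous_norm continuous_const)
  set Ψ : W → W := fun x => if ‖x‖ ≤ 1 / 2 then Φ ((2 : ℝ) • x) else H (2 - 2 * ‖x‖, ‖x‖⁻¹ • x) with hΨ
  have hmapB : MapsTo (fun x : W => ((2 - 2 * ‖x‖ : ℝ), ‖x‖⁻¹ • x)) B
      (Icc (0 : ℝ) 1 ×ˢ sphere (0 : W) 1) := by
    intro x hx
    refine ⟨⟨by linarith [hx.2], by linarith [hx.1]⟩, ?_⟩
    have hx0 : 0 < ‖x‖ := by linarith [hx.1]
    show ‖x‖⁻¹ • x ∈ sphere (0 : W) 1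
    rw [mem_sphere_zero_iff_norm, norm_smul, norm_inv, norm_norm, inv_mul_cancel₀ hx0.ne']
  have hΨA : ∀ x ∈ A, Ψ x = Φ ((2 : ℝ) • x) := by
    intro x hx
    rw [hΨ]
    simp only
    rw [if_pos (by simpa [hA] using hx)]
  have hΨB : ∀ x ∈ B, Ψ x = H (2 - 2 * ‖x‖, ‖x‖⁻¹ • x) := by
    intro x hx
    by_cases h : ‖x‖ ≤ 1 / 2
    · have hx2 : ‖x‖ = 1 / 2 := le_antisymm h hx.1
      rw [hΨA x (by simpa [hA] using h)]
      have h2 : (2 : ℝ) • x ∈ sphere (0 : W) 1 := by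
        rw [mem_sphere_zero_iff_norm, norm_smul, hx2]
        norm_num
      rw [hΦ1 _ h2, hx2]
      norm_num
    · rw [hΨ]
      simp only
      rw [if_neg h]
  refine ⟨Ψ, ?_, ?_, ?_⟩
  · rw [hAB]
    refine ContinuousOn.union_of_isClosed ?_ ?_ hAc hBc
    · refine ContinuousOn.congr ?_ hΨA
      refine hΦ.comp (by fun_prop) ?_
      intro x hx
      rw [mem_closedBall_zero_iff] at hx
      rw [mem_closedBall_zero_iff, norm_smul]
      norm_num
      linarith
    · refine ContinuousOn.congr ?_ hΨB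
      refine hH.comp ?_ hmapB
      refine ContinuousOn.prodMk (by fun_prop) ?_
      refine ContinuousOn.smul (ContinuousOn.inv₀ (by fun_prop) ?_) (by fun_prop)
      intro x hx
      have := hx.1
      linarith
  · intro x hx
    rw [hAB] at hx
    rcases hx with hx | hx
    · rw [hΨA x hx]
      apply hΦ0
      rw [mem_closedBall_zero_iff] at hx
      rw [mem_closedBall_zero_iff, norm_smul]
      norm_num
      linarith
    · rw [hΨB x hx]
      have h2 := hmapB hx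
      exact h0 _ h2.1 _ h2.2
  · intro θ hθ
    have hn : ‖θ‖ = 1 := by simpa using hθ
    have hθB : θ ∈ B := ⟨by rw [hn]; norm_num, hn.le⟩
    rw [hΨB θ hθB, hn]
    norm_num

end Pool.Agent.K6.H31.WT
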